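import Pool.Agent.Lib.MP_a09a4b_an.Defs

/-!
# Unfolding the payoff one guess at a time
-/

namespace Pool.Agent.HighLow

open scoped ENNReal

/-- The rule that is left after one answer. -/
def Rule.tail (s : Rule) (b : Bool) : Rule := fun w => s (b :: w)

theorem answers_succ (s : Rule) (h : ℝ) (n : ℕ) :
    answers s h (n + 1) = decide (s [] < h) :: answers (s.tail (decide (s [] < h))) h n := by
  induction n with
  | zero => rfl
  | succ n ih =>
    rw [answers, ih]
    conv_rhs => rw [answers]
    rw [List.cons_append]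
    rfl

theorem guess_zero (s : Rule) (h : ℝ) : guess s h 0 = s [] := rfl

theorem guess_succ (s : Rule) (h : ℝ) (n : ℕ) :
    guess s h (n + 1) = guess (s.tail (decide (s [] < h))) h n := by
  unfold guess
  rw [answers_succ]
  rfl

open Classical in
/-- One summand of the payoff. -/
noncomputable def payTerm (s : Rule) (h : ℝ) (n : ℕ) : ℝ≥0∞ :=
  if ∀ m < n, guess s h m ≠ h then ENNReal.ofReal |guess s h n - h| else 0

theorem payTerm_zero (s : Rule) (h : ℝ) : payTerm s h 0 = ENNReal.ofReal |s [] - h| := by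
  simp [payTerm, guess_zero]

open Classical in
theorem payTerm_succ (s : Rule) (h : ℝ) (n : ℕ) :
    payTerm s h (n + 1) =
      if s [] = h then 0 else payTerm (s.tail (decide (s [] < h))) h n := by
  unfold payTerm
  by_cases h0 : s [] = h
  · rw [if_pos h0, if_neg]
    intro hall
    exact hall 0 (Nat.succ_pos n) h0
  · rw [if_neg h0]
    have hiff : (∀ m < n + 1, guess s h m ≠ h) ↔
        (∀ m < n, guess (s.tail (decide (s [] < h))) h m ≠ h) := by
      constructor
      · intro hall m hm
        rw [← guess_succ]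
        exact hall (m + 1) (Nat.succ_lt_succ hm)
      · intro hall m hm
        cases m with
        | zero => exact h0
        | succ m =>
          rw [guess_succ]
          exact hall m (Nat.lt_of_succ_lt_succ hm)
    by_cases h1 : ∀ m < n, guess (s.tail (decide (s [] < h))) h m ≠ h
    · rw [if_pos h1, if_pos (hiff.2 h1), guess_succ]
    · rw [if_neg h1, if_neg (fun h2 => h1 (hiff.1 h2))]

/-- The payoff of the first `n` guesses. -/
noncomputable def pay (s : Rule) (h : ℝ) (n : ℕ) : ℝ≥0∞ :=
  ∑ i ∈ Finset.range n, payTerm s h i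

theorem pay_zero (s : Rule) (h : ℝ) : pay s h 0 = 0 := by simp [pay]

open Classical in
theorem pay_succ (s : Rule) (h : ℝ) (n : ℕ) :
    pay s h (n + 1) = ENNReal.ofReal |s [] - h| +
      if s [] = h then 0 else pay (s.tail (decide (s [] < h))) h n := by
  unfold pay
  rw [Finset.sum_range_succ', payTerm_zero, add_comm]
  congr 1
  by_cases h0 : s [] = h
  · rw [if_pos h0]
    apply Finset.sum_eq_zero
    intro i _
    rw [payTerm_succ, if_pos h0]
  · rw [if_neg h0]
    apply Finset.sum_congr rfl
    intro i _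
    rw [payTerm_succ, if_neg h0]

theorem payoff_eq_tsum (s : Rule) (h : ℝ) : payoff s h = ∑' n, payTerm s h n := rfl

theorem payoff_eq_iSup (s : Rule) (h : ℝ) : payoff s h = ⨆ n, pay s h n := by
  rw [payoff_eq_tsum, ENNReal.tsum_eq_iSup_nat]
  rfl

theorem pay_le_payoff (s : Rule) (h : ℝ) (n : ℕ) : pay s h n ≤ payoff s h := by
  rw [payoff_eq_iSup]
  exact le_iSup (fun n => pay s h n) n

theorem payoff_le {s : Rule} {h : ℝ} {x : ℝ≥0∞} (hx : ∀ n, pay s h n ≤ x) : payoff s h ≤ x := by
  rw [payoff_eq_iSup]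
  exact iSup_le hx

open Classical in
theorem payoff_eq (s : Rule) (h : ℝ) :
    payoff s h = ENNReal.ofReal |s [] - h| +
      if s [] = h then 0 else payoff (s.tail (decide (s [] < h))) h := by
  rw [payoff_eq_tsum, tsum_eq_zero_add' ENNReal.summable, payTerm_zero]
  congr 1
  by_cases h0 : s [] = h
  · rw [if_pos h0]
    have : ∀ n, payTerm s h (n + 1) = 0 := by
      intro n
      rw [payTerm_succ, if_pos h0]
    simp [this]
  · rw [if_neg h0]
    have : ∀ n, payTerm s h (n + 1) = payTerm (s.tail (decide (s [] < h))) h n := by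
      intro n
      rw [payTerm_succ, if_neg h0]
    simp only [this]
    rfl

theorem payoff_of_eq {s : Rule} {h : ℝ} (h0 : s [] = h) : payoff s h = 0 := by
  rw [payoff_eq, if_pos h0, h0]
  simp

theorem payoff_of_lt {s : Rule} {h : ℝ} (h0 : s [] < h) :
    payoff s h = ENNReal.ofReal (h - s []) + payoff (s.tail true) h := by
  rw [payoff_eq, if_neg h0.ne, decide_eq_true h0, abs_sub_comm, abs_of_pos (sub_pos.2 h0)]

theorem payoff_of_gt {s : Rule} {h : ℝ} (h0 : h < s []) :
    payoff s h = ENNReal.ofReal (s [] - h) + payoff (s.tail false) h := by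
  rw [payoff_eq, if_neg h0.ne', decide_eq_false (not_lt.2 h0.le), abs_of_pos (sub_pos.2 h0)]

theorem pay_of_eq {s : Rule} {h : ℝ} (h0 : s [] = h) (n : ℕ) : pay s h n = 0 := by
  cases n with
  | zero => exact pay_zero s h
  | succ n => rw [pay_succ, if_pos h0, h0]; simp

theorem pay_of_lt {s : Rule} {h : ℝ} (h0 : s [] < h) (n : ℕ) :
    pay s h (n + 1) = ENNReal.ofReal (h - s []) + pay (s.tail true) h n := by
  rw [pay_succ, if_neg h0.ne, decide_eq_true h0, abs_sub_comm, abs_of_pos (sub_pos.2 h0)]

theorem pay_of_gt {s : Rule} {h : ℝ} (h0 : h < s []) (n : ℕ) :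
    pay s h (n + 1) = ENNReal.ofReal (s [] - h) + pay (s.tail false) h n := by
  rw [pay_succ, if_neg h0.ne', decide_eq_false (not_lt.2 h0.le), abs_of_pos (sub_pos.2 h0)]

/-! ### Scaling -/

/-- The image of a rule under `x ↦ A + L x`. -/
def Rule.scale (s : Rule) (A L : ℝ) : Rule := fun w => A + L * s w

theorem Rule.scale_tail (s : Rule) (A L : ℝ) (b : Bool) :
    (s.scale A L).tail b = (s.tail b).scale A L := rfl

theorem pay_scale (A : ℝ) {L : ℝ} (hL : 0 < L) (n : ℕ) : ∀ (s : Rule) (h : ℝ),
    pay (s.scale A L) (A + L * h) n = ENNReal.ofReal L * pay s h n := by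
  induction n with
  | zero => intro s h; simp [pay_zero]
  | succ n ih =>
    intro s h
    rcases lt_trichotomy (s []) h with h0 | h0 | h0
    · have h1 : (s.scale A L) [] < A + L * h := by
        simp only [Rule.scale]
        have := mul_lt_mul_of_pos_left h0 hL
        linarith
      rw [pay_of_lt h1, pay_of_lt h0, Rule.scale_tail, ih, mul_add,
        ← ENNReal.ofReal_mul hL.le]
      congr 2
      simp only [Rule.scale]
      ring
    · have h1 : (s.scale A L) [] = A + L * h := by
        simp only [Rule.scale, h0]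
      rw [pay_of_eq h1, pay_of_eq h0, mul_zero]
    · have h1 : A + L * h < (s.scale A L) [] := by
        simp only [Rule.scale]
        have := mul_lt_mul_of_pos_left h0 hL
        linarith
      rw [pay_of_gt h1, pay_of_gt h0, Rule.scale_tail, ih, mul_add,
        ← ENNReal.ofReal_mul hL.le]
      congr 2
      simp only [Rule.scale]
      ring

theorem payoff_scale (A : ℝ) {L : ℝ} (hL : 0 < L) (s : Rule) (h : ℝ) :
    payoff (s.scale A L) (A + L * h) = ENNReal.ofReal L * payoff s h := by
  rw [payoff_eq_iSup, payoff_eq_iSup, ENNReal.mul_iSup]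
  congr 1
  ext n
  rw [pay_scale A hL]

/-! ### The rules with parameters `lam` -/

theorem alpernFrom_nil (lam : ℤ → ℝ) (p : ℤ × ℝ × ℝ) :
    alpernFrom lam p [] = alpernGuess lam p := rfl

theorem alpernFrom_cons (lam : ℤ → ℝ) (p : ℤ × ℝ × ℝ) (b : Bool) (w : List Bool) :
    alpernFrom lam p (b :: w) = alpernFrom lam (alpernStep lam p b) w := rfl

theorem alpernFrom_tail (lam : ℤ → ℝ) (p : ℤ × ℝ × ℝ) (b : Bool) :
    Rule.tail (alpernFrom lam p) b = alpernFrom lam (alpernStep lam p b) := rfl

/-- The guess in state `k` on `[0,1]`. -/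
noncomputable def gpos (lam : ℤ → ℝ) (k : ℤ) : ℝ := 1 - lam k

theorem alpernGuess_eq (lam : ℤ → ℝ) (k : ℤ) (a b : ℝ) :
    alpernGuess lam (k, a, b) = a + (b - a) * gpos lam k := by
  simp only [alpernGuess, gpos]
  ring

theorem alpernStep_true (lam : ℤ → ℝ) (k : ℤ) (a b : ℝ) :
    alpernStep lam (k, a, b) true = (k + 1, a + (b - a) * gpos lam k, b) := by
  simp only [alpernStep, alpernGuess_eq]

theorem alpernStep_false (lam : ℤ → ℝ) (k : ℤ) (a b : ℝ) :
    alpernStep lam (k, a, b) false = (k - 1, a, a + (b - a) * gpos lam k) := by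
  simp only [alpernStep, alpernGuess_eq]

theorem alpernFrom_scale (lam : ℤ → ℝ) (A L : ℝ) (w : List Bool) : ∀ (k : ℤ) (a b : ℝ),
    alpernFrom lam (k, A + L * a, A + L * b) w = A + L * alpernFrom lam (k, a, b) w := by
  induction w with
  | nil =>
    intro k a b
    rw [alpernFrom_nil, alpernFrom_nil, alpernGuess_eq, alpernGuess_eq]
    ring
  | cons x w ih =>
    intro k a b
    rw [alpernFrom_cons, alpernFrom_cons]
    cases x with
    | true =>
      rw [alpernStep_true, alpernStep_true, ← ih]
      congr 3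
      ring
    | false =>
      rw [alpernStep_false, alpernStep_false, ← ih]
      congr 3
      ring

theorem alpernFrom_scale' (lam : ℤ → ℝ) (k : ℤ) (a b : ℝ) :
    alpernFrom lam (k, a, b) = (alpernFrom lam (k, 0, 1)).scale a (b - a) := by
  funext w
  have := alpernFrom_scale lam a (b - a) w k 0 1
  simp only [mul_zero, add_zero, mul_one, add_sub_cancel] at this
  rw [this]
  rfl

theorem gpos_mem {lam : ℤ → ℝ} (hlam : ∀ k, lam k ∈ Set.Ioo (0 : ℝ) 1) (k : ℤ) :
    0 < gpos lam k ∧ gpos lam k < 1 := by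
  have := hlam k
  simp only [Set.mem_Ioo] at this
  constructor <;> simp only [gpos] <;> linarith [this.1, this.2]

theorem alpernFrom_mem {lam : ℤ → ℝ} (hlam : ∀ k, lam k ∈ Set.Ioo (0 : ℝ) 1) (w : List Bool) :
    ∀ (k : ℤ) (a b : ℝ), a < b →
      a < alpernFrom lam (k, a, b) w ∧ alpernFrom lam (k, a, b) w < b := by
  induction w with
  | nil =>
    intro k a b hab
    rw [alpernFrom_nil, alpernGuess_eq]
    obtain ⟨h1, h2⟩ := gpos_mem hlam k
    have hba : 0 < b - a := sub_pos.2 hab
    constructor
    · nlinarith [mul_pos hba h1]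
    · nlinarith [mul_pos hba (sub_pos.2 h2)]
  | cons x w ih =>
    intro k a b hab
    obtain ⟨h1, h2⟩ := gpos_mem hlam k
    have hba : 0 < b - a := sub_pos.2 hab
    have h3 : a < a + (b - a) * gpos lam k := by nlinarith [mul_pos hba h1]
    have h4 : a + (b - a) * gpos lam k < b := by nlinarith [mul_pos hba (sub_pos.2 h2)]
    rw [alpernFrom_cons]
    cases x with
    | true =>
      rw [alpernStep_true]
      obtain ⟨h5, h6⟩ := ih (k + 1) _ _ h4
      exact ⟨h3.trans h5, h6⟩
    | false =>
      rw [alpernStep_false]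
      obtain ⟨h5, h6⟩ := ih (k - 1) _ _ h3
      exact ⟨h5, h6.trans h4⟩

end Pool.Agent.HighLow
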