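import Pool.Agent.Lib.MP_a09a4b_an.Mix

/-!
# The explicit mixture

The grid is `i / 64`.  Each tree of `baseMix` is used together with its mirror image.
-/

namespace Pool.Agent.HighLow

open GTree

set_option maxRecDepth 100000 in
/-- Integer weights and guess trees. -/
def baseMix : List (ℕ × GTree) := [
  (18, (n 32 (n 6 (d 2) (n 18 (n 10 (n 8 (n 7 (d 1) (d 1)) (n 9 (d 1) (d 2))) (n 13 (n 11 (d 1) (n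
    12 (u 0) (u 0))) (n 15 (n 14 (u 0) (d 1)) (n 16 (u 0) (n 17 (d 1) (u 0)))))) (n 27 (n 23 (n 21
    (n 20 (n 19 (u 0) (u 0)) (u 0)) (n 22 (u 0) (u 0))) (n 25 (n 24 (u 0) (u 1)) (n 26 (u 0) (u
    1)))) (n 30 (n 29 (n 28 (u 1) (u 1)) (u 1)) (n 31 (u 0) (u 0)))))) (n 58 (n 46 (n 37 (n 34 (n
    33 (u 0) (u 0)) (n 35 (d 1) (n 36 (d 1) (d 1)))) (n 41 (n 39 (n 38 (d 1) (u 0)) (n 40 (d 1) (u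
    0))) (n 43 (n 42 (u 0) (u 0)) (n 44 (u 0) (n 45 (u 0) (u 0)))))) (n 54 (n 51 (n 49 (n 48 (n 47
    (u 0) (u 1)) (u 0)) (n 50 (u 1) (u 0))) (n 53 (n 52 (u 0) (u 0)) (u 1))) (n 56 (n 55 (u 2) (u
    1)) (n 57 (u 1) (u 1))))) (u 2)))),
  (7, (n 32 (n 6 (d 2) (n 19 (n 11 (n 8 (n 7 (d 1) (d 2)) (n 9 (d 2) (n 10 (d 1) (d 2)))) (n 15 (n
    13 (n 12 (d 1) (u 0)) (n 14 (d 1) (u 0))) (n 17 (n 16 (u 0) (u 0)) (n 18 (u 0) (u 0))))) (n 27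
    (n 23 (n 21 (n 20 (u 0) (u 0)) (n 22 (u 0) (u 0))) (n 25 (n 24 (u 0) (u 1)) (n 26 (u 0) (u
    0)))) (n 30 (n 29 (n 28 (u 1) (u 1)) (u 0)) (n 31 (u 0) (u 0)))))) (n 58 (n 45 (n 37 (n 34 (n
    33 (u 0) (u 0)) (n 35 (u 0) (n 36 (d 1) (d 1)))) (n 41 (n 39 (n 38 (u 0) (u 0)) (n 40 (d 1) (u
    0))) (n 43 (n 42 (u 0) (u 0)) (n 44 (u 0) (u 0))))) (n 53 (n 49 (n 47 (n 46 (u 0) (u 0)) (n 48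
    (u 0) (u 0))) (n 51 (n 50 (u 0) (u 1)) (n 52 (u 0) (u 1)))) (n 56 (n 55 (n 54 (u 2) (u 1)) (u
    2)) (n 57 (u 2) (u 1))))) (u 2)))),
  (10, (n 35 (n 9 (n 1 (d 3) (n 5 (n 2 (d 3) (n 3 (d 3) (n 4 (d 2) (d 2)))) (n 7 (n 6 (d 1) (d 1))
    (n 8 (d 2) (d 1))))) (n 25 (n 15 (n 11 (n 10 (d 2) (d 2)) (n 13 (n 12 (u 0) (u 0)) (n 14 (d 1)
    (u 0)))) (n 20 (n 17 (n 16 (u 0) (u 0)) (n 18 (u 0) (n 19 (u 0) (u 0)))) (n 22 (n 21 (u 0) (u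
    0)) (n 24 (n 23 (u 1) (u 0)) (u 1))))) (n 31 (n 29 (n 28 (n 27 (n 26 (u 0) (u 0)) (u 1)) (u
    1)) (n 30 (u 1) (u 0))) (n 33 (n 32 (u 0) (u 0)) (n 34 (u 0) (d 1)))))) (n 60 (n 50 (n 41 (n
    37 (n 36 (d 1) (d 1)) (n 39 (n 38 (u 0) (u 0)) (n 40 (d 1) (u 0)))) (n 45 (n 43 (n 42 (d 1) (u
    0)) (n 44 (u 0) (u 0))) (n 47 (n 46 (u 0) (u 0)) (n 49 (n 48 (u 0) (u 0)) (u 0))))) (n 56 (n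
    54 (n 52 (n 51 (u 1) (u 0)) (n 53 (u 0) (u 2))) (n 55 (u 2) (u 1))) (n 58 (n 57 (u 2) (u 1))
    (n 59 (u 1) (u 2))))) (u 2)))),
  (40, (n 33 (n 8 (n 1 (d 3) (n 4 (d 2) (n 6 (n 5 (d 2) (d 1)) (n 7 (d 1) (d 1))))) (n 22 (n 13 (n
    10 (n 9 (d 1) (d 2)) (n 11 (d 2) (n 12 (u 0) (u 0)))) (n 17 (n 15 (n 14 (d 1) (u 0)) (n 16 (u
    0) (u 0))) (n 20 (n 18 (u 0) (n 19 (u 0) (u 0))) (n 21 (u 0) (u 0))))) (n 29 (n 26 (n 24 (n 23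
    (u 0) (u 0)) (n 25 (u 0) (u 0))) (n 28 (n 27 (u 0) (u 1)) (u 1))) (n 31 (n 30 (u 0) (u 0)) (n
    32 (u 0) (u 0)))))) (n 58 (n 46 (n 38 (n 35 (n 34 (u 0) (u 0)) (n 36 (d 1) (n 37 (d 1) (u
    0)))) (n 42 (n 40 (n 39 (u 0) (u 0)) (n 41 (u 0) (u 0))) (n 44 (n 43 (u 0) (u 0)) (n 45 (u 0)
    (u 0))))) (n 54 (n 51 (n 49 (n 48 (n 47 (u 0) (u 0)) (u 0)) (n 50 (u 0) (u 1))) (n 53 (n 52 (u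
    0) (u 0)) (u 2))) (n 56 (n 55 (u 2) (u 1)) (n 57 (u 1) (u 1))))) (u 2)))),
  (93, (n 28 (n 4 (d 2) (n 13 (n 8 (n 6 (n 5 (d 2) (d 1)) (n 7 (d 1) (d 1))) (n 10 (n 9 (d 2) (d
    1)) (n 11 (d 1) (n 12 (d 1) (u 0))))) (n 21 (n 17 (n 15 (n 14 (u 0) (u 0)) (n 16 (u 0) (u 0)))
    (n 19 (n 18 (u 0) (u 0)) (n 20 (u 0) (u 0)))) (n 25 (n 23 (n 22 (u 0) (u 1)) (n 24 (u 0) (u
    0))) (n 27 (n 26 (u 1) (u 1)) (u 1)))))) (n 54 (n 38 (n 33 (n 31 (n 30 (n 29 (u 1) (u 1)) (u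
    0)) (n 32 (u 0) (u 0))) (n 35 (n 34 (u 0) (d 1)) (n 36 (d 1) (n 37 (d 1) (d 1))))) (n 47 (n 42
    (n 40 (n 39 (d 1) (u 0)) (n 41 (u 0) (d 1))) (n 44 (n 43 (u 0) (u 0)) (n 46 (n 45 (u 0) (u 0))
    (u 0)))) (n 51 (n 49 (n 48 (u 0) (u 0)) (n 50 (u 0) (u 0))) (n 53 (n 52 (u 0) (u 1)) (u 1)))))
    (n 63 (n 59 (n 57 (n 56 (n 55 (u 1) (u 2)) (u 1)) (n 58 (u 1) (u 1))) (n 62 (n 61 (n 60 (u 2)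
    (u 2)) (u 3)) (u 3))) (u 3))))),
  (124, (n 29 (n 4 (d 2) (n 14 (n 8 (n 6 (n 5 (d 2) (d 1)) (n 7 (d 1) (d 1))) (n 10 (n 9 (d 2) (d
    1)) (n 11 (d 2) (n 12 (u 0) (n 13 (u 0) (d 1)))))) (n 23 (n 19 (n 17 (n 15 (u 0) (n 16 (u 0)
    (u 0))) (n 18 (u 0) (u 0))) (n 21 (n 20 (u 0) (u 0)) (n 22 (u 0) (u 0)))) (n 27 (n 25 (n 24 (u
    0) (u 1)) (n 26 (u 0) (u 0))) (n 28 (u 1) (u 1)))))) (n 54 (n 38 (n 33 (n 31 (n 30 (u 1) (u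
    0)) (n 32 (u 0) (u 0))) (n 35 (n 34 (u 0) (d 1)) (n 36 (d 1) (n 37 (d 1) (u 0))))) (n 47 (n 42
    (n 40 (n 39 (u 0) (d 1)) (n 41 (u 0) (u 0))) (n 45 (n 43 (u 0) (n 44 (u 0) (u 0))) (n 46 (u 0)
    (u 0)))) (n 51 (n 49 (n 48 (u 0) (u 0)) (n 50 (u 0) (u 1))) (n 53 (n 52 (u 0) (u 0)) (u 2)))))
    (n 62 (n 58 (n 56 (n 55 (u 1) (u 2)) (n 57 (u 1) (u 1))) (n 60 (n 59 (u 1) (u 2)) (n 61 (u 2)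
    (u 3)))) (u 2))))),
  (10, (n 28 (n 3 (d 2) (n 12 (n 7 (n 5 (n 4 (d 2) (d 2)) (n 6 (d 2) (d 1))) (n 9 (n 8 (d 1) (d
    2)) (n 10 (d 1) (n 11 (d 1) (u 0))))) (n 21 (n 16 (n 14 (n 13 (u 0) (u 0)) (n 15 (d 1) (u 0)))
    (n 18 (n 17 (u 0) (u 0)) (n 20 (n 19 (u 0) (u 0)) (u 0)))) (n 25 (n 23 (n 22 (u 0) (u 1)) (n
    24 (u 0) (u 1))) (n 27 (n 26 (u 0) (u 0)) (u 1)))))) (n 54 (n 38 (n 33 (n 30 (n 29 (u 1) (u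
    1)) (n 32 (n 31 (u 0) (u 0)) (u 0))) (n 35 (n 34 (u 0) (d 1)) (n 36 (d 1) (n 37 (d 1) (u
    0))))) (n 47 (n 42 (n 40 (n 39 (u 0) (d 1)) (n 41 (u 0) (d 1))) (n 44 (n 43 (u 0) (u 0)) (n 46
    (n 45 (u 0) (u 0)) (u 0)))) (n 51 (n 49 (n 48 (u 0) (u 0)) (n 50 (u 1) (u 0))) (n 53 (n 52 (u
    0) (u 0)) (u 1))))) (n 62 (n 58 (n 56 (n 55 (u 1) (u 2)) (n 57 (u 1) (u 1))) (n 60 (n 59 (u 2)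
    (u 2)) (n 61 (u 2) (u 3)))) (u 2))))),
  (2, (n 30 (n 5 (d 2) (n 16 (n 9 (n 7 (n 6 (d 2) (d 1)) (n 8 (d 1) (d 1))) (n 12 (n 10 (d 1) (n
    11 (d 1) (u 0))) (n 14 (n 13 (u 0) (d 1)) (n 15 (d 1) (u 0))))) (n 25 (n 20 (n 18 (n 17 (u 0)
    (u 0)) (n 19 (u 0) (u 0))) (n 22 (n 21 (u 0) (u 0)) (n 24 (n 23 (u 0) (u 0)) (u 0)))) (n 28 (n
    27 (n 26 (u 0) (u 1)) (u 1)) (n 29 (u 1) (u 1)))))) (n 56 (n 41 (n 34 (n 32 (n 31 (u 0) (u 0))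
    (n 33 (u 0) (u 0))) (n 36 (n 35 (d 1) (d 1)) (n 38 (n 37 (d 1) (d 1)) (n 39 (u 0) (n 40 (u 0)
    (u 0)))))) (n 51 (n 46 (n 43 (n 42 (u 0) (u 0)) (n 44 (u 0) (n 45 (u 0) (u 0)))) (n 49 (n 48
    (n 47 (u 0) (u 0)) (u 0)) (n 50 (u 1) (u 1)))) (n 54 (n 53 (n 52 (u 0) (u 0)) (u 1)) (n 55 (u
    1) (u 1))))) (n 63 (n 60 (n 58 (n 57 (u 1) (u 1)) (n 59 (u 2) (u 2))) (n 62 (n 61 (u 2) (u 3))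
    (u 3))) (u 3))))),
  (3, (n 29 (n 4 (d 2) (n 14 (n 8 (n 6 (n 5 (d 2) (d 2)) (n 7 (d 1) (d 1))) (n 10 (n 9 (d 1) (d
    1)) (n 12 (n 11 (d 1) (d 1)) (n 13 (u 0) (d 1))))) (n 23 (n 19 (n 16 (n 15 (u 0) (u 0)) (n 17
    (u 0) (n 18 (u 0) (u 0)))) (n 21 (n 20 (u 0) (u 0)) (n 22 (u 0) (u 1)))) (n 27 (n 25 (n 24 (u
    0) (u 1)) (n 26 (u 1) (u 1))) (n 28 (u 1) (u 1)))))) (n 55 (n 40 (n 34 (n 31 (n 30 (u 1) (u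
    1)) (n 33 (n 32 (u 0) (u 0)) (d 1))) (n 36 (n 35 (d 1) (d 1)) (n 38 (n 37 (d 1) (d 1)) (n 39
    (d 1) (d 1))))) (n 49 (n 45 (n 42 (n 41 (u 0) (d 1)) (n 43 (u 0) (n 44 (u 0) (u 0)))) (n 47 (n
    46 (u 0) (u 0)) (n 48 (u 0) (u 0)))) (n 53 (n 51 (n 50 (u 0) (u 1)) (n 52 (u 0) (u 1))) (n 54
    (u 1) (u 1))))) (n 63 (n 59 (n 57 (n 56 (u 1) (u 1)) (n 58 (u 1) (u 2))) (n 62 (n 61 (n 60 (u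
    2) (u 2)) (u 3)) (u 3))) (u 3))))),
  (81, (n 32 (n 7 (n 1 (d 3) (n 3 (d 2) (n 5 (n 4 (d 2) (d 1)) (n 6 (d 2) (d 1))))) (n 19 (n 11 (n
    9 (n 8 (d 1) (d 1)) (n 10 (d 2) (d 1))) (n 15 (n 13 (d 1) (n 14 (u 0) (u 0))) (n 17 (n 16 (u
    0) (u 0)) (n 18 (u 0) (u 0))))) (n 27 (n 23 (n 21 (n 20 (u 0) (u 0)) (n 22 (u 0) (u 0))) (n 25
    (n 24 (u 0) (u 1)) (n 26 (u 0) (u 0)))) (n 30 (n 29 (n 28 (u 1) (u 1)) (u 1)) (n 31 (u 0) (u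
    0)))))) (n 57 (n 45 (n 37 (n 34 (n 33 (u 0) (u 0)) (n 35 (d 1) (n 36 (d 1) (d 1)))) (n 41 (n
    39 (n 38 (u 0) (u 0)) (n 40 (d 1) (u 0))) (n 43 (n 42 (u 0) (u 0)) (n 44 (u 0) (u 0))))) (n 53
    (n 49 (n 47 (n 46 (u 0) (u 0)) (n 48 (u 0) (u 0))) (n 51 (n 50 (u 0) (u 0)) (u 1))) (n 55 (n
    54 (u 1) (u 2)) (n 56 (u 1) (u 1))))) (n 63 (n 61 (n 59 (n 58 (u 1) (u 2)) (n 60 (u 1) (u 2)))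
    (u 2)) (u 3))))),
  (11, (n 28 (n 3 (d 2) (n 13 (n 8 (n 6 (n 4 (d 2) (n 5 (d 2) (d 2))) (n 7 (d 1) (d 1))) (n 10 (n
    9 (d 1) (d 2)) (n 11 (d 1) (n 12 (d 1) (u 0))))) (n 21 (n 17 (n 15 (n 14 (u 0) (u 0)) (n 16 (u
    0) (u 0))) (n 19 (n 18 (u 0) (d 1)) (n 20 (u 0) (u 0)))) (n 25 (n 23 (n 22 (u 0) (u 0)) (n 24
    (u 0) (u 1))) (n 27 (n 26 (u 1) (u 0)) (u 0)))))) (n 53 (n 37 (n 32 (n 30 (n 29 (u 1) (u 1))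
    (n 31 (u 0) (u 0))) (n 34 (n 33 (u 0) (u 0)) (n 35 (d 1) (n 36 (d 1) (u 0))))) (n 45 (n 41 (n
    39 (n 38 (u 0) (d 1)) (n 40 (d 1) (u 0))) (n 43 (n 42 (u 0) (u 0)) (n 44 (u 0) (u 0)))) (n 49
    (n 47 (n 46 (u 1) (u 0)) (n 48 (u 0) (u 0))) (n 51 (n 50 (u 0) (u 0)) (n 52 (u 0) (u 1))))))
    (n 62 (n 57 (n 55 (n 54 (u 1) (u 2)) (n 56 (u 1) (u 1))) (n 59 (n 58 (u 1) (u 2)) (n 61 (n 60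
    (u 2) (u 2)) (u 3)))) (u 2))))),
  (14, (n 33 (n 7 (n 1 (d 3) (n 3 (d 2) (n 5 (n 4 (d 2) (d 1)) (n 6 (d 1) (d 1))))) (n 21 (n 12 (n
    9 (n 8 (d 1) (d 1)) (n 10 (d 1) (n 11 (d 1) (u 0)))) (n 16 (n 14 (n 13 (u 0) (d 1)) (n 15 (d
    1) (u 0))) (n 18 (n 17 (u 0) (u 0)) (n 20 (n 19 (u 0) (u 0)) (u 0))))) (n 29 (n 26 (n 24 (n 23
    (n 22 (u 0) (u 0)) (u 0)) (n 25 (u 0) (u 0))) (n 28 (n 27 (u 0) (u 1)) (u 1))) (n 31 (n 30 (u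
    1) (u 0)) (n 32 (u 0) (u 0)))))) (n 59 (n 47 (n 38 (n 35 (n 34 (u 0) (d 1)) (n 36 (d 1) (n 37
    (d 1) (u 0)))) (n 42 (n 40 (n 39 (u 0) (u 0)) (n 41 (u 0) (u 0))) (n 45 (n 43 (u 0) (n 44 (u
    0) (u 0))) (n 46 (u 0) (u 0))))) (n 55 (n 52 (n 50 (n 49 (n 48 (u 0) (u 0)) (u 1)) (n 51 (u 1)
    (u 0))) (n 54 (n 53 (u 0) (u 1)) (u 1))) (n 57 (n 56 (u 1) (u 1)) (n 58 (u 1) (u 1))))) (u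
    2)))),
  (28, (n 32 (n 7 (n 1 (d 3) (n 3 (d 2) (n 5 (n 4 (d 2) (d 2)) (n 6 (d 2) (d 1))))) (n 20 (n 12 (n
    9 (n 8 (d 1) (d 1)) (n 10 (d 1) (n 11 (d 1) (u 0)))) (n 16 (n 14 (n 13 (d 1) (u 0)) (n 15 (u
    0) (u 0))) (n 18 (n 17 (u 0) (u 0)) (n 19 (d 1) (u 0))))) (n 28 (n 25 (n 23 (n 22 (n 21 (u 0)
    (u 0)) (u 0)) (n 24 (u 0) (u 1))) (n 27 (n 26 (u 0) (u 0)) (u 1))) (n 30 (n 29 (u 1) (u 1)) (n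
    31 (u 0) (u 0)))))) (n 57 (n 44 (n 36 (n 34 (n 33 (u 0) (u 0)) (n 35 (d 1) (d 1))) (n 39 (n 37
    (d 1) (n 38 (u 0) (u 0))) (n 41 (n 40 (d 1) (u 0)) (n 42 (u 0) (n 43 (u 0) (u 0)))))) (n 52 (n
    48 (n 46 (n 45 (u 0) (u 1)) (n 47 (u 0) (u 0))) (n 50 (n 49 (u 0) (u 0)) (n 51 (u 0) (u 1))))
    (n 55 (n 54 (n 53 (u 0) (u 1)) (u 1)) (n 56 (u 1) (u 1))))) (n 63 (n 61 (n 59 (n 58 (u 1) (u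
    2)) (n 60 (u 2) (u 2))) (u 2)) (u 3))))),
  (42, (n 30 (n 5 (d 2) (n 16 (n 9 (n 7 (n 6 (d 1) (d 1)) (n 8 (d 1) (d 1))) (n 11 (n 10 (d 1) (d
    1)) (n 13 (d 1) (n 14 (d 1) (n 15 (u 0) (u 0)))))) (n 25 (n 21 (n 18 (n 17 (u 0) (u 0)) (n 20
    (n 19 (u 0) (u 0)) (u 0))) (n 23 (n 22 (u 0) (u 0)) (n 24 (u 0) (u 1)))) (n 28 (n 27 (n 26 (u
    0) (u 0)) (u 1)) (n 29 (u 1) (u 1)))))) (n 56 (n 41 (n 34 (n 32 (n 31 (u 0) (u 0)) (n 33 (u 0)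
    (u 0))) (n 36 (n 35 (d 1) (d 1)) (n 38 (n 37 (d 1) (u 0)) (n 39 (u 0) (n 40 (d 1) (u 0))))))
    (n 51 (n 46 (n 43 (n 42 (u 0) (u 0)) (n 44 (u 0) (n 45 (u 0) (u 0)))) (n 49 (n 48 (n 47 (u 0)
    (u 0)) (u 0)) (n 50 (u 0) (u 1)))) (n 54 (n 53 (u 1) (u 1)) (n 55 (u 1) (u 1))))) (n 63 (n 60
    (n 58 (n 57 (u 1) (u 1)) (n 59 (u 1) (u 2))) (u 2)) (u 3))))),
  (20, (n 32 (n 7 (n 1 (d 3) (n 3 (d 2) (n 5 (n 4 (d 2) (d 2)) (n 6 (d 2) (d 1))))) (n 20 (n 11 (n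
    9 (n 8 (d 1) (d 2)) (n 10 (d 2) (d 1))) (n 15 (n 13 (n 12 (u 0) (u 0)) (n 14 (d 1) (u 0))) (n
    17 (n 16 (u 0) (u 0)) (n 18 (u 0) (n 19 (d 1) (u 0)))))) (n 28 (n 25 (n 22 (n 21 (u 0) (u 0))
    (n 24 (n 23 (u 0) (u 0)) (u 1))) (n 27 (n 26 (u 0) (u 1)) (u 1))) (n 30 (n 29 (u 1) (u 1)) (n
    31 (u 0) (u 0)))))) (n 57 (n 44 (n 36 (n 34 (n 33 (u 0) (u 0)) (n 35 (d 1) (d 1))) (n 39 (n 37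
    (d 1) (n 38 (d 1) (u 0))) (n 42 (n 40 (d 1) (n 41 (u 0) (u 0))) (n 43 (u 0) (u 0))))) (n 53 (n
    49 (n 47 (n 46 (n 45 (u 0) (u 1)) (u 0)) (n 48 (u 0) (u 0))) (n 51 (n 50 (u 0) (u 1)) (n 52 (u
    0) (u 0)))) (n 55 (n 54 (u 1) (u 2)) (n 56 (u 2) (u 1))))) (n 63 (n 61 (n 59 (n 58 (u 1) (u
    2)) (n 60 (u 2) (u 2))) (u 2)) (u 3))))),
  (39, (n 28 (n 4 (d 2) (n 13 (n 8 (n 6 (n 5 (d 2) (d 2)) (n 7 (d 1) (d 1))) (n 10 (n 9 (d 2) (d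
    1)) (n 11 (d 2) (n 12 (u 0) (u 0))))) (n 21 (n 17 (n 15 (n 14 (d 1) (d 1)) (n 16 (u 0) (u 0)))
    (n 19 (n 18 (u 0) (u 0)) (n 20 (u 0) (u 0)))) (n 25 (n 23 (n 22 (u 0) (u 0)) (n 24 (u 0) (u
    0))) (n 27 (n 26 (u 1) (u 0)) (u 1)))))) (n 53 (n 37 (n 32 (n 30 (n 29 (u 1) (u 1)) (n 31 (u
    0) (u 0))) (n 34 (n 33 (u 0) (u 0)) (n 35 (d 1) (n 36 (d 1) (d 1))))) (n 45 (n 41 (n 39 (n 38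
    (u 0) (d 1)) (n 40 (u 0) (u 0))) (n 43 (n 42 (u 0) (u 0)) (n 44 (u 0) (u 0)))) (n 49 (n 47 (n
    46 (u 0) (u 0)) (n 48 (u 0) (u 0))) (n 51 (n 50 (u 1) (u 1)) (n 52 (u 0) (u 0)))))) (n 62 (n
    57 (n 55 (n 54 (u 2) (u 1)) (n 56 (u 2) (u 1))) (n 59 (n 58 (u 1) (u 2)) (n 61 (n 60 (u 2) (u
    2)) (u 3)))) (u 2))))),
  (18, (n 29 (n 4 (d 2) (n 14 (n 8 (n 6 (n 5 (d 2) (d 1)) (n 7 (d 1) (d 1))) (n 10 (n 9 (d 2) (d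
    1)) (n 12 (n 11 (d 2) (u 0)) (n 13 (u 0) (u 0))))) (n 23 (n 19 (n 17 (n 16 (n 15 (u 0) (u 0))
    (u 0)) (n 18 (u 0) (d 1))) (n 21 (n 20 (u 0) (u 1)) (n 22 (u 0) (u 0)))) (n 27 (n 25 (n 24 (u
    0) (u 1)) (n 26 (u 1) (u 1))) (n 28 (u 1) (u 1)))))) (n 55 (n 39 (n 33 (n 31 (n 30 (u 1) (u
    0)) (n 32 (u 0) (u 0))) (n 35 (n 34 (u 0) (d 1)) (n 36 (d 1) (n 37 (d 1) (n 38 (d 1) (d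
    1)))))) (n 49 (n 44 (n 41 (n 40 (d 1) (u 0)) (n 42 (u 0) (n 43 (u 0) (d 1)))) (n 47 (n 46 (n
    45 (u 0) (u 1)) (u 0)) (n 48 (u 0) (u 0)))) (n 53 (n 51 (n 50 (u 0) (u 0)) (n 52 (u 0) (u 0)))
    (n 54 (u 2) (u 1))))) (n 63 (n 60 (n 57 (n 56 (u 2) (u 1)) (n 59 (n 58 (u 1) (u 1)) (u 2))) (u
    2)) (u 3))))),
  (49, (n 31 (n 6 (d 2) (n 17 (n 10 (n 8 (n 7 (d 1) (d 1)) (n 9 (d 1) (d 2))) (n 13 (n 11 (d 1) (n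
    12 (d 1) (u 0))) (n 15 (n 14 (d 1) (d 1)) (n 16 (u 0) (u 0))))) (n 26 (n 22 (n 20 (n 18 (u 0)
    (n 19 (u 0) (u 0))) (n 21 (u 0) (u 0))) (n 24 (n 23 (u 0) (u 0)) (n 25 (u 1) (u 0)))) (n 29 (n
    28 (n 27 (u 0) (u 1)) (u 1)) (n 30 (u 1) (u 0)))))) (n 57 (n 43 (n 35 (n 33 (n 32 (u 0) (u 0))
    (n 34 (u 0) (d 1))) (n 38 (n 36 (d 1) (n 37 (d 1) (u 0))) (n 40 (n 39 (u 0) (d 1)) (n 41 (u 0)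
    (n 42 (u 0) (u 0)))))) (n 52 (n 47 (n 45 (n 44 (u 0) (u 0)) (n 46 (u 0) (u 0))) (n 50 (n 48 (u
    0) (n 49 (u 0) (u 1))) (n 51 (u 1) (u 0)))) (n 55 (n 54 (n 53 (u 1) (u 1)) (u 2)) (n 56 (u 1)
    (u 1))))) (n 63 (n 61 (n 59 (n 58 (u 1) (u 1)) (n 60 (u 1) (u 2))) (u 2)) (u 3))))),
  (340, (n 31 (n 6 (d 2) (n 18 (n 10 (n 8 (n 7 (d 1) (d 1)) (n 9 (d 1) (d 1))) (n 13 (n 11 (d 1)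
    (n 12 (u 0) (u 0))) (n 15 (n 14 (d 1) (u 0)) (n 16 (u 0) (n 17 (u 0) (u 0)))))) (n 26 (n 22 (n
    20 (n 19 (u 0) (u 0)) (n 21 (u 0) (u 0))) (n 24 (n 23 (u 0) (u 0)) (n 25 (u 0) (u 1)))) (n 29
    (n 28 (n 27 (u 1) (u 1)) (u 1)) (n 30 (u 1) (u 0)))))) (n 57 (n 43 (n 35 (n 33 (n 32 (u 0) (u
    0)) (n 34 (u 0) (d 1))) (n 38 (n 36 (d 1) (n 37 (d 1) (d 1))) (n 40 (n 39 (d 1) (u 0)) (n 41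
    (u 0) (n 42 (u 0) (u 0)))))) (n 52 (n 47 (n 45 (n 44 (u 0) (u 0)) (n 46 (u 0) (u 0))) (n 50 (n
    49 (n 48 (u 0) (u 0)) (u 0)) (n 51 (u 1) (u 0)))) (n 55 (n 54 (n 53 (u 0) (u 1)) (u 1)) (n 56
    (u 1) (u 1))))) (n 63 (n 61 (n 59 (n 58 (u 1) (u 1)) (n 60 (u 2) (u 2))) (u 2)) (u 3))))),
  (137, (n 30 (n 5 (d 2) (n 16 (n 9 (n 7 (n 6 (d 1) (d 1)) (n 8 (d 1) (d 1))) (n 11 (n 10 (d 1) (d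
    2)) (n 13 (n 12 (d 1) (u 0)) (n 14 (u 0) (n 15 (u 0) (u 0)))))) (n 25 (n 20 (n 18 (n 17 (u 0)
    (u 0)) (n 19 (u 0) (u 0))) (n 23 (n 22 (n 21 (u 0) (u 0)) (u 0)) (n 24 (u 0) (u 0)))) (n 28 (n
    27 (n 26 (u 0) (u 0)) (u 1)) (n 29 (u 1) (u 1)))))) (n 55 (n 40 (n 34 (n 32 (n 31 (u 0) (u 0))
    (n 33 (u 0) (u 0))) (n 36 (n 35 (d 1) (d 1)) (n 38 (n 37 (d 1) (u 0)) (n 39 (u 0) (u 0))))) (n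
    49 (n 45 (n 42 (n 41 (u 0) (u 0)) (n 43 (u 0) (n 44 (u 0) (u 0)))) (n 47 (n 46 (u 0) (u 0)) (n
    48 (u 0) (u 0)))) (n 53 (n 51 (n 50 (u 0) (u 0)) (n 52 (u 0) (u 1))) (n 54 (u 2) (u 1))))) (n
    63 (n 60 (n 57 (n 56 (u 1) (u 1)) (n 59 (n 58 (u 1) (u 1)) (u 2))) (n 62 (n 61 (u 2) (u 3)) (u
    3))) (u 3))))),
  (163, (n 35 (n 9 (n 1 (d 3) (n 4 (d 2) (n 7 (n 5 (d 2) (n 6 (d 1) (d 1))) (n 8 (d 1) (d 1)))))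
    (n 24 (n 15 (n 11 (n 10 (d 2) (d 2)) (n 13 (n 12 (u 0) (u 0)) (n 14 (d 1) (u 0)))) (n 19 (n 17
    (n 16 (u 0) (u 0)) (n 18 (u 0) (d 1))) (n 22 (n 21 (n 20 (u 0) (u 0)) (u 0)) (n 23 (u 0) (u
    0))))) (n 30 (n 28 (n 26 (n 25 (u 1) (u 0)) (n 27 (u 1) (u 1))) (n 29 (u 1) (u 1))) (n 33 (n
    31 (u 0) (n 32 (u 0) (u 0))) (n 34 (u 0) (d 1)))))) (n 60 (n 50 (n 41 (n 37 (n 36 (d 1) (d 1))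
    (n 39 (n 38 (d 1) (u 0)) (n 40 (d 1) (u 0)))) (n 45 (n 43 (n 42 (u 0) (u 0)) (n 44 (u 0) (u
    0))) (n 47 (n 46 (u 1) (u 0)) (n 48 (u 0) (n 49 (u 0) (u 0)))))) (n 56 (n 54 (n 53 (n 52 (n 51
    (u 1) (u 0)) (u 0)) (u 2)) (n 55 (u 2) (u 1))) (n 58 (n 57 (u 1) (u 1)) (n 59 (u 1) (u 2)))))
    (u 2)))),
  (75, (n 30 (n 5 (d 2) (n 16 (n 9 (n 7 (n 6 (d 2) (d 1)) (n 8 (d 1) (d 1))) (n 11 (n 10 (d 1) (d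
    1)) (n 13 (n 12 (u 0) (u 0)) (n 14 (d 1) (n 15 (u 0) (u 0)))))) (n 25 (n 20 (n 18 (n 17 (u 0)
    (u 0)) (n 19 (d 1) (u 0))) (n 23 (n 22 (n 21 (u 0) (u 0)) (u 0)) (n 24 (u 1) (u 1)))) (n 28 (n
    27 (n 26 (u 0) (u 1)) (u 1)) (n 29 (u 1) (u 1)))))) (n 56 (n 42 (n 34 (n 32 (n 31 (u 0) (u 0))
    (n 33 (u 0) (u 0))) (n 37 (n 35 (d 1) (n 36 (d 1) (d 1))) (n 39 (n 38 (d 1) (u 0)) (n 40 (d 1)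
    (n 41 (d 1) (u 0)))))) (n 51 (n 47 (n 44 (n 43 (u 0) (u 0)) (n 46 (n 45 (u 0) (u 1)) (u 0)))
    (n 49 (n 48 (u 0) (u 0)) (n 50 (u 0) (u 1)))) (n 54 (n 53 (n 52 (u 0) (u 0)) (u 1)) (n 55 (u
    1) (u 1))))) (n 63 (n 60 (n 58 (n 57 (u 1) (u 1)) (n 59 (u 2) (u 1))) (u 2)) (u 3))))),
  (42, (n 31 (n 6 (d 2) (n 18 (n 10 (n 8 (n 7 (d 1) (d 1)) (n 9 (d 1) (d 1))) (n 13 (n 11 (d 1) (n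
    12 (d 1) (u 0))) (n 15 (n 14 (u 0) (d 1)) (n 16 (u 0) (n 17 (u 0) (u 0)))))) (n 27 (n 23 (n 21
    (n 20 (n 19 (d 1) (u 0)) (u 0)) (n 22 (u 0) (u 0))) (n 25 (n 24 (u 0) (u 1)) (n 26 (u 0) (u
    1)))) (n 29 (n 28 (u 1) (u 1)) (n 30 (u 0) (u 0)))))) (n 56 (n 42 (n 35 (n 33 (n 32 (u 0) (u
    0)) (n 34 (u 0) (u 0))) (n 38 (n 36 (d 1) (n 37 (d 1) (d 1))) (n 40 (n 39 (u 0) (d 1)) (n 41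
    (u 0) (u 0))))) (n 51 (n 47 (n 45 (n 43 (u 0) (n 44 (u 0) (u 0))) (n 46 (u 1) (u 0))) (n 49 (n
    48 (u 0) (u 0)) (n 50 (u 1) (u 0)))) (n 54 (n 53 (n 52 (u 0) (u 1)) (u 1)) (n 55 (u 1) (u
    1))))) (n 63 (n 60 (n 58 (n 57 (u 1) (u 1)) (n 59 (u 2) (u 2))) (u 2)) (u 3))))),
  (177, (n 33 (n 7 (n 1 (d 3) (n 3 (d 2) (n 5 (n 4 (d 2) (d 2)) (n 6 (d 2) (d 1))))) (n 21 (n 12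
    (n 9 (n 8 (d 1) (d 1)) (n 10 (d 1) (n 11 (d 1) (d 1)))) (n 16 (n 14 (n 13 (u 0) (d 1)) (n 15
    (u 0) (d 1))) (n 18 (n 17 (u 0) (u 0)) (n 20 (n 19 (d 1) (u 0)) (u 0))))) (n 29 (n 26 (n 24 (n
    23 (n 22 (u 0) (u 1)) (u 0)) (n 25 (u 1) (u 0))) (n 28 (n 27 (u 0) (u 1)) (u 1))) (n 31 (n 30
    (u 0) (u 0)) (n 32 (u 0) (u 0)))))) (n 58 (n 46 (n 38 (n 35 (n 34 (u 0) (u 0)) (n 36 (d 1) (n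
    37 (d 1) (u 0)))) (n 42 (n 40 (n 39 (u 0) (d 1)) (n 41 (u 0) (d 1))) (n 44 (n 43 (u 0) (u 0))
    (n 45 (u 0) (u 1))))) (n 54 (n 51 (n 49 (n 48 (n 47 (u 0) (u 0)) (u 1)) (n 50 (u 0) (u 1))) (n
    53 (n 52 (u 0) (u 1)) (u 1))) (n 56 (n 55 (u 1) (u 1)) (n 57 (u 1) (u 1))))) (u 2)))),
  (36, (n 36 (n 10 (n 2 (d 2) (n 6 (n 4 (n 3 (d 3) (d 2)) (n 5 (d 1) (d 2))) (n 8 (n 7 (d 1) (d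
    1)) (n 9 (d 2) (d 2))))) (n 26 (n 17 (n 13 (n 11 (d 1) (n 12 (d 1) (u 0))) (n 15 (n 14 (d 1)
    (u 0)) (n 16 (u 0) (u 0)))) (n 22 (n 19 (n 18 (u 0) (u 0)) (n 21 (n 20 (u 0) (u 0)) (u 0))) (n
    24 (n 23 (u 1) (u 0)) (n 25 (u 1) (u 0))))) (n 31 (n 29 (n 28 (n 27 (u 1) (u 1)) (u 1)) (n 30
    (u 1) (u 0))) (n 33 (n 32 (u 0) (u 0)) (n 34 (u 0) (n 35 (d 1) (d 1))))))) (n 61 (n 52 (n 43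
    (n 39 (n 37 (d 1) (n 38 (d 1) (u 0))) (n 41 (n 40 (d 1) (u 0)) (n 42 (d 1) (u 0)))) (n 48 (n
    45 (n 44 (u 0) (u 0)) (n 47 (n 46 (u 0) (u 0)) (u 0))) (n 50 (n 49 (u 0) (u 0)) (n 51 (u 1) (u
    0))))) (n 57 (n 55 (n 54 (n 53 (u 1) (u 1)) (u 2)) (n 56 (u 2) (u 1))) (n 59 (n 58 (u 1) (u
    2)) (n 60 (u 1) (u 2))))) (u 2)))),
  (4, (n 33 (n 8 (n 1 (d 3) (n 4 (d 2) (n 6 (n 5 (d 2) (d 1)) (n 7 (d 1) (d 2))))) (n 22 (n 13 (n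
    10 (n 9 (d 2) (d 1)) (n 11 (d 1) (n 12 (d 1) (u 0)))) (n 17 (n 15 (n 14 (d 1) (u 0)) (n 16 (u
    0) (u 0))) (n 19 (n 18 (u 0) (d 1)) (n 21 (n 20 (u 0) (u 0)) (u 0))))) (n 29 (n 26 (n 24 (n 23
    (u 0) (u 0)) (n 25 (u 1) (u 0))) (n 28 (n 27 (u 1) (u 1)) (u 1))) (n 31 (n 30 (u 1) (u 0)) (n
    32 (u 0) (u 0)))))) (n 58 (n 47 (n 38 (n 35 (n 34 (u 0) (d 1)) (n 36 (d 1) (n 37 (d 1) (d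
    1)))) (n 42 (n 40 (n 39 (u 0) (d 1)) (n 41 (u 0) (u 0))) (n 45 (n 43 (u 0) (n 44 (u 0) (u 0)))
    (n 46 (u 1) (u 0))))) (n 54 (n 51 (n 49 (n 48 (u 0) (u 0)) (n 50 (u 0) (u 1))) (n 53 (n 52 (u
    0) (u 1)) (u 1))) (n 56 (n 55 (u 1) (u 2)) (n 57 (u 2) (u 1))))) (u 2)))),
  (133, (n 35 (n 9 (n 1 (d 3) (n 4 (d 2) (n 7 (n 5 (d 2) (n 6 (d 2) (d 1))) (n 8 (d 1) (d 1)))))
    (n 25 (n 15 (n 11 (n 10 (d 2) (d 1)) (n 13 (n 12 (d 1) (u 0)) (n 14 (u 0) (u 0)))) (n 20 (n 17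
    (n 16 (u 0) (u 0)) (n 18 (u 0) (n 19 (u 0) (u 0)))) (n 23 (n 22 (n 21 (u 0) (u 0)) (u 0)) (n
    24 (u 0) (u 1))))) (n 31 (n 29 (n 28 (n 27 (n 26 (u 0) (u 0)) (u 1)) (u 1)) (n 30 (u 0) (u
    1))) (n 33 (n 32 (u 0) (u 0)) (n 34 (d 1) (u 0)))))) (n 60 (n 50 (n 41 (n 37 (n 36 (d 1) (d
    1)) (n 39 (n 38 (u 0) (u 0)) (n 40 (d 1) (u 0)))) (n 45 (n 43 (n 42 (u 0) (u 0)) (n 44 (u 0)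
    (u 0))) (n 47 (n 46 (u 0) (u 0)) (n 49 (n 48 (u 0) (u 0)) (u 0))))) (n 56 (n 54 (n 53 (n 52 (n
    51 (u 0) (u 0)) (u 1)) (u 1)) (n 55 (u 2) (u 1))) (n 58 (n 57 (u 1) (u 1)) (n 59 (u 2) (u
    2))))) (u 2)))),
  (71, (n 30 (n 5 (d 2) (n 16 (n 9 (n 7 (n 6 (d 1) (d 1)) (n 8 (d 1) (d 1))) (n 11 (n 10 (d 1) (d
    1)) (n 13 (n 12 (d 1) (u 0)) (n 14 (d 1) (n 15 (u 0) (u 0)))))) (n 25 (n 20 (n 18 (n 17 (u 0)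
    (u 0)) (n 19 (u 0) (u 0))) (n 23 (n 22 (n 21 (u 1) (u 0)) (u 1)) (n 24 (u 0) (u 0)))) (n 28 (n
    27 (n 26 (u 0) (u 1)) (u 1)) (n 29 (u 1) (u 1)))))) (n 56 (n 42 (n 34 (n 32 (n 31 (u 0) (u 0))
    (n 33 (u 0) (u 0))) (n 37 (n 35 (d 1) (n 36 (d 1) (d 1))) (n 39 (n 38 (d 1) (u 0)) (n 40 (u 0)
    (n 41 (u 0) (d 1)))))) (n 51 (n 47 (n 45 (n 43 (u 0) (n 44 (d 1) (u 0))) (n 46 (u 0) (u 0)))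
    (n 49 (n 48 (u 0) (u 0)) (n 50 (u 0) (u 1)))) (n 54 (n 53 (n 52 (u 0) (u 1)) (u 1)) (n 55 (u
    1) (u 1))))) (n 63 (n 60 (n 58 (n 57 (u 1) (u 1)) (n 59 (u 1) (u 2))) (u 2)) (u 3))))),
  (46, (n 29 (n 4 (d 2) (n 14 (n 8 (n 6 (n 5 (d 2) (d 1)) (n 7 (d 1) (d 1))) (n 10 (n 9 (d 2) (d
    1)) (n 12 (n 11 (d 1) (d 1)) (n 13 (u 0) (d 1))))) (n 23 (n 19 (n 16 (n 15 (u 0) (u 0)) (n 17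
    (u 0) (n 18 (u 0) (d 1)))) (n 21 (n 20 (u 0) (u 0)) (n 22 (u 0) (u 0)))) (n 27 (n 25 (n 24 (u
    0) (u 1)) (n 26 (u 0) (u 1))) (n 28 (u 1) (u 1)))))) (n 55 (n 40 (n 34 (n 31 (n 30 (u 1) (u
    0)) (n 32 (u 0) (n 33 (u 0) (u 0)))) (n 36 (n 35 (d 1) (d 1)) (n 38 (n 37 (d 1) (d 1)) (n 39
    (u 0) (d 1))))) (n 49 (n 45 (n 42 (n 41 (u 0) (u 0)) (n 43 (u 0) (n 44 (u 0) (u 0)))) (n 47 (n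
    46 (u 1) (u 0)) (n 48 (u 0) (u 0)))) (n 53 (n 51 (n 50 (u 0) (u 1)) (n 52 (u 0) (u 1))) (n 54
    (u 1) (u 1))))) (n 63 (n 60 (n 57 (n 56 (u 2) (u 1)) (n 59 (n 58 (u 1) (u 1)) (u 2))) (u 2))
    (u 3))))),
  (69, (n 33 (n 7 (n 1 (d 3) (n 3 (d 2) (n 5 (n 4 (d 2) (d 2)) (n 6 (d 1) (d 1))))) (n 21 (n 12 (n
    9 (n 8 (d 1) (d 1)) (n 10 (d 1) (n 11 (d 2) (d 1)))) (n 16 (n 14 (n 13 (u 0) (u 0)) (n 15 (u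
    0) (u 0))) (n 19 (n 17 (u 0) (n 18 (u 0) (d 1))) (n 20 (u 0) (u 0))))) (n 29 (n 26 (n 24 (n 23
    (n 22 (u 0) (u 0)) (u 0)) (n 25 (u 0) (u 0))) (n 28 (n 27 (u 0) (u 1)) (u 1))) (n 31 (n 30 (u
    0) (u 0)) (n 32 (u 0) (u 0)))))) (n 58 (n 47 (n 38 (n 35 (n 34 (u 0) (u 0)) (n 36 (d 1) (n 37
    (d 1) (u 0)))) (n 42 (n 40 (n 39 (u 0) (u 0)) (n 41 (u 0) (u 0))) (n 45 (n 43 (u 0) (n 44 (u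
    0) (u 0))) (n 46 (u 1) (u 0))))) (n 54 (n 51 (n 49 (n 48 (u 0) (u 0)) (n 50 (u 0) (u 0))) (n
    53 (n 52 (u 0) (u 1)) (u 2))) (n 56 (n 55 (u 1) (u 1)) (n 57 (u 1) (u 1))))) (u 2)))),
  (25, (n 32 (n 7 (n 1 (d 3) (n 3 (d 2) (n 5 (n 4 (d 2) (d 2)) (n 6 (d 2) (d 1))))) (n 20 (n 11 (n
    9 (n 8 (d 2) (d 1)) (n 10 (d 1) (d 2))) (n 15 (n 13 (n 12 (d 1) (u 0)) (n 14 (d 1) (d 1))) (n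
    17 (n 16 (u 0) (u 0)) (n 18 (u 0) (n 19 (d 1) (u 0)))))) (n 28 (n 25 (n 23 (n 22 (n 21 (u 0)
    (u 1)) (u 1)) (n 24 (u 0) (u 1))) (n 27 (n 26 (u 0) (u 0)) (u 1))) (n 30 (n 29 (u 1) (u 1)) (n
    31 (u 0) (u 0)))))) (n 57 (n 44 (n 36 (n 34 (n 33 (u 0) (u 0)) (n 35 (d 1) (d 1))) (n 39 (n 37
    (d 1) (n 38 (u 0) (u 0))) (n 41 (n 40 (d 1) (u 0)) (n 42 (d 1) (n 43 (d 1) (u 0)))))) (n 53 (n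
    49 (n 47 (n 46 (n 45 (u 0) (u 1)) (u 0)) (n 48 (u 0) (u 0))) (n 51 (n 50 (u 1) (u 1)) (n 52 (u
    0) (u 1)))) (n 55 (n 54 (u 2) (u 1)) (n 56 (u 1) (u 2))))) (n 63 (n 61 (n 59 (n 58 (u 1) (u
    2)) (n 60 (u 2) (u 2))) (u 2)) (u 3))))),
  (152, (n 31 (n 6 (d 2) (n 18 (n 10 (n 8 (n 7 (d 1) (d 1)) (n 9 (d 1) (d 1))) (n 13 (n 11 (d 2)
    (n 12 (d 1) (u 0))) (n 15 (n 14 (d 1) (d 1)) (n 16 (u 0) (n 17 (u 0) (u 0)))))) (n 27 (n 23 (n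
    21 (n 20 (n 19 (d 1) (u 0)) (u 0)) (n 22 (u 0) (u 0))) (n 25 (n 24 (u 0) (u 1)) (n 26 (u 1) (u
    0)))) (n 29 (n 28 (u 0) (u 1)) (n 30 (u 1) (u 0)))))) (n 57 (n 43 (n 35 (n 33 (n 32 (u 0) (u
    0)) (n 34 (u 0) (d 1))) (n 38 (n 36 (d 1) (n 37 (u 0) (u 0))) (n 40 (n 39 (d 1) (d 1)) (n 41
    (u 0) (n 42 (u 0) (u 0)))))) (n 52 (n 48 (n 45 (n 44 (u 0) (u 0)) (n 47 (n 46 (u 1) (u 0)) (u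
    0))) (n 50 (n 49 (u 0) (u 1)) (n 51 (u 1) (u 0)))) (n 55 (n 54 (n 53 (u 1) (u 2)) (u 1)) (n 56
    (u 1) (u 1))))) (n 63 (n 61 (n 59 (n 58 (u 1) (u 1)) (n 60 (u 2) (u 2))) (u 2)) (u 3))))),
  (102, (n 29 (n 4 (d 2) (n 14 (n 8 (n 6 (n 5 (d 1) (d 2)) (n 7 (d 1) (d 1))) (n 10 (n 9 (d 1) (d
    1)) (n 11 (d 1) (n 12 (u 0) (n 13 (u 0) (d 1)))))) (n 23 (n 19 (n 16 (n 15 (u 0) (u 0)) (n 17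
    (u 0) (n 18 (u 0) (u 0)))) (n 21 (n 20 (u 0) (u 0)) (n 22 (u 0) (u 0)))) (n 27 (n 25 (n 24 (u
    0) (u 1)) (n 26 (u 1) (u 1))) (n 28 (u 1) (u 1)))))) (n 55 (n 39 (n 33 (n 31 (n 30 (u 1) (u
    0)) (n 32 (u 0) (u 0))) (n 35 (n 34 (u 0) (d 1)) (n 36 (d 1) (n 37 (d 1) (n 38 (d 1) (d
    1)))))) (n 49 (n 44 (n 41 (n 40 (d 1) (u 0)) (n 42 (u 0) (n 43 (u 0) (u 0)))) (n 47 (n 46 (n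
    45 (u 0) (u 0)) (u 0)) (n 48 (u 0) (u 0)))) (n 53 (n 51 (n 50 (u 0) (u 1)) (n 52 (u 0) (u 0)))
    (n 54 (u 1) (u 1))))) (n 63 (n 60 (n 57 (n 56 (u 1) (u 1)) (n 59 (n 58 (u 1) (u 2)) (u 1))) (u
    2)) (u 3))))),
  (186, (n 34 (n 8 (n 1 (d 3) (n 4 (d 2) (n 6 (n 5 (d 2) (d 1)) (n 7 (d 1) (d 1))))) (n 22 (n 13
    (n 10 (n 9 (d 1) (d 1)) (n 11 (d 1) (n 12 (d 1) (u 0)))) (n 17 (n 15 (n 14 (u 0) (u 0)) (n 16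
    (u 0) (u 0))) (n 19 (n 18 (u 0) (u 0)) (n 21 (n 20 (u 0) (u 0)) (u 0))))) (n 30 (n 27 (n 25 (n
    24 (n 23 (u 0) (u 0)) (u 1)) (n 26 (u 0) (u 0))) (n 29 (n 28 (u 1) (u 1)) (u 1))) (n 32 (n 31
    (u 0) (u 0)) (n 33 (u 0) (u 0)))))) (n 59 (n 48 (n 39 (n 36 (n 35 (d 1) (d 1)) (n 37 (d 1) (n
    38 (u 0) (u 0)))) (n 44 (n 42 (n 40 (d 1) (n 41 (u 0) (u 0))) (n 43 (u 0) (u 0))) (n 46 (n 45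
    (u 0) (u 0)) (n 47 (u 0) (u 0))))) (n 55 (n 52 (n 50 (n 49 (u 0) (u 0)) (n 51 (u 0) (u 0))) (n
    54 (n 53 (u 1) (u 1)) (u 1))) (n 57 (n 56 (u 1) (u 1)) (n 58 (u 1) (u 1))))) (u 2)))),
  (165, (n 28 (n 3 (d 2) (n 13 (n 8 (n 6 (n 4 (d 2) (n 5 (d 1) (d 2))) (n 7 (d 1) (d 1))) (n 10 (n
    9 (d 1) (d 1)) (n 11 (d 2) (n 12 (d 1) (u 0))))) (n 21 (n 17 (n 15 (n 14 (d 1) (u 0)) (n 16 (u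
    0) (u 0))) (n 19 (n 18 (u 0) (d 1)) (n 20 (u 0) (u 0)))) (n 25 (n 23 (n 22 (u 0) (u 0)) (n 24
    (u 0) (u 1))) (n 27 (n 26 (u 0) (u 0)) (u 1)))))) (n 54 (n 38 (n 33 (n 31 (n 30 (n 29 (u 1) (u
    1)) (u 0)) (n 32 (u 0) (u 0))) (n 35 (n 34 (u 0) (d 1)) (n 36 (d 1) (n 37 (d 1) (u 0))))) (n
    47 (n 42 (n 40 (n 39 (u 0) (d 1)) (n 41 (u 0) (u 0))) (n 44 (n 43 (u 0) (u 0)) (n 46 (n 45 (u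
    0) (u 1)) (u 0)))) (n 51 (n 49 (n 48 (u 0) (u 0)) (n 50 (u 0) (u 1))) (n 53 (n 52 (u 0) (u 1))
    (u 2))))) (n 62 (n 58 (n 56 (n 55 (u 1) (u 1)) (n 57 (u 1) (u 1))) (n 60 (n 59 (u 2) (u 1)) (n
    61 (u 2) (u 3)))) (u 2))))),
  (212, (n 36 (n 10 (n 1 (d 3) (n 5 (n 2 (d 3) (n 4 (n 3 (d 3) (d 2)) (d 2))) (n 7 (n 6 (d 1) (d
    1)) (n 8 (d 1) (n 9 (d 1) (d 1)))))) (n 26 (n 17 (n 13 (n 11 (d 1) (n 12 (d 1) (u 0))) (n 15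
    (n 14 (u 0) (d 1)) (n 16 (u 0) (u 0)))) (n 22 (n 20 (n 18 (u 0) (n 19 (d 1) (u 0))) (n 21 (u
    0) (u 0))) (n 24 (n 23 (u 0) (u 0)) (n 25 (u 1) (u 1))))) (n 31 (n 29 (n 28 (n 27 (u 1) (u 1))
    (u 1)) (n 30 (u 1) (u 1))) (n 33 (n 32 (u 0) (u 0)) (n 34 (d 1) (n 35 (d 1) (d 1))))))) (n 61
    (n 52 (n 43 (n 39 (n 37 (d 1) (n 38 (d 1) (d 1))) (n 41 (n 40 (d 1) (u 0)) (n 42 (u 0) (u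
    0)))) (n 48 (n 46 (n 44 (u 0) (n 45 (u 0) (u 1))) (n 47 (u 0) (u 0))) (n 50 (n 49 (u 0) (u 1))
    (n 51 (u 0) (u 0))))) (n 57 (n 55 (n 54 (n 53 (u 1) (u 1)) (u 1)) (n 56 (u 1) (u 1))) (n 59 (n
    58 (u 1) (u 1)) (n 60 (u 2) (u 2))))) (u 2)))),
  (149, (n 30 (n 5 (d 2) (n 16 (n 9 (n 7 (n 6 (d 2) (d 1)) (n 8 (d 2) (d 1))) (n 11 (n 10 (d 1) (d
    2)) (n 13 (n 12 (d 1) (u 0)) (n 14 (d 1) (n 15 (u 0) (u 0)))))) (n 25 (n 20 (n 18 (n 17 (u 0)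
    (u 0)) (n 19 (u 0) (u 0))) (n 23 (n 22 (n 21 (u 0) (u 0)) (u 0)) (n 24 (u 0) (u 1)))) (n 28 (n
    27 (n 26 (u 1) (u 1)) (u 1)) (n 29 (u 1) (u 0)))))) (n 56 (n 41 (n 34 (n 32 (n 31 (u 0) (u 0))
    (n 33 (u 0) (u 0))) (n 36 (n 35 (u 0) (d 1)) (n 38 (n 37 (d 1) (d 1)) (n 39 (d 1) (n 40 (d 1)
    (u 0)))))) (n 51 (n 46 (n 43 (n 42 (u 0) (u 0)) (n 44 (u 0) (n 45 (u 0) (u 0)))) (n 49 (n 48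
    (n 47 (u 0) (u 0)) (u 0)) (n 50 (u 0) (u 1)))) (n 54 (n 53 (n 52 (u 0) (u 1)) (u 2)) (n 55 (u
    1) (u 1))))) (n 63 (n 60 (n 58 (n 57 (u 2) (u 1)) (n 59 (u 2) (u 1))) (u 2)) (u 3))))),
  (336, (n 32 (n 6 (d 2) (n 18 (n 10 (n 8 (n 7 (d 1) (d 1)) (n 9 (d 1) (d 1))) (n 13 (n 11 (d 2)
    (n 12 (d 1) (u 0))) (n 15 (n 14 (d 1) (u 0)) (n 16 (u 0) (n 17 (u 0) (u 0)))))) (n 27 (n 23 (n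
    21 (n 20 (n 19 (u 0) (u 0)) (u 0)) (n 22 (u 0) (u 0))) (n 25 (n 24 (u 0) (u 1)) (n 26 (u 0) (u
    1)))) (n 30 (n 29 (n 28 (u 1) (u 1)) (u 0)) (n 31 (u 0) (u 0)))))) (n 58 (n 46 (n 37 (n 34 (n
    33 (u 0) (u 0)) (n 35 (u 0) (n 36 (d 1) (d 1)))) (n 41 (n 39 (n 38 (d 1) (u 0)) (n 40 (d 1) (u
    0))) (n 43 (n 42 (u 0) (u 0)) (n 44 (u 0) (n 45 (u 0) (u 0)))))) (n 54 (n 51 (n 49 (n 48 (n 47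
    (u 0) (u 0)) (u 0)) (n 50 (u 0) (u 1))) (n 53 (n 52 (u 0) (u 1)) (u 2))) (n 56 (n 55 (u 1) (u
    1)) (n 57 (u 1) (u 1))))) (u 2)))),
  (206, (n 30 (n 5 (d 2) (n 16 (n 9 (n 7 (n 6 (d 2) (d 1)) (n 8 (d 1) (d 1))) (n 12 (n 10 (d 1) (n
    11 (d 1) (u 0))) (n 14 (n 13 (u 0) (d 1)) (n 15 (u 0) (u 0))))) (n 25 (n 20 (n 18 (n 17 (u 0)
    (u 0)) (n 19 (d 1) (u 0))) (n 23 (n 22 (n 21 (u 0) (u 0)) (u 1)) (n 24 (u 0) (u 1)))) (n 28 (n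
    27 (n 26 (u 0) (u 1)) (u 1)) (n 29 (u 1) (u 1)))))) (n 55 (n 40 (n 34 (n 32 (n 31 (u 0) (u 0))
    (n 33 (u 0) (u 0))) (n 36 (n 35 (d 1) (d 1)) (n 38 (n 37 (d 1) (d 1)) (n 39 (u 0) (d 1))))) (n
    49 (n 45 (n 42 (n 41 (u 0) (d 1)) (n 43 (u 0) (n 44 (u 0) (u 0)))) (n 47 (n 46 (u 1) (u 0)) (n
    48 (u 0) (u 0)))) (n 53 (n 51 (n 50 (u 0) (u 1)) (n 52 (u 0) (u 0))) (n 54 (u 1) (u 1))))) (n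
    63 (n 60 (n 57 (n 56 (u 1) (u 1)) (n 59 (n 58 (u 1) (u 2)) (u 2))) (u 2)) (u 3))))),
  (4, (n 29 (n 4 (d 2) (n 14 (n 8 (n 6 (n 5 (d 1) (d 2)) (n 7 (d 1) (d 1))) (n 10 (n 9 (d 1) (d
    2)) (n 12 (n 11 (d 2) (d 1)) (n 13 (u 0) (u 0))))) (n 23 (n 19 (n 17 (n 15 (u 0) (n 16 (u 0)
    (u 0))) (n 18 (u 0) (d 1))) (n 21 (n 20 (u 0) (u 0)) (n 22 (u 0) (u 0)))) (n 27 (n 25 (n 24 (u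
    0) (u 0)) (n 26 (u 1) (u 1))) (n 28 (u 0) (u 1)))))) (n 55 (n 40 (n 34 (n 31 (n 30 (u 1) (u
    0)) (n 32 (u 0) (n 33 (u 0) (u 0)))) (n 36 (n 35 (d 1) (d 1)) (n 38 (n 37 (u 0) (d 1)) (n 39
    (d 1) (u 0))))) (n 49 (n 45 (n 42 (n 41 (u 0) (u 0)) (n 43 (u 0) (n 44 (u 0) (u 0)))) (n 47 (n
    46 (u 1) (u 0)) (n 48 (u 0) (u 0)))) (n 53 (n 51 (n 50 (u 0) (u 0)) (n 52 (u 0) (u 1))) (n 54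
    (u 2) (u 2))))) (n 63 (n 60 (n 57 (n 56 (u 1) (u 1)) (n 59 (n 58 (u 1) (u 2)) (u 1))) (u 2))
    (u 3))))),
  (127, (n 36 (n 10 (n 2 (d 2) (n 6 (n 4 (n 3 (d 3) (d 2)) (n 5 (d 2) (d 1))) (n 8 (n 7 (d 1) (d
    1)) (n 9 (d 1) (d 2))))) (n 26 (n 17 (n 13 (n 11 (d 1) (d 1)) (n 15 (n 14 (u 0) (u 0)) (n 16
    (u 0) (u 0)))) (n 22 (n 20 (n 18 (u 0) (n 19 (d 1) (u 0))) (n 21 (u 0) (u 0))) (n 24 (n 23 (u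
    0) (u 0)) (n 25 (u 0) (u 1))))) (n 31 (n 29 (n 28 (n 27 (u 0) (u 1)) (u 1)) (n 30 (u 1) (u
    0))) (n 34 (n 32 (u 0) (n 33 (u 0) (u 0))) (n 35 (d 1) (d 1)))))) (n 60 (n 51 (n 43 (n 39 (n
    37 (d 1) (n 38 (u 0) (d 1))) (n 41 (n 40 (u 0) (u 0)) (n 42 (u 0) (u 0)))) (n 47 (n 45 (n 44
    (u 0) (u 0)) (n 46 (u 1) (u 0))) (n 49 (n 48 (u 0) (u 0)) (n 50 (u 0) (u 0))))) (n 56 (n 54 (n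
    53 (u 1) (u 1)) (n 55 (u 2) (u 1))) (n 58 (n 57 (u 1) (u 1)) (n 59 (u 1) (u 2))))) (u 2)))),
  (227, (n 35 (n 9 (n 1 (d 3) (n 5 (n 2 (d 3) (n 3 (d 3) (n 4 (d 2) (d 2)))) (n 7 (n 6 (d 2) (d
    1)) (n 8 (d 1) (d 1))))) (n 24 (n 15 (n 11 (n 10 (d 1) (d 1)) (n 13 (n 12 (d 1) (u 0)) (n 14
    (u 0) (u 0)))) (n 19 (n 17 (n 16 (u 0) (u 0)) (n 18 (u 0) (d 1))) (n 22 (n 21 (n 20 (u 0) (u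
    0)) (u 0)) (n 23 (u 0) (u 0))))) (n 30 (n 28 (n 26 (n 25 (u 0) (u 0)) (n 27 (u 1) (u 1))) (n
    29 (u 1) (u 1))) (n 33 (n 32 (n 31 (u 0) (u 0)) (u 0)) (n 34 (u 0) (d 1)))))) (n 60 (n 50 (n
    41 (n 37 (n 36 (d 1) (d 1)) (n 39 (n 38 (d 1) (u 0)) (n 40 (u 0) (u 0)))) (n 45 (n 43 (n 42 (u
    0) (u 0)) (n 44 (u 0) (u 0))) (n 47 (n 46 (u 1) (u 0)) (n 49 (n 48 (u 0) (u 0)) (u 0))))) (n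
    56 (n 54 (n 53 (n 52 (n 51 (u 0) (u 0)) (u 1)) (u 1)) (n 55 (u 1) (u 1))) (n 58 (n 57 (u 1) (u
    1)) (n 59 (u 2) (u 2))))) (u 2)))),
  (301, (n 30 (n 5 (d 2) (n 16 (n 9 (n 7 (n 6 (d 1) (d 1)) (n 8 (d 1) (d 2))) (n 11 (n 10 (d 1) (d
    1)) (n 13 (n 12 (d 1) (u 0)) (n 14 (d 1) (n 15 (u 0) (u 0)))))) (n 25 (n 20 (n 18 (n 17 (d 1)
    (u 0)) (n 19 (d 1) (u 0))) (n 23 (n 22 (n 21 (u 0) (u 0)) (u 1)) (n 24 (u 0) (u 1)))) (n 28 (n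
    27 (n 26 (u 1) (u 0)) (u 1)) (n 29 (u 1) (u 1)))))) (n 56 (n 42 (n 34 (n 32 (n 31 (u 0) (u 0))
    (n 33 (u 0) (u 0))) (n 37 (n 35 (d 1) (n 36 (d 1) (d 1))) (n 39 (n 38 (u 0) (d 1)) (n 40 (d 1)
    (n 41 (u 0) (d 1)))))) (n 51 (n 47 (n 44 (n 43 (u 0) (u 0)) (n 46 (n 45 (u 0) (u 1)) (u 0)))
    (n 49 (n 48 (u 1) (u 0)) (n 50 (u 0) (u 1)))) (n 54 (n 53 (n 52 (u 0) (u 1)) (u 1)) (n 55 (u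
    1) (u 2))))) (n 63 (n 60 (n 58 (n 57 (u 1) (u 1)) (n 59 (u 1) (u 1))) (u 2)) (u 3))))),
  (32, (n 32 (n 7 (n 1 (d 3) (n 3 (d 2) (n 5 (n 4 (d 2) (d 2)) (n 6 (d 1) (d 1))))) (n 20 (n 12 (n
    9 (n 8 (d 1) (d 2)) (n 10 (d 2) (n 11 (d 1) (d 1)))) (n 16 (n 14 (n 13 (u 0) (d 1)) (n 15 (d
    1) (d 1))) (n 18 (n 17 (u 0) (u 0)) (n 19 (u 0) (u 0))))) (n 28 (n 25 (n 23 (n 22 (n 21 (u 0)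
    (u 0)) (u 0)) (n 24 (u 0) (u 0))) (n 27 (n 26 (u 0) (u 0)) (u 0))) (n 30 (n 29 (u 1) (u 1)) (n
    31 (u 0) (u 0)))))) (n 57 (n 44 (n 36 (n 34 (n 33 (u 0) (u 0)) (n 35 (d 1) (d 1))) (n 39 (n 37
    (u 0) (n 38 (u 0) (u 0))) (n 41 (n 40 (u 0) (u 0)) (n 42 (u 0) (n 43 (u 0) (u 0)))))) (n 52 (n
    48 (n 46 (n 45 (u 0) (u 0)) (n 47 (u 0) (u 0))) (n 50 (n 49 (u 1) (u 1)) (n 51 (u 1) (u 0))))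
    (n 55 (n 54 (n 53 (u 1) (u 1)) (u 2)) (n 56 (u 2) (u 1))))) (n 63 (n 61 (n 59 (n 58 (u 1) (u
    1)) (n 60 (u 2) (u 2))) (u 2)) (u 3))))),
  (12, (n 34 (n 8 (n 1 (d 3) (n 4 (d 2) (n 6 (n 5 (d 1) (d 1)) (n 7 (d 1) (d 1))))) (n 23 (n 13 (n
    10 (n 9 (d 1) (d 1)) (n 11 (d 1) (n 12 (u 0) (u 0)))) (n 18 (n 15 (n 14 (d 1) (d 1)) (n 16 (u
    0) (n 17 (u 0) (u 0)))) (n 21 (n 20 (n 19 (d 1) (u 0)) (u 0)) (n 22 (u 1) (u 0))))) (n 30 (n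
    28 (n 26 (n 25 (n 24 (u 0) (u 0)) (u 0)) (n 27 (u 0) (u 0))) (n 29 (u 1) (u 1))) (n 32 (n 31
    (u 0) (u 0)) (n 33 (u 0) (u 0)))))) (n 59 (n 48 (n 39 (n 36 (n 35 (d 1) (d 1)) (n 37 (u 0) (n
    38 (u 0) (u 0)))) (n 44 (n 41 (n 40 (u 0) (u 0)) (n 42 (u 0) (n 43 (d 1) (u 0)))) (n 46 (n 45
    (u 0) (u 1)) (n 47 (u 0) (u 0))))) (n 55 (n 53 (n 51 (n 50 (n 49 (u 0) (u 1)) (u 1)) (n 52 (u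
    0) (u 0))) (n 54 (u 1) (u 1))) (n 57 (n 56 (u 1) (u 1)) (n 58 (u 1) (u 1))))) (u 2)))),
  (12, (n 29 (n 4 (d 2) (n 14 (n 8 (n 6 (n 5 (d 2) (d 1)) (n 7 (d 1) (d 1))) (n 10 (n 9 (d 1) (d
    2)) (n 11 (d 2) (n 12 (u 0) (n 13 (u 0) (d 1)))))) (n 23 (n 19 (n 17 (n 16 (n 15 (d 1) (d 1))
    (u 0)) (n 18 (u 0) (d 1))) (n 21 (n 20 (u 0) (u 0)) (n 22 (u 0) (u 1)))) (n 27 (n 25 (n 24 (u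
    0) (u 0)) (n 26 (u 0) (u 1))) (n 28 (u 1) (u 1)))))) (n 55 (n 39 (n 33 (n 31 (n 30 (u 1) (u
    0)) (n 32 (u 0) (u 0))) (n 35 (n 34 (u 0) (d 1)) (n 36 (d 1) (n 37 (d 1) (n 38 (d 1) (u
    0)))))) (n 49 (n 44 (n 41 (n 40 (u 0) (u 0)) (n 42 (d 1) (n 43 (u 0) (u 0)))) (n 47 (n 46 (n
    45 (u 0) (u 1)) (u 0)) (n 48 (u 0) (u 1)))) (n 53 (n 51 (n 50 (u 1) (u 1)) (u 1)) (n 54 (u 2)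
    (u 2))))) (n 63 (n 60 (n 57 (n 56 (u 1) (u 1)) (n 59 (n 58 (u 1) (u 1)) (u 2))) (n 62 (n 61 (u
    2) (u 2)) (u 3))) (u 3))))),
  (109, (n 29 (n 4 (d 2) (n 14 (n 8 (n 6 (n 5 (d 2) (d 2)) (n 7 (d 1) (d 2))) (n 10 (n 9 (d 1) (d
    1)) (n 12 (n 11 (d 1) (d 1)) (n 13 (u 0) (d 1))))) (n 23 (n 19 (n 17 (n 16 (n 15 (d 1) (u 0))
    (u 0)) (n 18 (u 0) (d 1))) (n 21 (n 20 (u 0) (u 0)) (n 22 (u 0) (u 0)))) (n 27 (n 25 (n 24 (u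
    0) (u 0)) (n 26 (u 0) (u 0))) (n 28 (u 1) (u 1)))))) (n 55 (n 39 (n 33 (n 31 (n 30 (u 1) (u
    0)) (n 32 (u 0) (u 0))) (n 35 (n 34 (u 0) (d 1)) (n 36 (d 1) (n 37 (d 1) (n 38 (u 0) (u
    0)))))) (n 49 (n 44 (n 41 (n 40 (u 0) (u 0)) (n 42 (u 0) (n 43 (u 0) (u 0)))) (n 47 (n 46 (n
    45 (u 0) (u 1)) (u 0)) (n 48 (u 0) (u 0)))) (n 53 (n 51 (n 50 (u 1) (u 1)) (u 1)) (n 54 (u 1)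
    (u 1))))) (n 63 (n 60 (n 57 (n 56 (u 1) (u 2)) (n 59 (n 58 (u 1) (u 2)) (u 2))) (u 2)) (u
    3))))),
  (42, (n 32 (n 7 (n 1 (d 3) (n 3 (d 2) (n 5 (n 4 (d 2) (d 2)) (n 6 (d 1) (d 1))))) (n 20 (n 11 (n
    9 (n 8 (d 1) (d 1)) (n 10 (d 2) (d 2))) (n 15 (n 13 (n 12 (u 0) (u 0)) (n 14 (d 1) (u 0))) (n
    17 (n 16 (d 1) (u 0)) (n 18 (u 0) (n 19 (u 0) (u 0)))))) (n 28 (n 25 (n 23 (n 22 (n 21 (u 0)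
    (u 0)) (u 1)) (n 24 (u 0) (u 0))) (n 27 (n 26 (u 0) (u 1)) (u 1))) (n 30 (n 29 (u 1) (u 1)) (n
    31 (u 1) (u 0)))))) (n 57 (n 44 (n 36 (n 34 (n 33 (u 0) (d 1)) (n 35 (d 1) (d 1))) (n 39 (n 37
    (d 1) (n 38 (d 1) (u 0))) (n 41 (n 40 (u 0) (u 0)) (n 42 (d 1) (n 43 (u 0) (u 0)))))) (n 53 (n
    49 (n 47 (n 46 (n 45 (u 0) (u 0)) (u 0)) (n 48 (u 0) (u 1))) (n 51 (n 50 (u 0) (u 1)) (n 52 (u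
    0) (u 0)))) (n 55 (n 54 (u 2) (u 2)) (n 56 (u 1) (u 1))))) (n 63 (n 61 (n 59 (n 58 (u 1) (u
    1)) (n 60 (u 2) (u 2))) (u 2)) (u 3))))),
  (100, (n 30 (n 5 (d 2) (n 16 (n 9 (n 7 (n 6 (d 2) (d 1)) (n 8 (d 1) (d 1))) (n 11 (n 10 (d 1) (d
    2)) (n 13 (d 1) (n 14 (d 1) (n 15 (u 0) (u 0)))))) (n 25 (n 20 (n 18 (n 17 (u 0) (u 0)) (n 19
    (u 0) (u 0))) (n 23 (n 22 (n 21 (u 0) (u 0)) (u 1)) (n 24 (u 0) (u 1)))) (n 28 (n 27 (n 26 (u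
    0) (u 1)) (u 1)) (n 29 (u 1) (u 1)))))) (n 56 (n 42 (n 35 (n 33 (n 32 (n 31 (u 0) (u 0)) (u
    0)) (n 34 (u 0) (d 1))) (n 38 (n 36 (d 1) (n 37 (d 1) (d 1))) (n 40 (n 39 (u 0) (d 1)) (n 41
    (u 0) (d 1))))) (n 51 (n 47 (n 45 (n 43 (u 0) (n 44 (u 0) (u 0))) (n 46 (u 0) (u 0))) (n 49 (n
    48 (u 0) (u 0)) (n 50 (u 0) (u 1)))) (n 54 (n 53 (u 1) (u 2)) (n 55 (u 1) (u 1))))) (n 63 (n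
    60 (n 58 (n 57 (u 1) (u 1)) (n 59 (u 2) (u 2))) (u 2)) (u 3))))),
  (33, (n 29 (n 4 (d 2) (n 14 (n 8 (n 6 (n 5 (d 1) (d 1)) (n 7 (d 1) (d 1))) (n 10 (n 9 (d 1) (d
    1)) (n 12 (n 11 (d 1) (u 0)) (n 13 (u 0) (d 1))))) (n 23 (n 19 (n 17 (n 15 (u 0) (n 16 (u 0)
    (u 0))) (n 18 (u 0) (u 0))) (n 21 (n 20 (u 0) (u 0)) (n 22 (u 0) (u 0)))) (n 27 (n 25 (n 24 (u
    0) (u 1)) (n 26 (u 0) (u 0))) (n 28 (u 1) (u 1)))))) (n 54 (n 38 (n 33 (n 31 (n 30 (u 1) (u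
    0)) (n 32 (u 0) (u 0))) (n 35 (n 34 (u 0) (d 1)) (n 36 (d 1) (n 37 (d 1) (u 0))))) (n 47 (n 42
    (n 40 (n 39 (u 0) (d 1)) (n 41 (u 0) (u 0))) (n 44 (n 43 (u 0) (u 0)) (n 46 (n 45 (u 0) (u 0))
    (u 0)))) (n 51 (n 49 (n 48 (u 0) (u 0)) (n 50 (u 0) (u 1))) (n 53 (u 1) (u 1))))) (n 63 (n 59
    (n 57 (n 56 (n 55 (u 1) (u 1)) (u 1)) (n 58 (u 1) (u 1))) (n 62 (n 61 (n 60 (u 1) (u 2)) (u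
    3)) (u 3))) (u 3))))),
  (46, (n 29 (n 4 (d 2) (n 14 (n 8 (n 6 (n 5 (d 2) (d 2)) (n 7 (d 1) (d 1))) (n 10 (n 9 (d 1) (d
    2)) (n 12 (n 11 (d 1) (d 1)) (n 13 (u 0) (d 1))))) (n 23 (n 19 (n 17 (n 15 (u 0) (n 16 (u 0)
    (u 0))) (n 18 (u 0) (u 0))) (n 21 (n 20 (u 0) (u 0)) (n 22 (u 0) (u 0)))) (n 27 (n 25 (n 24 (u
    0) (u 1)) (n 26 (u 0) (u 1))) (n 28 (u 1) (u 1)))))) (n 55 (n 39 (n 33 (n 31 (n 30 (u 1) (u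
    0)) (n 32 (u 0) (u 0))) (n 35 (n 34 (u 0) (d 1)) (n 37 (n 36 (d 1) (d 1)) (n 38 (d 1) (u
    0))))) (n 49 (n 44 (n 41 (n 40 (d 1) (u 0)) (n 42 (u 0) (n 43 (u 0) (u 0)))) (n 47 (n 46 (n 45
    (u 0) (u 0)) (u 0)) (n 48 (u 0) (u 0)))) (n 53 (n 51 (n 50 (u 0) (u 1)) (n 52 (u 0) (u 1))) (n
    54 (u 1) (u 2))))) (n 63 (n 60 (n 57 (n 56 (u 1) (u 1)) (n 59 (n 58 (u 1) (u 2)) (u 2))) (u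
    2)) (u 3))))),
  (23, (n 34 (n 8 (n 1 (d 3) (n 4 (n 2 (d 3) (n 3 (d 3) (d 2))) (n 6 (n 5 (d 2) (d 2)) (n 7 (d 1)
    (d 1))))) (n 22 (n 13 (n 10 (n 9 (d 1) (d 2)) (n 11 (d 1) (n 12 (u 0) (u 0)))) (n 17 (n 15 (n
    14 (u 0) (u 0)) (n 16 (d 1) (u 0))) (n 20 (n 18 (u 0) (n 19 (d 1) (u 0))) (n 21 (u 0) (u
    0))))) (n 30 (n 27 (n 25 (n 24 (n 23 (u 0) (u 0)) (u 1)) (n 26 (u 0) (u 1))) (n 29 (n 28 (u 0)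
    (u 1)) (u 1))) (n 32 (n 31 (u 0) (u 0)) (n 33 (u 0) (u 0)))))) (n 59 (n 48 (n 39 (n 36 (n 35
    (d 1) (d 1)) (n 37 (u 0) (n 38 (d 1) (u 0)))) (n 44 (n 41 (n 40 (d 1) (u 0)) (n 42 (u 0) (n 43
    (u 0) (u 0)))) (n 46 (n 45 (u 0) (u 1)) (n 47 (u 0) (u 0))))) (n 55 (n 53 (n 51 (n 50 (n 49 (u
    1) (u 0)) (u 0)) (n 52 (u 0) (u 0))) (n 54 (u 1) (u 2))) (n 57 (n 56 (u 1) (u 1)) (n 58 (u 1)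
    (u 2))))) (u 2)))),
  (139, (n 33 (n 7 (n 1 (d 3) (n 3 (d 2) (n 5 (n 4 (d 2) (d 2)) (n 6 (d 1) (d 1))))) (n 21 (n 12
    (n 9 (n 8 (d 1) (d 1)) (n 10 (d 1) (n 11 (d 1) (u 0)))) (n 16 (n 14 (n 13 (u 0) (d 1)) (n 15
    (u 0) (u 0))) (n 18 (n 17 (u 0) (u 0)) (n 20 (n 19 (u 0) (u 0)) (u 0))))) (n 29 (n 26 (n 24 (n
    23 (n 22 (u 0) (u 0)) (u 0)) (n 25 (u 0) (u 0))) (n 28 (n 27 (u 1) (u 0)) (u 1))) (n 31 (n 30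
    (u 1) (u 0)) (n 32 (u 0) (u 0)))))) (n 58 (n 46 (n 37 (n 35 (n 34 (u 0) (d 1)) (n 36 (d 1) (u
    0))) (n 41 (n 39 (n 38 (d 1) (u 0)) (n 40 (u 0) (u 0))) (n 43 (n 42 (u 0) (u 0)) (n 44 (u 0)
    (n 45 (u 0) (u 0)))))) (n 54 (n 51 (n 49 (n 48 (n 47 (u 0) (u 0)) (u 0)) (n 50 (u 0) (u 1)))
    (n 53 (n 52 (u 0) (u 0)) (u 1))) (n 56 (n 55 (u 1) (u 1)) (n 57 (u 1) (u 1))))) (u 2)))),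
  (17, (n 28 (n 3 (d 2) (n 12 (n 7 (n 5 (n 4 (d 2) (d 2)) (n 6 (d 1) (d 1))) (n 9 (n 8 (d 1) (d
    1)) (n 10 (d 1) (n 11 (d 2) (u 0))))) (n 21 (n 16 (n 14 (n 13 (u 0) (u 0)) (n 15 (u 0) (u 0)))
    (n 18 (n 17 (u 0) (u 0)) (n 20 (n 19 (d 1) (u 0)) (u 0)))) (n 25 (n 23 (n 22 (u 0) (u 1)) (n
    24 (u 0) (u 1))) (n 27 (n 26 (u 0) (u 1)) (u 1)))))) (n 53 (n 37 (n 32 (n 30 (n 29 (u 1) (u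
    1)) (n 31 (u 0) (u 0))) (n 34 (n 33 (u 0) (u 0)) (n 35 (d 1) (n 36 (d 1) (d 1))))) (n 45 (n 41
    (n 39 (n 38 (d 1) (u 0)) (n 40 (d 1) (u 0))) (n 43 (n 42 (d 1) (u 0)) (n 44 (u 0) (u 0)))) (n
    49 (n 47 (n 46 (u 1) (u 0)) (n 48 (u 0) (u 0))) (n 51 (n 50 (u 0) (u 0)) (u 1))))) (n 62 (n 57
    (n 55 (n 54 (u 2) (u 1)) (n 56 (u 1) (u 1))) (n 59 (n 58 (u 1) (u 1)) (n 61 (n 60 (u 2) (u 2))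
    (u 3)))) (u 2))))),
  (11, (n 32 (n 7 (n 1 (d 3) (n 3 (d 2) (n 5 (n 4 (d 2) (d 2)) (n 6 (d 1) (d 1))))) (n 20 (n 11 (n
    9 (n 8 (d 1) (d 1)) (n 10 (d 1) (d 1))) (n 15 (n 13 (d 1) (n 14 (u 0) (d 1))) (n 17 (n 16 (u
    0) (u 0)) (n 18 (u 0) (n 19 (u 0) (u 0)))))) (n 28 (n 25 (n 23 (n 22 (n 21 (u 0) (u 0)) (u 0))
    (n 24 (u 0) (u 1))) (n 27 (n 26 (u 1) (u 0)) (u 0))) (n 30 (n 29 (u 1) (u 1)) (n 31 (u 0) (u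
    0)))))) (n 57 (n 44 (n 36 (n 34 (n 33 (u 0) (u 0)) (n 35 (d 1) (d 1))) (n 39 (n 37 (u 0) (n 38
    (u 0) (d 1))) (n 41 (n 40 (d 1) (u 0)) (n 42 (u 0) (n 43 (u 0) (u 0)))))) (n 53 (n 49 (n 47 (n
    46 (n 45 (u 0) (u 0)) (u 0)) (n 48 (u 0) (u 0))) (n 51 (n 50 (u 1) (u 0)) (u 1))) (n 55 (n 54
    (u 1) (u 1)) (n 56 (u 1) (u 1))))) (n 63 (n 61 (n 59 (n 58 (u 1) (u 1)) (n 60 (u 2) (u 2))) (u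
    2)) (u 3))))),
  (20, (n 34 (n 8 (n 1 (d 3) (n 4 (n 2 (d 3) (n 3 (d 2) (d 2))) (n 6 (n 5 (d 1) (d 1)) (n 7 (d 1)
    (d 1))))) (n 23 (n 13 (n 10 (n 9 (d 1) (d 1)) (n 11 (d 1) (n 12 (u 0) (u 0)))) (n 18 (n 15 (n
    14 (u 0) (u 0)) (n 16 (u 0) (n 17 (u 0) (u 0)))) (n 21 (n 20 (n 19 (d 1) (u 0)) (u 0)) (n 22
    (u 0) (u 0))))) (n 30 (n 28 (n 26 (n 25 (n 24 (u 0) (u 1)) (u 1)) (n 27 (u 0) (u 1))) (n 29 (u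
    1) (u 1))) (n 32 (n 31 (u 1) (u 0)) (n 33 (u 0) (d 1)))))) (n 59 (n 48 (n 39 (n 36 (n 35 (d 1)
    (d 1)) (n 37 (d 1) (n 38 (u 0) (d 1)))) (n 44 (n 41 (n 40 (d 1) (u 0)) (n 42 (u 0) (n 43 (u 0)
    (u 0)))) (n 46 (n 45 (u 0) (u 1)) (n 47 (u 0) (u 0))))) (n 55 (n 53 (n 51 (n 50 (n 49 (u 0) (u
    0)) (u 0)) (n 52 (u 0) (u 0))) (n 54 (u 1) (u 1))) (n 57 (n 56 (u 1) (u 1)) (n 58 (u 1) (u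
    1))))) (u 2)))),
  (69, (n 30 (n 5 (d 2) (n 16 (n 9 (n 7 (n 6 (d 2) (d 1)) (n 8 (d 1) (d 1))) (n 12 (n 10 (d 1) (n
    11 (d 1) (d 1))) (n 14 (n 13 (u 0) (u 0)) (n 15 (u 0) (d 1))))) (n 25 (n 20 (n 18 (n 17 (u 0)
    (u 0)) (n 19 (u 0) (u 0))) (n 23 (n 22 (n 21 (u 0) (u 0)) (u 0)) (n 24 (u 0) (u 1)))) (n 28 (n
    27 (n 26 (u 0) (u 0)) (u 1)) (n 29 (u 1) (u 1)))))) (n 56 (n 41 (n 34 (n 32 (n 31 (u 1) (u 0))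
    (n 33 (u 0) (d 1))) (n 36 (n 35 (d 1) (d 1)) (n 38 (n 37 (d 1) (u 0)) (n 39 (u 0) (n 40 (d 1)
    (u 0)))))) (n 51 (n 46 (n 43 (n 42 (u 0) (u 0)) (n 44 (u 0) (n 45 (u 0) (u 0)))) (n 49 (n 48
    (n 47 (u 0) (u 0)) (u 1)) (n 50 (u 0) (u 0)))) (n 54 (n 53 (n 52 (u 0) (u 1)) (u 1)) (n 55 (u
    1) (u 1))))) (n 63 (n 60 (n 58 (n 57 (u 1) (u 1)) (n 59 (u 2) (u 2))) (u 2)) (u 3))))),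
  (118, (n 34 (n 8 (n 1 (d 3) (n 4 (d 2) (n 6 (n 5 (d 2) (d 1)) (n 7 (d 1) (d 1))))) (n 23 (n 13
    (n 10 (n 9 (d 1) (d 1)) (n 11 (d 1) (n 12 (d 1) (u 0)))) (n 18 (n 15 (n 14 (d 1) (d 1)) (n 16
    (u 0) (n 17 (u 0) (u 0)))) (n 21 (n 20 (n 19 (d 1) (u 0)) (u 0)) (n 22 (u 0) (u 0))))) (n 30
    (n 28 (n 26 (n 25 (n 24 (u 0) (u 1)) (u 0)) (n 27 (u 1) (u 0))) (n 29 (u 1) (u 1))) (n 32 (n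
    31 (u 0) (u 0)) (n 33 (u 0) (u 0)))))) (n 59 (n 48 (n 39 (n 36 (n 35 (d 1) (d 1)) (n 37 (u 0)
    (n 38 (d 1) (u 0)))) (n 44 (n 41 (n 40 (d 1) (u 0)) (n 42 (u 0) (n 43 (u 0) (u 0)))) (n 46 (n
    45 (u 0) (u 1)) (n 47 (u 0) (u 0))))) (n 55 (n 53 (n 51 (n 50 (n 49 (u 0) (u 1)) (u 1)) (n 52
    (u 0) (u 1))) (n 54 (u 1) (u 1))) (n 57 (n 56 (u 1) (u 1)) (n 58 (u 1) (u 1))))) (u 2)))),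
  (70, (n 35 (n 9 (n 1 (d 3) (n 4 (d 2) (n 7 (n 5 (d 1) (n 6 (d 2) (d 1))) (n 8 (d 1) (d 2))))) (n
    24 (n 15 (n 11 (n 10 (d 2) (d 1)) (n 13 (d 1) (n 14 (u 0) (u 0)))) (n 19 (n 17 (n 16 (u 0) (u
    0)) (n 18 (u 0) (u 0))) (n 22 (n 21 (n 20 (u 0) (u 0)) (u 0)) (n 23 (u 0) (u 0))))) (n 30 (n
    28 (n 26 (n 25 (u 1) (u 0)) (n 27 (u 1) (u 1))) (n 29 (u 1) (u 1))) (n 33 (n 32 (n 31 (u 0) (u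
    0)) (u 0)) (n 34 (u 0) (d 1)))))) (n 60 (n 50 (n 41 (n 37 (n 36 (d 1) (d 1)) (n 39 (n 38 (d 1)
    (u 0)) (n 40 (d 1) (u 0)))) (n 45 (n 43 (n 42 (u 0) (u 0)) (n 44 (u 0) (u 0))) (n 47 (n 46 (u
    0) (u 0)) (n 48 (u 0) (n 49 (u 0) (u 0)))))) (n 56 (n 54 (n 53 (n 52 (n 51 (u 0) (u 0)) (u 0))
    (u 1)) (n 55 (u 2) (u 2))) (n 58 (n 57 (u 1) (u 1)) (n 59 (u 2) (u 1))))) (u 2)))),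
  (24, (n 35 (n 9 (n 1 (d 3) (n 4 (d 2) (n 7 (n 5 (d 2) (n 6 (d 1) (d 1))) (n 8 (d 1) (d 1))))) (n
    24 (n 15 (n 11 (n 10 (d 1) (d 1)) (n 13 (n 12 (u 0) (u 0)) (n 14 (d 1) (d 1)))) (n 19 (n 17 (n
    16 (d 1) (u 0)) (n 18 (u 0) (u 0))) (n 22 (n 21 (n 20 (u 0) (u 0)) (u 1)) (n 23 (u 1) (u
    0))))) (n 30 (n 28 (n 26 (n 25 (u 1) (u 1)) (n 27 (u 1) (u 1))) (n 29 (u 1) (u 1))) (n 33 (n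
    32 (n 31 (u 0) (u 0)) (u 0)) (n 34 (u 0) (d 1)))))) (n 60 (n 50 (n 41 (n 37 (n 36 (d 1) (d 1))
    (n 39 (n 38 (d 1) (d 1)) (n 40 (d 1) (u 0)))) (n 45 (n 43 (n 42 (d 1) (d 1)) (n 44 (u 0) (u
    0))) (n 47 (n 46 (u 0) (u 0)) (n 49 (n 48 (u 0) (u 1)) (u 1))))) (n 56 (n 54 (n 52 (n 51 (u 1)
    (u 0)) (n 53 (u 0) (u 1))) (n 55 (u 1) (u 1))) (n 58 (n 57 (u 1) (u 1)) (n 59 (u 1) (u 2)))))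
    (u 2)))),
  (29, (n 32 (n 7 (n 1 (d 3) (n 3 (d 2) (n 5 (n 4 (d 2) (d 2)) (n 6 (d 1) (d 1))))) (n 20 (n 12 (n
    9 (n 8 (d 1) (d 1)) (n 10 (d 1) (n 11 (d 1) (u 0)))) (n 16 (n 14 (n 13 (u 0) (u 0)) (n 15 (u
    0) (u 0))) (n 18 (n 17 (u 0) (u 0)) (n 19 (u 0) (u 0))))) (n 28 (n 25 (n 23 (n 22 (n 21 (u 0)
    (u 0)) (u 0)) (n 24 (u 0) (u 1))) (n 27 (n 26 (u 0) (u 1)) (u 1))) (n 30 (n 29 (u 1) (u 1)) (n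
    31 (u 1) (u 0)))))) (n 57 (n 44 (n 36 (n 34 (n 33 (u 0) (d 1)) (n 35 (d 1) (d 1))) (n 39 (n 37
    (d 1) (n 38 (d 1) (u 0))) (n 41 (n 40 (d 1) (u 0)) (n 42 (u 0) (n 43 (u 0) (u 0)))))) (n 52 (n
    48 (n 46 (n 45 (u 0) (u 0)) (n 47 (u 0) (u 0))) (n 50 (n 49 (u 0) (u 0)) (n 51 (u 0) (u 0))))
    (n 55 (n 54 (n 53 (u 0) (u 1)) (u 1)) (n 56 (u 1) (u 1))))) (n 63 (n 61 (n 59 (n 58 (u 1) (u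
    1)) (n 60 (u 2) (u 2))) (u 2)) (u 3)))))]

/-- The whole mixture: the trees of `baseMix` and their mirror images. -/
def mix : List (ℕ × GTree) := baseMix ++ baseMix.map fun p => (p.1, p.2.mirror 64)

set_option maxRecDepth 100000 in
theorem mixCheck_eq : mixCheck 64 10000 39340800000 mix = true := by decide +kernel

end Pool.Agent.HighLow
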