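import Mathlib

/-!
# The continuous high-low game: definitions

The hider picks `h` in `[0,1]`; the searcher makes guesses, each answered by `too low` (coded as
`true`) or `too high` (coded as `false`), and play stops at a guess equal to `h`.  The payoff is the
sum of the distances of the guesses made to `h`.
-/

namespace Pool.Agent.HighLow

open scoped ENNReal

/-- A deterministic guessing rule.  It says which guess to make after a given list of answers,
the oldest answer first.  The answer `true` means that the guess was too low, and `false` that it
was too high. -/
abbrev Rule : Type := List Bool → ℝ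

/-- The answers to the first `n` guesses (numbered `0, 1, ..., n - 1`), the oldest first, when the
rule `s` is played against the hidden point `h` (for as long as `h` has not been guessed). -/
noncomputable def answers (s : Rule) (h : ℝ) : ℕ → List Bool
  | 0 => []
  | n + 1 => answers s h n ++ [decide (s (answers s h n) < h)]

/-- Guess number `n` (counted from `0`) of the rule `s` against the hidden point `h`. -/
noncomputable def guess (s : Rule) (h : ℝ) (n : ℕ) : ℝ := s (answers s h n)

open Classical in
/-- The payoff `P(h)`: the sum of `|g_n - h|` over all guesses made.  Guess number `n` is made if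
and only if no earlier guess was equal to `h`. -/
noncomputable def payoff (s : Rule) (h : ℝ) : ℝ≥0∞ :=
  ∑' n : ℕ, if ∀ m < n, guess s h m ≠ h then ENNReal.ofReal |guess s h n - h| else 0

/-- A pure searcher strategy: a guessing rule all of whose guesses lie in `[0,1]`. -/
def PureStrategy : Type := {s : Rule // ∀ w, s w ∈ Set.Icc (0 : ℝ) 1}

/-- The expected payoff at `h` of the (discrete) mixed strategy `σ`. -/
noncomputable def expectedPayoff (σ : PMF PureStrategy) (h : ℝ) : ℝ≥0∞ :=
  ∑' s : PureStrategy, σ s * payoff s.1 h

/-- The guaranteed cost of a mixed strategy: the supremum over `h` in `[0,1]` of the expected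
payoff. -/
noncomputable def guaranteedCost (σ : PMF PureStrategy) : ℝ≥0∞ :=
  ⨆ h ∈ Set.Icc (0 : ℝ) 1, expectedPayoff σ h

/-- In state `p = (k, a, b)`, that is, in state `k` and with current interval `[a,b]`, the
strategy with parameters `lam` guesses `lam k * a + (1 - lam k) * b`. -/
noncomputable def alpernGuess (lam : ℤ → ℝ) (p : ℤ × ℝ × ℝ) : ℝ :=
  lam p.1 * p.2.1 + (1 - lam p.1) * p.2.2

/-- How `(k, a, b)` changes with the answer to the guess of that state: after `too low` the state
grows by one and the guess becomes the new left end; after `too high` the state drops by one and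
the guess becomes the new right end. -/
noncomputable def alpernStep (lam : ℤ → ℝ) (p : ℤ × ℝ × ℝ) : Bool → ℤ × ℝ × ℝ
  | true => (p.1 + 1, alpernGuess lam p, p.2.2)
  | false => (p.1 - 1, p.2.1, alpernGuess lam p)

/-- The rule with parameters `lam` started from `(k, a, b) = p`. -/
noncomputable def alpernFrom (lam : ℤ → ℝ) (p : ℤ × ℝ × ℝ) : Rule := fun w =>
  alpernGuess lam (w.foldl (alpernStep lam) p)

/-- Alpern's rule with parameters `lam`: start in state `0` with the interval `[0,1]`. -/
noncomputable def alpernRule (lam : ℤ → ℝ) : Rule := alpernFrom lam (0, 0, 1)

/-- `lam` is a family of numbers of `(0,1)` whose rule has the same payoff `v` at every point of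
`[0,1]` outside the (countable) set of all its guesses. -/
def IsAlpernFamily (lam : ℤ → ℝ) (v : ℝ≥0∞) : Prop :=
  (∀ k, lam k ∈ Set.Ioo (0 : ℝ) 1) ∧
    ∀ h ∈ Set.Icc (0 : ℝ) 1, h ∉ Set.range (alpernRule lam) → payoff (alpernRule lam) h = v

end Pool.Agent.HighLow
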