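import Mathlib

/-!
# The recursion behind Alpern's strategy

Positive solutions `e` of `e (j+1) * (j + 2 + e (j+2) + e j) = e j * (1 + e (j+2))`.
They are strictly decreasing, decay geometrically, and are determined by `e 0`; together with
`1 + e 1 = 2 * e 0` there is exactly one.
-/

namespace Pool.Agent.HighLow

/-- The recursion, with positivity. -/
def Rec (e : ℕ → ℝ) : Prop :=
  (∀ j, 0 < e j) ∧ ∀ j : ℕ, e (j + 1) * (j + 2 + e (j + 2) + e j) = e j * (1 + e (j + 2))

namespace Rec

variable {e f : ℕ → ℝ}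

theorem lt_prev (he : Rec e) (j : ℕ) : e (j + 1) < e j := by
  have h0 := he.1 j
  have h1 := he.1 (j + 1)
  have h2 := he.1 (j + 2)
  have hr := he.2 j
  have hj : (0 : ℝ) ≤ j := Nat.cast_nonneg j
  by_contra hcon
  push Not at hcon
  have : e j * (j + 2 + e (j + 2) + e j) ≤ e (j + 1) * (j + 2 + e (j + 2) + e j) := by
    apply mul_le_mul_of_nonneg_right hcon
    positivity
  rw [hr] at this
  have h3 : j + 2 + e (j + 2) + e j ≤ 1 + e (j + 2) := le_of_mul_le_mul_left this h0
  linarith

theorem le_half (he : Rec e) (j : ℕ) : e (j + 1) ≤ e j / 2 := by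
  have h0 := he.1 j
  have h1 := he.1 (j + 1)
  have h2 := he.1 (j + 2)
  have hr := he.2 j
  have hlt := he.lt_prev (j + 1)
  have hj : (0 : ℝ) ≤ j := Nat.cast_nonneg j
  have h3 : e (j + 1) * (j + 2 + e (j + 2)) = e j * (1 + e (j + 2) - e (j + 1)) := by linarith
  have h4 : e (j + 1) * 2 ≤ e (j + 1) * (j + 2 + e (j + 2)) := by
    apply mul_le_mul_of_nonneg_left _ h1.le
    linarith
  have h5 : e j * (1 + e (j + 2) - e (j + 1)) ≤ e j * 1 := by
    apply mul_le_mul_of_nonneg_left _ h0.le
    have : e (j + 2) < e (j + 1) := hlt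
    linarith
  linarith

theorem le_pow (he : Rec e) (j : ℕ) : e j ≤ e 0 * (1 / 2) ^ j := by
  induction j with
  | zero => simp
  | succ j ih =>
    have := he.le_half j
    rw [pow_succ]
    linarith

theorem tendsto_zero (he : Rec e) (d : ℝ) (hd : 0 < d) : ∃ j, e (j + 1) < d := by
  have h0 := he.1 0
  obtain ⟨n, hn⟩ := exists_pow_lt_of_lt_one (div_pos hd h0) (by norm_num : (1 / 2 : ℝ) < 1)
  refine ⟨n, ?_⟩
  have h1 := he.le_pow (n + 1)
  have h2 : (1 / 2 : ℝ) ^ (n + 1) ≤ (1 / 2) ^ n := by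
    rw [pow_succ]
    have : (0 : ℝ) < (1 / 2) ^ n := by positivity
    linarith
  have h3 : e 0 * (1 / 2) ^ n < d := by
    rw [lt_div_iff₀ h0] at hn
    linarith
  have h4 : e 0 * (1 / 2) ^ (n + 1) ≤ e 0 * (1 / 2) ^ n := mul_le_mul_of_nonneg_left h2 h0.le
  linarith

/-- The ratio form of the recursion. -/
theorem forward (he : Rec e) (j : ℕ) :
    (e (j + 2) + (j + 2)) * (1 - e (j + 1) / e j) = j + 1 + e (j + 1) := by
  have h0 := he.1 j
  have hr := he.2 j
  field_simp
  linarith

/-- Two solutions whose difference starts growing keep growing apart. -/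
theorem grow (he : Rec e) (hf : Rec f) (h1 : f 1 < e 1)
    (hr : f 1 / f 0 ≤ e 1 / e 0) (j : ℕ) :
    e 1 - f 1 ≤ e (j + 1) - f (j + 1) ∧ f (j + 1) / f j ≤ e (j + 1) / e j := by
  induction j with
  | zero => exact ⟨le_refl _, hr⟩
  | succ j ih =>
    obtain ⟨ih1, ih2⟩ := ih
    have hd : 0 < e (j + 1) - f (j + 1) := by linarith
    have he0 := he.1 j
    have he1 := he.1 (j + 1)
    have he2 := he.1 (j + 2)
    have hf0 := hf.1 j
    have hf1 := hf.1 (j + 1)
    have hf2 := hf.1 (j + 2)
    have hj : (0 : ℝ) ≤ j := Nat.cast_nonneg j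
    set r := e (j + 1) / e j with hrdef
    set q := f (j + 1) / f j with hqdef
    have hr1 : r < 1 := by
      rw [hrdef, div_lt_one he0]
      exact he.lt_prev j
    have hq1 : q < 1 := by
      rw [hqdef, div_lt_one hf0]
      exact hf.lt_prev j
    have hq0 : 0 < q := div_pos hf1 hf0
    have hEe := he.forward j
    have hEf := hf.forward j
    rw [← hrdef] at hEe
    rw [← hqdef] at hEf
    -- the difference of the two forward equations
    have key : (e (j + 2) - f (j + 2)) * (1 - q) ≥ e (j + 1) - f (j + 1) := by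
      have : (e (j + 2) + (j + 2)) * (1 - r) ≤ (e (j + 2) + (j + 2)) * (1 - q) := by
        apply mul_le_mul_of_nonneg_left
        · linarith
        · positivity
      linarith
    have hd2 : e (j + 1) - f (j + 1) ≤ e (j + 2) - f (j + 2) := by
      have hpos : 0 < e (j + 2) - f (j + 2) := by
        by_contra hcon
        push Not at hcon
        have : (e (j + 2) - f (j + 2)) * (1 - q) ≤ 0 :=
          mul_nonpos_of_nonpos_of_nonneg hcon (by linarith)
        linarith
      have : (e (j + 2) - f (j + 2)) * (1 - q) ≤ (e (j + 2) - f (j + 2)) * 1 := by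
        apply mul_le_mul_of_nonneg_left _ hpos.le
        linarith
      linarith
    refine ⟨by linarith, ?_⟩
    show f (j + 2) / f (j + 1) ≤ e (j + 2) / e (j + 1)
    rw [div_le_div_iff₀ hf1 he1]
    have hlt : f (j + 2) < f (j + 1) := hf.lt_prev (j + 1)
    have h3 : f (j + 2) * (e (j + 1) - f (j + 1)) ≤ f (j + 1) * (e (j + 2) - f (j + 2)) := by
      apply mul_le_mul hlt.le hd2 hd.le hf1.le
    nlinarith

theorem not_grow (he : Rec e) (hf : Rec f) (h1 : f 1 < e 1)
    (hr : f 1 / f 0 ≤ e 1 / e 0) : False := by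
  obtain ⟨j, hj⟩ := he.tendsto_zero (e 1 - f 1) (by linarith)
  have := (grow he hf h1 hr j).1
  have := hf.1 (j + 1)
  linarith

theorem one_le_of_zero_eq (he : Rec e) (hf : Rec f) (h0 : e 0 = f 0) : e 1 ≤ f 1 := by
  by_contra hcon
  push Not at hcon
  apply not_grow he hf hcon
  rw [h0]
  exact div_le_div_of_nonneg_right hcon.le (hf.1 0).le

/-- A solution is determined by `e 0`. -/
theorem eq_of_zero_eq (he : Rec e) (hf : Rec f) (h0 : e 0 = f 0) : e = f := by
  have h1 : e 1 = f 1 :=
    le_antisymm (one_le_of_zero_eq he hf h0) (one_le_of_zero_eq hf he h0.symm)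
  have h2 : ∀ j, e j = f j ∧ e (j + 1) = f (j + 1) := by
    intro j
    induction j with
    | zero => exact ⟨h0, h1⟩
    | succ j ih =>
      refine ⟨ih.2, ?_⟩
      have hEe := he.forward j
      have hEf := hf.forward j
      rw [ih.1, ih.2, ← hEf] at hEe
      have hq1 : f (j + 1) / f j < 1 := by
        rw [div_lt_one (hf.1 j)]
        exact hf.lt_prev j
      have := mul_right_cancel₀ (by linarith : (1 - f (j + 1) / f j) ≠ 0) hEe
      show e (j + 2) = f (j + 2)
      linarith
  funext j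
  exact (h2 j).1

theorem zero_le_of_bdry (he : Rec e) (hf : Rec f) (hbe : 1 + e 1 = 2 * e 0)
    (hbf : 1 + f 1 = 2 * f 0) : e 0 ≤ f 0 := by
  by_contra hcon
  push Not at hcon
  apply not_grow he hf (by linarith)
  have he0 := he.1 0
  have hf0 := hf.1 0
  rw [div_le_div_iff₀ hf0 he0]
  have h1 : e 1 = 2 * e 0 - 1 := by linarith
  have h2 : f 1 = 2 * f 0 - 1 := by linarith
  rw [h1, h2]
  nlinarith

/-- At most one solution satisfies the boundary condition. -/
theorem unique (he : Rec e) (hf : Rec f) (hbe : 1 + e 1 = 2 * e 0)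
    (hbf : 1 + f 1 = 2 * f 0) : e = f :=
  eq_of_zero_eq he hf
    (le_antisymm (zero_le_of_bdry he hf hbe hbf) (zero_le_of_bdry hf he hbf hbe))

end Rec

/-! ### Existence, as a fixed point of a monotone map -/

/-- The complete lattice `[0,1]^ℕ`. -/
abbrev Box : Type := ℕ → Set.Icc (0 : ℝ) 1

/-- The monotone map on real sequences. -/
noncomputable def stepR (x : ℕ → ℝ) : ℕ → ℝ
  | 0 => (1 + x 1) / 2
  | j + 1 => x j * (1 + x (j + 2)) / (j + 2 + x (j + 2) + x j)

theorem stepR_mono {x y : ℕ → ℝ} (hx : ∀ j, 0 ≤ x j) (hxy : ∀ j, x j ≤ y j) (j : ℕ) :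
    stepR x j ≤ stepR y j := by
  cases j with
  | zero =>
    simp only [stepR]
    linarith [hxy 1]
  | succ j =>
    simp only [stepR]
    have hx0 := hx j
    have hx2 := hx (j + 2)
    have h0 := hxy j
    have h2 := hxy (j + 2)
    have hj : (0 : ℝ) ≤ j := Nat.cast_nonneg j
    have hy0 : 0 ≤ y j := hx0.trans h0
    have hy2 : 0 ≤ y (j + 2) := hx2.trans h2
    have hp : 0 < j + 2 + x (j + 2) + x j := by positivity
    have hq : 0 < j + 2 + y (j + 2) + y j := by positivity
    rw [div_le_div_iff₀ hp hq]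
    -- first raise the left argument, then the right one
    have hA : x j * (j + 2 + y (j + 2) + y j) ≤ y j * (j + 2 + y (j + 2) + x j) := by
      nlinarith
    have hB : (1 + x (j + 2)) * (j + 2 + y (j + 2) + x j) ≤
        (1 + y (j + 2)) * (j + 2 + x (j + 2) + x j) := by
      nlinarith
    have h3 : 0 ≤ 1 + x (j + 2) := by linarith
    calc x j * (1 + x (j + 2)) * (j + 2 + y (j + 2) + y j)
        = (1 + x (j + 2)) * (x j * (j + 2 + y (j + 2) + y j)) := by ring
      _ ≤ (1 + x (j + 2)) * (y j * (j + 2 + y (j + 2) + x j)) :=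
          mul_le_mul_of_nonneg_left hA h3
      _ = y j * ((1 + x (j + 2)) * (j + 2 + y (j + 2) + x j)) := by ring
      _ ≤ y j * ((1 + y (j + 2)) * (j + 2 + x (j + 2) + x j)) :=
          mul_le_mul_of_nonneg_left hB hy0
      _ = y j * (1 + y (j + 2)) * (j + 2 + x (j + 2) + x j) := by ring

theorem stepR_mem {x : ℕ → ℝ} (hx : ∀ j, x j ∈ Set.Icc (0 : ℝ) 1) (j : ℕ) :
    stepR x j ∈ Set.Icc (0 : ℝ) 1 := by
  cases j with
  | zero =>
    simp only [stepR]
    have := hx 1
    constructor <;> linarith [this.1, this.2]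
  | succ j =>
    simp only [stepR]
    have h0 := hx j
    have h2 := hx (j + 2)
    have hj : (0 : ℝ) ≤ j := Nat.cast_nonneg j
    have h01 := h0.1
    have h21 := h2.1
    have hp : 0 < j + 2 + x (j + 2) + x j := by positivity
    constructor
    · positivity
    · rw [div_le_one hp]
      nlinarith [h0.2, h2.2, mul_nonneg h01 h21]

/-- The monotone map on the lattice. -/
noncomputable def stepBox : Box →o Box where
  toFun x := fun j => ⟨stepR (fun i => (x i : ℝ)) j, stepR_mem (fun i => (x i).2) j⟩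
  monotone' := by
    intro x y hxy j
    exact stepR_mono (fun i => (x i).2.1) (fun i => hxy i) j

theorem rec_of_fixed {x : ℕ → ℝ} (hx : ∀ j, 0 ≤ x j) (hfix : ∀ j, stepR x j = x j) :
    Rec x ∧ 1 + x 1 = 2 * x 0 := by
  have hb : 1 + x 1 = 2 * x 0 := by
    have := hfix 0
    simp only [stepR] at this
    linarith
  have hrec : ∀ j : ℕ, x (j + 1) * (j + 2 + x (j + 2) + x j) = x j * (1 + x (j + 2)) := by
    intro j
    have h := hfix (j + 1)
    simp only [stepR] at h
    have h0 := hx j
    have h2 := hx (j + 2)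
    have hj : (0 : ℝ) ≤ j := Nat.cast_nonneg j
    have hp : 0 < j + 2 + x (j + 2) + x j := by positivity
    rw [div_eq_iff hp.ne'] at h
    linarith
  refine ⟨⟨?_, hrec⟩, hb⟩
  intro j
  induction j with
  | zero => linarith [hx 1]
  | succ j ih =>
    have h := hrec j
    have h2 := hx (j + 2)
    have hj : (0 : ℝ) ≤ j := Nat.cast_nonneg j
    have hp : 0 < j + 2 + x (j + 2) + x j := by positivity
    have hq : 0 < x j * (1 + x (j + 2)) := by positivity
    rw [← h] at hq
    exact pos_of_mul_pos_left hq hp.le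

/-- The solution. -/
noncomputable def eSol : ℕ → ℝ := fun j => (OrderHom.lfp stepBox j : ℝ)

theorem fixed_of_box {x : Box} (hx : stepBox x = x) (j : ℕ) :
    stepR (fun i => (x i : ℝ)) j = (x j : ℝ) := by
  have := congrFun hx j
  exact congrArg Subtype.val this

theorem eSol_spec : Rec eSol ∧ 1 + eSol 1 = 2 * eSol 0 := by
  apply rec_of_fixed
  · intro j
    exact (OrderHom.lfp stepBox j).2.1
  · intro j
    exact fixed_of_box (OrderHom.map_lfp stepBox) j

theorem eSol_le_one (j : ℕ) : eSol j ≤ 1 := (OrderHom.lfp stepBox j).2.2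

/-- Every supersolution bounds the solution from above. -/
theorem eSol_le {x : ℕ → ℝ} (hx : ∀ j, x j ∈ Set.Icc (0 : ℝ) 1) (hs : ∀ j, stepR x j ≤ x j)
    (j : ℕ) : eSol j ≤ x j := by
  let y : Box := fun j => ⟨x j, hx j⟩
  have h1 : stepBox y ≤ y := fun j => hs j
  have h2 : OrderHom.lfp stepBox ≤ y := OrderHom.lfp_le stepBox h1
  exact h2 j

/-- Every subsolution bounds the solution from below. -/
theorem le_eSol {x : ℕ → ℝ} (hx : ∀ j, x j ∈ Set.Icc (0 : ℝ) 1) (hs : ∀ j, x j ≤ stepR x j)
    (j : ℕ) : x j ≤ eSol j := by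
  let y : Box := fun j => ⟨x j, hx j⟩
  have h1 : y ≤ stepBox y := fun j => hs j
  have h2 : y ≤ OrderHom.gfp stepBox := OrderHom.le_gfp stepBox h1
  have h3 : Rec (fun j => (OrderHom.gfp stepBox j : ℝ)) ∧
      1 + (fun j => (OrderHom.gfp stepBox j : ℝ)) 1 =
        2 * (fun j => (OrderHom.gfp stepBox j : ℝ)) 0 := by
    apply rec_of_fixed
    · intro j
      exact (OrderHom.gfp stepBox j).2.1
    · intro j
      exact fixed_of_box (OrderHom.map_gfp stepBox) j
  have h4 := Rec.unique h3.1 eSol_spec.1 h3.2 eSol_spec.2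
  have h5 := congrFun h4 j
  have h6 : (y j : ℝ) ≤ (OrderHom.gfp stepBox j : ℝ) := h2 j
  calc x j ≤ (OrderHom.gfp stepBox j : ℝ) := h6
    _ = eSol j := h5

end Pool.Agent.HighLow
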