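import Pool.Agent.Lib.MP_a09a4b_an.Basic
import Pool.Agent.Lib.MP_a09a4b_an.Rec

/-!
# Existence and uniqueness of Alpern's family

The remaining cost of Alpern's rule in state `k` on `[a,b]` is `c k * (b - a) - k * (h - a)`.
-/

namespace Pool.Agent.HighLow

open scoped ENNReal

/-- The equations satisfied by the parameters `lam` and the constants `c`. -/
structure Sys (lam c : ℤ → ℝ) : Prop where
  lam_mem : ∀ k, lam k ∈ Set.Ioo (0 : ℝ) 1
  left : ∀ k, c k = gpos lam k * (1 + c (k - 1))
  right : ∀ k : ℤ, c k - k = (1 - gpos lam k) * (c (k + 1) - k)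
  nonneg : ∀ k, 0 ≤ c k
  ge : ∀ k : ℤ, (k : ℝ) ≤ c k

/-- The remaining cost. -/
def rem (c : ℤ → ℝ) (k : ℤ) (a b h : ℝ) : ℝ := c k * (b - a) - k * (h - a)

theorem rem_nonneg {lam c : ℤ → ℝ} (hs : Sys lam c) (k : ℤ) {a b h : ℝ} (h1 : a ≤ h)
    (h2 : h ≤ b) : 0 ≤ rem c k a b h := by
  unfold rem
  have h3 := hs.nonneg k
  have h4 := hs.ge k
  rcases le_or_gt (k : ℝ) 0 with hk | hk
  · have : (k : ℝ) * (h - a) ≤ 0 := mul_nonpos_of_nonpos_of_nonneg hk (by linarith)
    have : 0 ≤ c k * (b - a) := mul_nonneg h3 (by linarith)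
    linarith
  · have : (k : ℝ) * (h - a) ≤ k * (b - a) := mul_le_mul_of_nonneg_left (by linarith) hk.le
    have : (k : ℝ) * (b - a) ≤ c k * (b - a) := mul_le_mul_of_nonneg_right h4 (by linarith)
    linarith

theorem rem_left {lam c : ℤ → ℝ} (hs : Sys lam c) (k : ℤ) (a b h : ℝ) :
    (a + (b - a) * gpos lam k - h) + rem c (k - 1) a (a + (b - a) * gpos lam k) h =
      rem c k a b h := by
  unfold rem
  rw [hs.left k]
  push_cast
  ring

theorem rem_right {lam c : ℤ → ℝ} (hs : Sys lam c) (k : ℤ) (a b h : ℝ) :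
    (h - (a + (b - a) * gpos lam k)) + rem c (k + 1) (a + (b - a) * gpos lam k) b h =
      rem c k a b h := by
  unfold rem
  have h1 : c k = k + (1 - gpos lam k) * (c (k + 1) - k) := by linarith [hs.right k]
  rw [h1]
  push_cast
  ring

/-- Upper bound for the payoff of the rule started from any state. -/
theorem pay_alpern_le {lam c : ℤ → ℝ} (hs : Sys lam c) (n : ℕ) : ∀ (k : ℤ) (a b h : ℝ),
    a < b → a ≤ h → h ≤ b →
      pay (alpernFrom lam (k, a, b)) h n ≤ ENNReal.ofReal (rem c k a b h) := by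
  induction n with
  | zero => intro k a b h _ _ _; rw [pay_zero]; exact zero_le
  | succ n ih =>
    intro k a b h hab h1 h2
    obtain ⟨hg1, hg2⟩ := gpos_mem hs.lam_mem k
    have hba : 0 < b - a := sub_pos.2 hab
    have hga : a < a + (b - a) * gpos lam k := by nlinarith [mul_pos hba hg1]
    have hgb : a + (b - a) * gpos lam k < b := by nlinarith [mul_pos hba (sub_pos.2 hg2)]
    have hnil : alpernFrom lam (k, a, b) [] = a + (b - a) * gpos lam k := by
      rw [alpernFrom_nil, alpernGuess_eq]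
    rcases lt_trichotomy (a + (b - a) * gpos lam k) h with h0 | h0 | h0
    · rw [pay_of_lt (by rw [hnil]; exact h0), alpernFrom_tail, alpernStep_true, hnil]
      refine (add_le_add le_rfl (ih _ _ _ _ hgb h0.le h2)).trans ?_
      rw [← ENNReal.ofReal_add (by linarith) (rem_nonneg hs _ h0.le h2), rem_right hs]
    · rw [pay_of_eq (by rw [hnil]; exact h0)]
      exact zero_le
    · rw [pay_of_gt (by rw [hnil]; exact h0), alpernFrom_tail, alpernStep_false, hnil]
      refine (add_le_add le_rfl (ih _ _ _ _ hga h1 h0.le)).trans ?_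
      rw [← ENNReal.ofReal_add (by linarith) (rem_nonneg hs _ h1 h0.le), rem_left hs]

theorem payoff_alpern_le {lam c : ℤ → ℝ} (hs : Sys lam c) {k : ℤ} {a b h : ℝ}
    (hab : a < b) (h1 : a ≤ h) (h2 : h ≤ b) :
    payoff (alpernFrom lam (k, a, b)) h ≤ ENNReal.ofReal (rem c k a b h) :=
  payoff_le fun n => pay_alpern_le hs n k a b h hab h1 h2

/-! ### The explicit family -/

/-- The constants of Alpern's strategy. -/
noncomputable def cSol (k : ℤ) : ℝ := (k.toNat : ℝ) + eSol k.natAbs

/-- The parameters of Alpern's strategy. -/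
noncomputable def lamSol (k : ℤ) : ℝ := 1 - cSol k / (1 + cSol (k - 1))

theorem cSol_nat (j : ℕ) : cSol j = j + eSol j := by
  simp [cSol]

theorem cSol_neg (j : ℕ) : cSol (-j) = eSol j := by
  simp [cSol]

theorem eSol_pos (j : ℕ) : 0 < eSol j := eSol_spec.1.1 j

theorem cSol_pos (k : ℤ) : 0 < cSol k := by
  unfold cSol
  have := eSol_pos k.natAbs
  positivity

theorem cSol_gt (k : ℤ) : (k : ℝ) < cSol k := by
  unfold cSol
  have := eSol_pos k.natAbs
  have h : (k : ℝ) ≤ (k.toNat : ℝ) := by
    exact_mod_cast Int.self_le_toNat k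
  linarith

/-- The key relation between the constants. -/
theorem cSol_rel (k : ℤ) :
    cSol k / (1 + cSol (k - 1)) + (cSol k - k) / (cSol (k + 1) - k) = 1 := by
  have hp1 : 0 < 1 + cSol (k - 1) := by linarith [cSol_pos (k - 1)]
  have hp2 : 0 < cSol (k + 1) - k := by
    have := cSol_gt (k + 1)
    push_cast at this
    linarith
  rw [div_add_div _ _ hp1.ne' hp2.ne', div_eq_one_iff_eq (mul_pos hp1 hp2).ne']
  obtain ⟨hR, hB⟩ := eSol_spec
  rcases lt_trichotomy k 0 with hk | hk | hk
  · obtain ⟨j, rfl⟩ : ∃ j : ℕ, k = -((j : ℤ) + 1) := by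
      obtain ⟨n, hn⟩ := Int.eq_ofNat_of_zero_le (by omega : 0 ≤ -k - 1)
      exact ⟨n, by omega⟩
    have e1 : cSol (-((j : ℤ) + 1)) = eSol (j + 1) := by
      have := cSol_neg (j + 1)
      push_cast at this
      exact this
    have e2 : cSol (-((j : ℤ) + 1) - 1) = eSol (j + 2) := by
      have := cSol_neg (j + 2)
      push_cast at this
      rw [← this]
      congr 1
    have e3 : cSol (-((j : ℤ) + 1) + 1) = eSol j := by
      have := cSol_neg j
      rw [← this]
      congr 1
      ring
    rw [e1, e2, e3]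
    have := hR.2 j
    push_cast
    linarith
  · subst hk
    have e1 : cSol 0 = eSol 0 := by simpa using cSol_neg 0
    have e2 : cSol (0 - 1) = eSol 1 := by simpa using cSol_neg 1
    have e3 : cSol (0 + 1) = 1 + eSol 1 := by simpa using cSol_nat 1
    rw [e1, e2, e3]
    simp only [Int.cast_zero, sub_zero]
    have : eSol 1 = 2 * eSol 0 - 1 := by linarith
    rw [this]
    ring
  · obtain ⟨j, rfl⟩ : ∃ j : ℕ, k = (j : ℤ) + 1 := by
      obtain ⟨n, hn⟩ := Int.eq_ofNat_of_zero_le (by omega : 0 ≤ k - 1)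
      exact ⟨n, by omega⟩
    have e1 : cSol ((j : ℤ) + 1) = j + 1 + eSol (j + 1) := by
      have := cSol_nat (j + 1)
      push_cast at this
      exact this
    have e2 : cSol ((j : ℤ) + 1 - 1) = j + eSol j := by
      rw [add_sub_cancel_right]
      exact cSol_nat j
    have e3 : cSol ((j : ℤ) + 1 + 1) = j + 2 + eSol (j + 2) := by
      have := cSol_nat (j + 2)
      push_cast at this
      rw [← this]
      congr 1
    rw [e1, e2, e3]
    have := hR.2 j
    push_cast
    linarith

theorem gpos_lamSol (k : ℤ) : gpos lamSol k = cSol k / (1 + cSol (k - 1)) := by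
  simp [gpos, lamSol]

theorem one_sub_gpos_lamSol (k : ℤ) :
    1 - gpos lamSol k = (cSol k - k) / (cSol (k + 1) - k) := by
  rw [gpos_lamSol]
  linarith [cSol_rel k]

theorem sys_sol : Sys lamSol cSol where
  lam_mem k := by
    have hp1 : 0 < 1 + cSol (k - 1) := by linarith [cSol_pos (k - 1)]
    have hp2 : 0 < cSol (k + 1) - k := by
      have := cSol_gt (k + 1)
      push_cast at this
      linarith
    have h1 : 0 < cSol k / (1 + cSol (k - 1)) := div_pos (cSol_pos k) hp1
    have h2 : 0 < (cSol k - k) / (cSol (k + 1) - k) := div_pos (by linarith [cSol_gt k]) hp2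
    have h3 := cSol_rel k
    constructor
    · unfold lamSol
      linarith
    · unfold lamSol
      linarith
  left k := by
    have hp1 : 0 < 1 + cSol (k - 1) := by linarith [cSol_pos (k - 1)]
    rw [gpos_lamSol]
    field_simp
  right k := by
    have hp2 : 0 < cSol (k + 1) - k := by
      have := cSol_gt (k + 1)
      push_cast at this
      linarith
    rw [one_sub_gpos_lamSol]
    field_simp
  nonneg k := (cSol_pos k).le
  ge k := (cSol_gt k).le

/-! ### The payoff of the explicit family is constant -/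

theorem gpos_lamSol_ge (k : ℤ) (hk : 0 ≤ k) : 1 / 2 ≤ gpos lamSol k := by
  rw [gpos_lamSol]
  have hp1 : 0 < 1 + cSol (k - 1) := by linarith [cSol_pos (k - 1)]
  rw [le_div_iff₀ hp1]
  obtain ⟨hR, hB⟩ := eSol_spec
  rcases hk.lt_or_eq with hk | hk
  · obtain ⟨j, rfl⟩ : ∃ j : ℕ, k = (j : ℤ) + 1 := by
      obtain ⟨n, hn⟩ := Int.eq_ofNat_of_zero_le (by omega : 0 ≤ k - 1)
      exact ⟨n, by omega⟩
    have e1 : cSol ((j : ℤ) + 1) = j + 1 + eSol (j + 1) := by
      have := cSol_nat (j + 1)
      push_cast at this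
      exact this
    have e2 : cSol ((j : ℤ) + 1 - 1) = j + eSol j := by
      rw [add_sub_cancel_right]
      exact cSol_nat j
    rw [e1, e2]
    have h1 := eSol_pos (j + 1)
    have h2 := eSol_le_one j
    have hj : (0 : ℝ) ≤ j := Nat.cast_nonneg j
    linarith
  · subst hk
    have e1 : cSol 0 = eSol 0 := by simpa using cSol_neg 0
    have e2 : cSol (0 - 1) = eSol 1 := by simpa using cSol_neg 1
    rw [e1, e2]
    linarith

theorem gpos_lamSol_le (k : ℤ) (hk : k ≤ 0) : gpos lamSol k ≤ 1 / 2 := by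
  have h0 := one_sub_gpos_lamSol k
  have hp2 : 0 < cSol (k + 1) - k := by
    have := cSol_gt (k + 1)
    push_cast at this
    linarith
  have h1 : 1 / 2 ≤ (cSol k - k) / (cSol (k + 1) - k) := by
    rw [le_div_iff₀ hp2]
    obtain ⟨hR, hB⟩ := eSol_spec
    rcases hk.lt_or_eq with hk | hk
    · obtain ⟨j, rfl⟩ : ∃ j : ℕ, k = -((j : ℤ) + 1) := by
        obtain ⟨n, hn⟩ := Int.eq_ofNat_of_zero_le (by omega : 0 ≤ -k - 1)
        exact ⟨n, by omega⟩
      have e1 : cSol (-((j : ℤ) + 1)) = eSol (j + 1) := by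
        have := cSol_neg (j + 1)
        push_cast at this
        exact this
      have e3 : cSol (-((j : ℤ) + 1) + 1) = eSol j := by
        have := cSol_neg j
        rw [← this]
        congr 1
        ring
      rw [e1, e3]
      have h1 := eSol_pos (j + 1)
      have h2 := eSol_le_one j
      have hj : (0 : ℝ) ≤ j := Nat.cast_nonneg j
      push_cast
      linarith
    · subst hk
      have e1 : cSol 0 = eSol 0 := by simpa using cSol_neg 0
      have e3 : cSol (0 + 1) = 1 + eSol 1 := by simpa using cSol_nat 1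
      rw [e1, e3]
      simp only [Int.cast_zero, sub_zero]
      linarith
  linarith

theorem rem_le (k : ℤ) {a b h : ℝ} (h1 : a ≤ h) (h2 : h ≤ b) :
    rem cSol k a b h ≤ (k.natAbs + 1) * (b - a) := by
  unfold rem cSol
  have he := eSol_le_one k.natAbs
  have hba : 0 ≤ b - a := by linarith
  rcases le_or_gt 0 k with hk | hk
  · obtain ⟨j, rfl⟩ := Int.eq_ofNat_of_zero_le hk
    simp only [Int.toNat_natCast, Int.natAbs_natCast, Int.cast_natCast] at he ⊢
    have : (0 : ℝ) ≤ j * (h - a) := mul_nonneg (Nat.cast_nonneg j) (by linarith)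
    have : (j + eSol j) * (b - a) ≤ (j + 1) * (b - a) :=
      mul_le_mul_of_nonneg_right (by linarith) hba
    linarith
  · obtain ⟨j, rfl⟩ : ∃ j : ℕ, k = -(j : ℤ) := by
      obtain ⟨n, hn⟩ := Int.eq_ofNat_of_zero_le (by omega : 0 ≤ -k)
      exact ⟨n, by omega⟩
    simp only [Int.toNat_neg_natCast, Int.natAbs_neg, Int.natAbs_natCast] at he ⊢
    push_cast
    have h3 : (j : ℝ) * (h - a) ≤ j * (b - a) :=
      mul_le_mul_of_nonneg_left (by linarith) (Nat.cast_nonneg j)
    have h4 : eSol j * (b - a) ≤ 1 * (b - a) := mul_le_mul_of_nonneg_right he hba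
    linarith

/-- Lower bound for the payoff of the first `n` guesses. -/
theorem le_pay_sol (n : ℕ) : ∀ (k : ℤ) (a b h : ℝ), a < b → a ≤ h → h ≤ b →
    h ∉ Set.range (alpernFrom lamSol (k, a, b)) →
      ENNReal.ofReal (rem cSol k a b h) ≤ pay (alpernFrom lamSol (k, a, b)) h n +
        ENNReal.ofReal ((k.natAbs + n + 1) * ((3 / 4 : ℝ) ^ n * ((4 / 3 : ℝ) ^ k.natAbs * (b - a))))
      := by
  induction n with
  | zero =>
    intro k a b h hab h1 h2 _
    rw [pay_zero, zero_add]
    apply ENNReal.ofReal_le_ofReal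
    refine (rem_le k h1 h2).trans ?_
    have h3 : (1 : ℝ) ≤ (4 / 3 : ℝ) ^ k.natAbs := one_le_pow₀ (by norm_num)
    have h4 : 0 ≤ b - a := by linarith
    have h5 : 1 * (b - a) ≤ (4 / 3 : ℝ) ^ k.natAbs * (b - a) := mul_le_mul_of_nonneg_right h3 h4
    simp only [Nat.cast_zero, add_zero, pow_zero, one_mul] at h5 ⊢
    exact mul_le_mul_of_nonneg_left h5 (by positivity)
  | succ n ih =>
    intro k a b h hab h1 h2 hr
    obtain ⟨hg1, hg2⟩ := gpos_mem sys_sol.lam_mem k
    have hba : 0 < b - a := sub_pos.2 hab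
    have hga : a < a + (b - a) * gpos lamSol k := by nlinarith [mul_pos hba hg1]
    have hgb : a + (b - a) * gpos lamSol k < b := by nlinarith [mul_pos hba (sub_pos.2 hg2)]
    have hnil : alpernFrom lamSol (k, a, b) [] = a + (b - a) * gpos lamSol k := by
      rw [alpernFrom_nil, alpernGuess_eq]
    -- the remainder after the step is controlled by the remainder before it
    have hrem : ∀ (k' : ℤ) (L : ℝ), 0 ≤ L → L ≤ b - a → (k'.natAbs : ℝ) ≤ k.natAbs + 1 →
        (4 / 3 : ℝ) ^ k'.natAbs * L ≤ 3 / 4 * ((4 / 3 : ℝ) ^ k.natAbs * (b - a)) →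
        ((k'.natAbs : ℝ) + n + 1) * ((3 / 4 : ℝ) ^ n * ((4 / 3 : ℝ) ^ k'.natAbs * L)) ≤
          (k.natAbs + (n + 1 : ℕ) + 1) *
            ((3 / 4 : ℝ) ^ (n + 1) * ((4 / 3 : ℝ) ^ k.natAbs * (b - a))) := by
      intro k' L hL0 _ hk' hL
      have h3 : (0 : ℝ) < (3 / 4 : ℝ) ^ n := by positivity
      have h4 : (3 / 4 : ℝ) ^ n * ((4 / 3 : ℝ) ^ k'.natAbs * L) ≤
          (3 / 4 : ℝ) ^ (n + 1) * ((4 / 3 : ℝ) ^ k.natAbs * (b - a)) := by
        rw [pow_succ, mul_assoc ((3 / 4 : ℝ) ^ n)]
        exact mul_le_mul_of_nonneg_left hL h3.le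
      apply mul_le_mul _ h4 (by positivity) (by positivity)
      push_cast
      linarith
    rcases lt_trichotomy (a + (b - a) * gpos lamSol k) h with h0 | h0 | h0
    · rw [pay_of_lt (by rw [hnil]; exact h0), alpernFrom_tail, alpernStep_true, hnil,
        ← rem_right sys_sol, ENNReal.ofReal_add (by linarith) (rem_nonneg sys_sol _ h0.le h2),
        add_assoc]
      refine add_le_add le_rfl ((ih _ _ _ _ hgb h0.le h2 ?_).trans
        (add_le_add le_rfl (ENNReal.ofReal_le_ofReal (hrem _ _ (by linarith) (by linarith) ?_ ?_))))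
      · rintro ⟨w, hw⟩
        apply hr
        refine ⟨true :: w, ?_⟩
        rw [alpernFrom_cons, alpernStep_true]
        exact hw
      · have : (k + 1).natAbs ≤ k.natAbs + 1 := by omega
        exact_mod_cast this
      · rcases le_or_gt 0 k with hk | hk
        · have e1 : (k + 1).natAbs = k.natAbs + 1 := by omega
          have hg := gpos_lamSol_ge k hk
          rw [e1, pow_succ]
          have h5 : b - (a + (b - a) * gpos lamSol k) ≤ (b - a) * (1 / 2) := by
            have := mul_le_mul_of_nonneg_left hg hba.le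
            linarith
          have h6 : (0 : ℝ) < (4 / 3 : ℝ) ^ k.natAbs := by positivity
          have h7 := mul_le_mul_of_nonneg_left h5 h6.le
          have h8 : 0 < (4 / 3 : ℝ) ^ k.natAbs * (b - a) := mul_pos h6 hba
          linarith
        · have e1 : k.natAbs = (k + 1).natAbs + 1 := by omega
          rw [e1, pow_succ]
          have h5 : b - (a + (b - a) * gpos lamSol k) ≤ b - a := by linarith
          have h6 : (0 : ℝ) < (4 / 3 : ℝ) ^ (k + 1).natAbs := by positivity
          have h7 := mul_le_mul_of_nonneg_left h5 h6.le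
          linarith
    · exfalso
      apply hr
      exact ⟨[], by rw [hnil]; exact h0⟩
    · rw [pay_of_gt (by rw [hnil]; exact h0), alpernFrom_tail, alpernStep_false, hnil,
        ← rem_left sys_sol, ENNReal.ofReal_add (by linarith) (rem_nonneg sys_sol _ h1 h0.le),
        add_assoc]
      refine add_le_add le_rfl ((ih _ _ _ _ hga h1 h0.le ?_).trans
        (add_le_add le_rfl (ENNReal.ofReal_le_ofReal (hrem _ _ (by linarith) (by linarith) ?_ ?_))))
      · rintro ⟨w, hw⟩
        apply hr
        refine ⟨false :: w, ?_⟩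
        rw [alpernFrom_cons, alpernStep_false]
        exact hw
      · have : (k - 1).natAbs ≤ k.natAbs + 1 := by omega
        exact_mod_cast this
      · rcases le_or_gt k 0 with hk | hk
        · have e1 : (k - 1).natAbs = k.natAbs + 1 := by omega
          have hg := gpos_lamSol_le k hk
          rw [e1, pow_succ]
          have h5 : a + (b - a) * gpos lamSol k - a ≤ (b - a) * (1 / 2) := by
            have := mul_le_mul_of_nonneg_left hg hba.le
            linarith
          have h6 : (0 : ℝ) < (4 / 3 : ℝ) ^ k.natAbs := by positivity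
          have h7 := mul_le_mul_of_nonneg_left h5 h6.le
          have h8 : 0 < (4 / 3 : ℝ) ^ k.natAbs * (b - a) := mul_pos h6 hba
          linarith
        · have e1 : k.natAbs = (k - 1).natAbs + 1 := by omega
          rw [e1, pow_succ]
          have h5 : a + (b - a) * gpos lamSol k - a ≤ b - a := by linarith
          have h6 : (0 : ℝ) < (4 / 3 : ℝ) ^ (k - 1).natAbs := by positivity
          have h7 := mul_le_mul_of_nonneg_left h5 h6.le
          linarith

theorem payoff_sol {k : ℤ} {a b h : ℝ} (hab : a < b) (h1 : a ≤ h) (h2 : h ≤ b)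
    (hr : h ∉ Set.range (alpernFrom lamSol (k, a, b))) :
    payoff (alpernFrom lamSol (k, a, b)) h = ENNReal.ofReal (rem cSol k a b h) := by
  apply le_antisymm (payoff_alpern_le sys_sol hab h1 h2)
  have hlim : Filter.Tendsto (fun n : ℕ => payoff (alpernFrom lamSol (k, a, b)) h +
      ENNReal.ofReal ((k.natAbs + n + 1) *
        ((3 / 4 : ℝ) ^ n * ((4 / 3 : ℝ) ^ k.natAbs * (b - a)))))
      Filter.atTop (nhds (payoff (alpernFrom lamSol (k, a, b)) h + 0)) := by
    apply Filter.Tendsto.add tendsto_const_nhds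
    rw [← ENNReal.ofReal_zero]
    apply ENNReal.tendsto_ofReal
    have t1 : Filter.Tendsto (fun n : ℕ => (n : ℝ) * (3 / 4 : ℝ) ^ n) Filter.atTop (nhds 0) :=
      tendsto_self_mul_const_pow_of_lt_one (by norm_num) (by norm_num)
    have t2 : Filter.Tendsto (fun n : ℕ => (3 / 4 : ℝ) ^ n) Filter.atTop (nhds 0) :=
      tendsto_pow_atTop_nhds_zero_of_lt_one (by norm_num) (by norm_num)
    have t3 := (t1.add (t2.const_mul ((k.natAbs : ℝ) + 1))).mul_const
      ((4 / 3 : ℝ) ^ k.natAbs * (b - a))
    rw [mul_zero, add_zero, zero_mul] at t3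
    refine t3.congr ?_
    intro n
    ring
  rw [add_zero] at hlim
  refine ge_of_tendsto' hlim ?_
  intro n
  exact (le_pay_sol n k a b h hab h1 h2 hr).trans (add_le_add (pay_le_payoff _ _ n) le_rfl)

theorem isAlpernFamily_sol : IsAlpernFamily lamSol (ENNReal.ofReal (eSol 0)) := by
  refine ⟨sys_sol.lam_mem, ?_⟩
  intro h hh hr
  rw [alpernRule, payoff_sol zero_lt_one hh.1 hh.2 hr]
  congr 1
  unfold rem
  have : cSol 0 = eSol 0 := by simpa using cSol_neg 0
  rw [this]
  simp

end Pool.Agent.HighLow
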