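import Pool.Agent.Lib.MP_a09a4b_an.Tree

/-!
# The mixed strategy of a finite list of weighted trees, and its guaranteed cost
-/

namespace Pool.Agent.HighLow

open scoped ENNReal

/-- Weighted total of the integer costs in the cell `[i, i+1]` at the end point `x`. -/
def mixCost (N : ℕ) (L : List (ℕ × GTree)) (i x : ℕ) : ℕ :=
  (L.map fun p => p.1 * p.2.costN 100000 eBound 0 N i x).sum

/-- The finite check of a list of integer weights (of total `W`) and trees on the grid `i / N`:
all trees are valid and the integer costs are at most `B`. -/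
def mixCheck (N W B : ℕ) (L : List (ℕ × GTree)) : Bool :=
  L.all (fun p => p.2.valid 0 N) && (L.map Prod.fst).sum == W &&
    (List.range N).all fun i => decide (mixCost N L i i ≤ B) && decide (mixCost N L i (i + 1) ≤ B)

/-- The pure strategy of a tree on the grid `i / N`. -/
noncomputable def treeStrategy (N : ℕ) (hN : 0 < N) (T : GTree) (hT : T.valid 0 N = true) :
    PureStrategy :=
  ⟨(T.rule 0 N).scale 0 (1 / N), by
    intro w
    have h := T.rule_mem 0 N hT w
    have hN' : (0 : ℝ) < N := by exact_mod_cast hN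
    simp only [Nat.cast_zero] at h
    simp only [Rule.scale, Set.mem_Icc, zero_add]
    constructor
    · exact mul_nonneg (by positivity) h.1
    · rw [one_div, inv_mul_le_iff₀ hN', mul_one]
      exact h.2⟩

theorem tsum_map {α β : Type*} (p : PMF α) (f : α → β) (F : β → ℝ≥0∞) :
    ∑' b, p.map f b * F b = ∑' a, p a * F (f a) := by
  classical
  simp only [PMF.map_apply, ← ENNReal.tsum_mul_right]
  rw [ENNReal.tsum_comm]
  congr 1
  funext a
  rw [tsum_eq_single (f a)]
  · simp
  · intro b hb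
    simp [hb]

section

variable {N W B : ℕ} {L : List (ℕ × GTree)}

theorem mix_valid (h : mixCheck N W B L = true) (i : Fin L.length) :
    L[i].2.valid 0 N = true := by
  simp only [mixCheck, Bool.and_eq_true, List.all_eq_true] at h
  exact h.1.1 L[i] (List.getElem_mem _)

theorem mix_sum (h : mixCheck N W B L = true) : ∑ i : Fin L.length, L[i].1 = W := by
  simp only [mixCheck, Bool.and_eq_true, beq_iff_eq] at h
  rw [← h.1.2]
  exact Fin.sum_univ_fun_getElem L Prod.fst

theorem mix_cost (h : mixCheck N W B L = true) (i x : ℕ) (hi : i < N) (hx : x = i ∨ x = i + 1) :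
    ∑ j : Fin L.length, L[j].1 * L[j].2.costN 100000 eBound 0 N i x ≤ B := by
  simp only [mixCheck, Bool.and_eq_true, List.all_eq_true, List.mem_range,
    decide_eq_true_eq] at h
  have h1 := h.2 i hi
  have h2 := Fin.sum_univ_fun_getElem L
    (fun p : ℕ × GTree => p.1 * p.2.costN 100000 eBound 0 N i x)
  have h3 : mixCost N L i x ≤ B := by
    rcases hx with rfl | rfl
    · exact h1.1
    · exact h1.2
  rw [mixCost, ← h2] at h3
  exact h3

theorem weights_sum (hW : 0 < W) (h : mixCheck N W B L = true) :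
    ∑ i : Fin L.length, (L[i].1 : ℝ≥0∞) / W = 1 := by
  simp only [div_eq_mul_inv]
  rw [← Finset.sum_mul, ← Nat.cast_sum, mix_sum h]
  have h1 : (W : ℝ≥0∞) ≠ 0 := by exact_mod_cast hW.ne'
  exact ENNReal.mul_inv_cancel h1 (ENNReal.natCast_ne_top W)

/-- The mixed strategy of a list. -/
noncomputable def sigma (hN : 0 < N) (hW : 0 < W) (h : mixCheck N W B L = true) :
    PMF PureStrategy :=
  (PMF.ofFintype (fun i : Fin L.length => (L[i].1 : ℝ≥0∞) / W) (weights_sum hW h)).map
    fun i => treeStrategy N hN L[i].2 (mix_valid h i)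

theorem sigma_support (hN : 0 < N) (hW : 0 < W) (h : mixCheck N W B L = true) :
    (sigma hN hW h).support.Finite := by
  unfold sigma
  rw [PMF.support_map]
  exact (Set.toFinite _).image _

theorem expectedPayoff_sigma (hN : 0 < N) (hW : 0 < W) (h : mixCheck N W B L = true) (y : ℝ) :
    expectedPayoff (sigma hN hW h) y = ∑ i : Fin L.length, (L[i].1 : ℝ≥0∞) / W *
      payoff (treeStrategy N hN L[i].2 (mix_valid h i)).1 y := by
  unfold expectedPayoff sigma
  rw [tsum_map, tsum_fintype]
  rfl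

theorem aff_mix_le (h : mixCheck N W B L = true) (i : ℕ) (hi : i < N) (t : ℝ) (ht0 : 0 ≤ t)
    (ht1 : t ≤ 1) :
    ∑ j : Fin L.length, (L[j].1 : ℝ) * L[j].2.aff 0 N i (i + t) ≤ (B : ℝ) / 100000 := by
  have hend : ∀ x : ℕ, (x = i ∨ x = i + 1) →
      ∑ j : Fin L.length, (L[j].1 : ℝ) * L[j].2.aff 0 N i x ≤ (B : ℝ) / 100000 := by
    intro x hx
    have h1 := mix_cost h i x hi hx
    have h2 : ((∑ j : Fin L.length, L[j].1 * L[j].2.costN 100000 eBound 0 N i x : ℕ) : ℝ)
        ≤ (B : ℕ) := by exact_mod_cast h1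
    have h3 : (100000 : ℝ) * ∑ j : Fin L.length, (L[j].1 : ℝ) * L[j].2.aff 0 N i x ≤
        ((∑ j : Fin L.length, L[j].1 * L[j].2.costN 100000 eBound 0 N i x : ℕ) : ℝ) := by
      rw [Finset.mul_sum, Nat.cast_sum]
      apply Finset.sum_le_sum
      intro j _
      have h4 := GTree.aff_le_costN eBound_spec L[j].2 0 N i x (mix_valid h j) (Nat.zero_le _)
        (by omega) (by omega) (by omega)
      rw [Nat.cast_mul]
      have h5 := mul_le_mul_of_nonneg_left h4 (Nat.cast_nonneg (α := ℝ) L[j].1)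
      push_cast at h5
      linarith
    rw [le_div_iff₀ (by norm_num)]
    linarith
  have e : ∑ j : Fin L.length, (L[j].1 : ℝ) * L[j].2.aff 0 N i (i + t) =
      (1 - t) * ∑ j : Fin L.length, (L[j].1 : ℝ) * L[j].2.aff 0 N i i +
        t * ∑ j : Fin L.length, (L[j].1 : ℝ) * L[j].2.aff 0 N i (i + 1 : ℕ) := by
    rw [Finset.mul_sum, Finset.mul_sum, ← Finset.sum_add_distrib]
    apply Finset.sum_congr rfl
    intro j _
    rw [GTree.aff_interp]
    ring
  rw [e]
  have h1 := mul_le_mul_of_nonneg_left (hend i (Or.inl rfl)) (by linarith : 0 ≤ 1 - t)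
  have h2 := mul_le_mul_of_nonneg_left (hend (i + 1) (Or.inr rfl)) ht0
  linarith

theorem expectedPayoff_sigma_le (hN : 0 < N) (hW : 0 < W) (hc : mixCheck N W B L = true)
    (h : ℝ) (hh : h ∈ Set.Icc (0 : ℝ) 1) :
    expectedPayoff (sigma hN hW hc) h ≤ ENNReal.ofReal ((B : ℝ) / (100000 * W * N)) := by
  have hN' : (0 : ℝ) < N := by exact_mod_cast hN
  have hW' : (0 : ℝ) < W := by exact_mod_cast hW
  -- the cell of `h`
  obtain ⟨i, t, hi, ht0, ht1, hy⟩ : ∃ (i : ℕ) (t : ℝ), i < N ∧ 0 ≤ t ∧ t ≤ 1 ∧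
      N * h = i + t := by
    rcases hh.2.lt_or_eq with h1 | h1
    · have h0 : 0 ≤ N * h := mul_nonneg hN'.le hh.1
      refine ⟨⌊N * h⌋₊, N * h - ⌊N * h⌋₊, ?_, ?_, ?_, ?_⟩
      · rw [Nat.floor_lt h0]
        nlinarith
      · linarith [Nat.floor_le h0]
      · linarith [Nat.lt_floor_add_one (N * h)]
      · ring
    · refine ⟨N - 1, 1, by omega, by norm_num, le_rfl, ?_⟩
      rw [h1]
      push_cast [Nat.cast_sub (Nat.one_le_iff_ne_zero.2 hN.ne')]
      ring
  rw [expectedPayoff_sigma]
  have hterm : ∀ j : Fin L.length, (L[j].1 : ℝ≥0∞) / W *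
      payoff (treeStrategy N hN L[j].2 (mix_valid hc j)).1 h ≤
        ENNReal.ofReal ((L[j].1 : ℝ) * L[j].2.aff 0 N i (i + t) / (W * N)) := by
    intro j
    have e1 : h = 0 + 1 / N * (i + t) := by rw [← hy]; field_simp; ring
    have e2 : payoff (treeStrategy N hN L[j].2 (mix_valid hc j)).1 h =
        ENNReal.ofReal (1 / N) * payoff (L[j].2.rule 0 N) (i + t) := by
      rw [e1]
      exact payoff_scale 0 (by positivity) _ _
    have e3 : (L[j].1 : ℝ≥0∞) / W = ENNReal.ofReal ((L[j].1 : ℝ) / W) := by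
      rw [ENNReal.ofReal_div_of_pos hW', ENNReal.ofReal_natCast, ENNReal.ofReal_natCast]
    have e4 := GTree.payoff_le_aff L[j].2 0 N i (i + t) (mix_valid hc j) (Nat.zero_le _)
      (by omega) (by linarith) (by linarith)
    rw [e2, e3, ← mul_assoc, ← ENNReal.ofReal_mul (by positivity)]
    refine (mul_le_mul' le_rfl e4).trans ?_
    rw [← ENNReal.ofReal_mul (by positivity)]
    apply ENNReal.ofReal_le_ofReal
    apply le_of_eq
    field_simp
  refine (Finset.sum_le_sum fun j _ => hterm j).trans ?_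
  rw [← ENNReal.ofReal_sum_of_nonneg]
  · apply ENNReal.ofReal_le_ofReal
    rw [← Finset.sum_div, div_le_div_iff₀ (by positivity) (by positivity)]
    have h5 := aff_mix_le hc i hi t ht0 ht1
    rw [le_div_iff₀ (by norm_num)] at h5
    have h6 := mul_le_mul_of_nonneg_right h5 (by positivity : 0 ≤ (W : ℝ) * N)
    linarith
  · intro j _
    have h7 := GTree.aff_nonneg L[j].2 0 N i (i + t) (mix_valid hc j) (Nat.zero_le _)
      (by omega) (by linarith) (by linarith)
    positivity

theorem guaranteedCost_sigma_le (hN : 0 < N) (hW : 0 < W) (hc : mixCheck N W B L = true) :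
    guaranteedCost (sigma hN hW hc) ≤ ENNReal.ofReal ((B : ℝ) / (100000 * W * N)) :=
  iSup₂_le fun h hh => expectedPayoff_sigma_le hN hW hc h hh

end

end Pool.Agent.HighLow
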