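import Pool.Agent.Lib.MP_a09a4b_an.Unique

/-!
# Finite guess trees continued by Alpern's rule

Positions are multiples of `1 / N`; in this file the hider's interval is `[0, N]`.
-/

namespace Pool.Agent.HighLow

open scoped ENNReal

/-- A finite guess tree.  A node `n g l r` guesses the grid point `g`; at a leaf `u j` (or `d j`)
play continues with Alpern's rule in state `j` (or `-j`) on the current interval. -/
inductive GTree : Type
  | u (j : ℕ) : GTree
  | d (j : ℕ) : GTree
  | n (g : ℕ) (l r : GTree) : GTree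

namespace GTree

/-- The guessing rule of a tree on the interval `[a, b]`. -/
noncomputable def rule : GTree → ℕ → ℕ → Rule
  | u j, a, b, w => alpernFrom lamSol ((j : ℤ), (a : ℝ), (b : ℝ)) w
  | d j, a, b, w => alpernFrom lamSol (-(j : ℤ), (a : ℝ), (b : ℝ)) w
  | n g _ _, _, _, [] => (g : ℝ)
  | n g _ r, _, b, true :: w => r.rule g b w
  | n g l _, a, _, false :: w => l.rule a g w

/-- All guesses are at grid points strictly inside the current interval. -/
def valid : GTree → ℕ → ℕ → Bool
  | u _, a, b => decide (a < b)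
  | d _, a, b => decide (a < b)
  | n g l r, a, b => decide (a < g) && decide (g < b) && l.valid a g && r.valid g b

/-- The cost for hiders `y` in the cell `[i, i+1]`, an affine function of `y`. -/
noncomputable def aff : GTree → ℕ → ℕ → ℕ → ℝ → ℝ
  | u j, a, b, _, y => eSol j * (b - a) + j * (b - y)
  | d j, a, b, _, y => eSol j * (b - a) + j * (y - a)
  | n g l r, a, b, i, y => if i < g then (g - y) + l.aff a g i y else (y - g) + r.aff g b i y

/-- Integer upper bound for `Dn * aff` at an integer point `x`; `E j` bounds `Dn * eSol j`. -/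
def costN (Dn : ℕ) (E : ℕ → ℕ) : GTree → ℕ → ℕ → ℕ → ℕ → ℕ
  | u j, a, b, _, x => E j * (b - a) + j * Dn * (b - x)
  | d j, a, b, _, x => E j * (b - a) + j * Dn * (x - a)
  | n g l r, a, b, i, x =>
      if i < g then (g - x) * Dn + l.costN Dn E a g i x else (x - g) * Dn + r.costN Dn E g b i x

/-- The mirror image of a tree on `[0, N]`. -/
def mirror (N : ℕ) : GTree → GTree
  | u j => d j
  | d j => u j
  | n g l r => n (N - g) (r.mirror N) (l.mirror N)

theorem valid_lt (T : GTree) : ∀ (a b : ℕ), T.valid a b = true → a < b := by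
  cases T with
  | u j => intro a b h; simpa [valid] using h
  | d j => intro a b h; simpa [valid] using h
  | n g l r =>
    intro a b h
    simp only [valid, Bool.and_eq_true, decide_eq_true_eq] at h
    omega

theorem rule_mem (T : GTree) : ∀ (a b : ℕ), T.valid a b = true → ∀ w,
    (a : ℝ) ≤ T.rule a b w ∧ T.rule a b w ≤ b := by
  induction T with
  | u j =>
    intro a b h w
    have hab : (a : ℝ) < b := by exact_mod_cast valid_lt _ a b h
    have := alpernFrom_mem sys_sol.lam_mem w (j : ℤ) a b hab
    rw [rule]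
    exact ⟨this.1.le, this.2.le⟩
  | d j =>
    intro a b h w
    have hab : (a : ℝ) < b := by exact_mod_cast valid_lt _ a b h
    have := alpernFrom_mem sys_sol.lam_mem w (-(j : ℤ)) a b hab
    rw [rule]
    exact ⟨this.1.le, this.2.le⟩
  | n g l r ihl ihr =>
    intro a b h w
    simp only [valid, Bool.and_eq_true, decide_eq_true_eq] at h
    obtain ⟨⟨⟨h1, h2⟩, h3⟩, h4⟩ := h
    have h1' : (a : ℝ) < g := by exact_mod_cast h1
    have h2' : (g : ℝ) < b := by exact_mod_cast h2
    rcases w with _ | ⟨x, w⟩
    · rw [rule]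
      exact ⟨h1'.le, h2'.le⟩
    · cases x with
      | true =>
        rw [rule]
        have := ihr g b h4 w
        exact ⟨h1'.le.trans this.1, this.2⟩
      | false =>
        rw [rule]
        have := ihl a g h3 w
        exact ⟨this.1, this.2.trans h2'.le⟩

theorem rule_nil (g : ℕ) (l r : GTree) (a b : ℕ) : (n g l r).rule a b [] = g := by
  rw [rule]

theorem rule_tail_true (g : ℕ) (l r : GTree) (a b : ℕ) :
    Rule.tail ((n g l r).rule a b) true = r.rule g b := by
  funext w
  rw [Rule.tail, rule]

theorem rule_tail_false (g : ℕ) (l r : GTree) (a b : ℕ) :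
    Rule.tail ((n g l r).rule a b) false = l.rule a g := by
  funext w
  rw [Rule.tail, rule]

theorem aff_nonneg (T : GTree) : ∀ (a b i : ℕ) (y : ℝ), T.valid a b = true → a ≤ i → i + 1 ≤ b →
    (i : ℝ) ≤ y → y ≤ i + 1 → 0 ≤ T.aff a b i y := by
  induction T with
  | u j =>
    intro a b i y h ha hb h1 h2
    rw [aff]
    have hab : (a : ℝ) < b := by exact_mod_cast valid_lt _ a b h
    have hb' : (i : ℝ) + 1 ≤ b := by exact_mod_cast hb
    have := eSol_pos j
    have h3 : 0 ≤ eSol j * (b - a) := mul_nonneg this.le (by linarith)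
    have h4 : 0 ≤ (j : ℝ) * (b - y) := mul_nonneg (Nat.cast_nonneg j) (by linarith)
    linarith
  | d j =>
    intro a b i y h ha hb h1 h2
    rw [aff]
    have hab : (a : ℝ) < b := by exact_mod_cast valid_lt _ a b h
    have ha' : (a : ℝ) ≤ i := by exact_mod_cast ha
    have := eSol_pos j
    have h3 : 0 ≤ eSol j * (b - a) := mul_nonneg this.le (by linarith)
    have h4 : 0 ≤ (j : ℝ) * (y - a) := mul_nonneg (Nat.cast_nonneg j) (by linarith)
    linarith
  | n g l r ihl ihr =>
    intro a b i y h ha hb h1 h2
    simp only [valid, Bool.and_eq_true, decide_eq_true_eq] at h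
    obtain ⟨⟨⟨h3, h4⟩, h5⟩, h6⟩ := h
    rw [aff]
    split_ifs with hi
    · have hi' : (i : ℝ) + 1 ≤ g := by exact_mod_cast hi
      have := ihl a g i y h5 ha hi h1 h2
      linarith
    · push Not at hi
      have hi' : (g : ℝ) ≤ i := by exact_mod_cast hi
      have := ihr g b i y h6 hi hb h1 h2
      linarith

theorem payoff_le_aff (T : GTree) : ∀ (a b i : ℕ) (y : ℝ), T.valid a b = true → a ≤ i →
    i + 1 ≤ b → (i : ℝ) ≤ y → y ≤ i + 1 →
      payoff (T.rule a b) y ≤ ENNReal.ofReal (T.aff a b i y) := by
  induction T with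
  | u j =>
    intro a b i y h ha hb h1 h2
    have hab : (a : ℝ) < b := by exact_mod_cast valid_lt _ a b h
    have ha' : (a : ℝ) ≤ i := by exact_mod_cast ha
    have hb' : (i : ℝ) + 1 ≤ b := by exact_mod_cast hb
    have e1 : (u j).rule a b = alpernFrom lamSol ((j : ℤ), (a : ℝ), (b : ℝ)) := by
      funext w
      rw [rule]
    rw [e1, aff]
    refine (payoff_alpern_le sys_sol hab (by linarith) (by linarith)).trans (le_of_eq ?_)
    congr 1
    rw [rem, cSol_nat]
    push_cast
    ring
  | d j =>
    intro a b i y h ha hb h1 h2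
    have hab : (a : ℝ) < b := by exact_mod_cast valid_lt _ a b h
    have ha' : (a : ℝ) ≤ i := by exact_mod_cast ha
    have hb' : (i : ℝ) + 1 ≤ b := by exact_mod_cast hb
    have e1 : (d j).rule a b = alpernFrom lamSol (-(j : ℤ), (a : ℝ), (b : ℝ)) := by
      funext w
      rw [rule]
    rw [e1, aff]
    refine (payoff_alpern_le sys_sol hab (by linarith) (by linarith)).trans (le_of_eq ?_)
    congr 1
    rw [rem, cSol_neg]
    push_cast
    ring
  | n g l r ihl ihr =>
    intro a b i y h ha hb h1 h2
    have hv := h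
    simp only [valid, Bool.and_eq_true, decide_eq_true_eq] at h
    obtain ⟨⟨⟨h3, h4⟩, h5⟩, h6⟩ := h
    rcases lt_trichotomy (g : ℝ) y with h0 | h0 | h0
    · have hi : ¬ i < g := by
        intro hlt
        have : (i : ℝ) + 1 ≤ g := by exact_mod_cast hlt
        linarith
      rw [payoff_of_lt (by rw [rule_nil]; exact h0), rule_tail_true, rule_nil, aff, if_neg hi]
      push Not at hi
      refine (add_le_add le_rfl (ihr g b i y h6 hi hb h1 h2)).trans ?_
      rw [← ENNReal.ofReal_add (by linarith) (aff_nonneg r g b i y h6 hi hb h1 h2)]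
    · rw [payoff_of_eq (by rw [rule_nil]; exact h0)]
      exact zero_le
    · have hi : i < g := by
        have : (i : ℝ) < g := lt_of_le_of_lt h1 h0
        exact_mod_cast this
      rw [payoff_of_gt (by rw [rule_nil]; exact h0), rule_tail_false, rule_nil, aff, if_pos hi]
      refine (add_le_add le_rfl (ihl a g i y h5 ha hi h1 h2)).trans ?_
      rw [← ENNReal.ofReal_add (by linarith) (aff_nonneg l a g i y h5 ha hi h1 h2)]

theorem aff_interp (T : GTree) : ∀ (a b i : ℕ) (t : ℝ),
    T.aff a b i (i + t) = (1 - t) * T.aff a b i i + t * T.aff a b i (i + 1 : ℕ) := by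
  induction T with
  | u j => intro a b i t; simp only [aff]; push_cast; ring
  | d j => intro a b i t; simp only [aff]; push_cast; ring
  | n g l r ihl ihr =>
    intro a b i t
    simp only [aff]
    split_ifs with hi
    · rw [ihl a g i t]; push_cast; ring
    · rw [ihr g b i t]; push_cast; ring

theorem aff_le_costN {Dn : ℕ} {E : ℕ → ℕ} (hE : ∀ j, (Dn : ℝ) * eSol j ≤ E j) (T : GTree) :
    ∀ (a b i x : ℕ), T.valid a b = true → a ≤ i → i + 1 ≤ b → i ≤ x → x ≤ i + 1 →
      (Dn : ℝ) * T.aff a b i x ≤ (T.costN Dn E a b i x : ℕ) := by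
  induction T with
  | u j =>
    intro a b i x h ha hb h1 h2
    have hab : a < b := valid_lt _ a b h
    have hxb : x ≤ b := h2.trans hb
    rw [aff, costN]
    push_cast [Nat.cast_sub hab.le, Nat.cast_sub hxb]
    have hab' : (0 : ℝ) ≤ b - a := by
      have : (a : ℝ) < b := by exact_mod_cast hab
      linarith
    have := mul_le_mul_of_nonneg_right (hE j) hab'
    linarith
  | d j =>
    intro a b i x h ha hb h1 h2
    have hab : a < b := valid_lt _ a b h
    have hxa : a ≤ x := ha.trans h1
    rw [aff, costN]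
    push_cast [Nat.cast_sub hab.le, Nat.cast_sub hxa]
    have hab' : (0 : ℝ) ≤ b - a := by
      have : (a : ℝ) < b := by exact_mod_cast hab
      linarith
    have := mul_le_mul_of_nonneg_right (hE j) hab'
    linarith
  | n g l r ihl ihr =>
    intro a b i x h ha hb h1 h2
    simp only [valid, Bool.and_eq_true, decide_eq_true_eq] at h
    obtain ⟨⟨⟨h3, h4⟩, h5⟩, h6⟩ := h
    rw [aff, costN]
    split_ifs with hi
    · have hxg : x ≤ g := h2.trans hi
      have := ihl a g i x h5 ha hi h1 h2
      push_cast [Nat.cast_sub hxg]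
      linarith
    · push Not at hi
      have hgx : g ≤ x := hi.trans h1
      have := ihr g b i x h6 hi hb h1 h2
      push_cast [Nat.cast_sub hgx]
      linarith

end GTree

/-! ### Bounds for the constants -/

/-- A supersolution of the recursion. -/
noncomputable def supSol : ℕ → ℝ
  | 0 => 62454 / 100000
  | 1 => 24908 / 100000
  | 2 => 7768 / 100000
  | 3 => 1911 / 100000
  | 4 => 400 / 100000
  | j + 5 => 200 / 100000 * (1 / 2) ^ j

/-- A subsolution of the recursion. -/
noncomputable def subSol : ℕ → ℝ
  | 0 => 62453 / 100000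
  | 1 => 24906 / 100000
  | 2 => 7765 / 100000
  | 3 => 1909 / 100000
  | 4 => 38 / 10000
  | 5 => 6 / 10000
  | _ + 6 => 0

theorem supSol_mem (j : ℕ) : supSol j ∈ Set.Icc (0 : ℝ) 1 := by
  rcases j with _ | _ | _ | _ | _ | j
  · norm_num [supSol]
  · norm_num [supSol]
  · norm_num [supSol]
  · norm_num [supSol]
  · norm_num [supSol]
  · simp only [supSol]
    have h1 : (0 : ℝ) < (1 / 2) ^ j := by positivity
    have h2 : ((1 : ℝ) / 2) ^ j ≤ 1 := pow_le_one₀ (by norm_num) (by norm_num)
    constructor
    · positivity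
    · linarith

theorem supSol_super (j : ℕ) : stepR supSol j ≤ supSol j := by
  rcases j with _ | _ | _ | _ | _ | _ | j
  · norm_num [stepR, supSol]
  · norm_num [stepR, supSol]
  · norm_num [stepR, supSol]
  · norm_num [stepR, supSol]
  · norm_num [stepR, supSol]
  · norm_num [stepR, supSol]
  · simp only [stepR, supSol]
    have h1 : (0 : ℝ) < (1 / 2) ^ j := by positivity
    have h2 : ((1 : ℝ) / 2) ^ j ≤ 1 := pow_le_one₀ (by norm_num) (by norm_num)
    have hj : (0 : ℝ) ≤ j := Nat.cast_nonneg j
    have e1 : ((1 : ℝ) / 2) ^ (j + 1) = (1 / 2) ^ j * (1 / 2) := pow_succ _ _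
    have e2 : ((1 : ℝ) / 2) ^ (j + 2) = (1 / 2) ^ j * (1 / 4) := by
      rw [pow_add]; norm_num
    rw [e1, e2]
    push_cast
    set p := ((1 : ℝ) / 2) ^ j
    rw [div_le_iff₀ (by positivity)]
    nlinarith [mul_pos h1 h1, mul_nonneg h1.le hj]

theorem subSol_mem (j : ℕ) : subSol j ∈ Set.Icc (0 : ℝ) 1 := by
  rcases j with _ | _ | _ | _ | _ | _ | j <;> norm_num [subSol]

theorem subSol_sub (j : ℕ) : subSol j ≤ stepR subSol j := by
  rcases j with _ | _ | _ | _ | _ | _ | _ | j
  · norm_num [stepR, subSol]
  · norm_num [stepR, subSol]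
  · norm_num [stepR, subSol]
  · norm_num [stepR, subSol]
  · norm_num [stepR, subSol]
  · norm_num [stepR, subSol]
  · simp only [stepR, subSol]
    positivity
  · simp only [stepR, subSol]
    norm_num

/-- Upper bounds for `100000 * eSol j`. -/
def eBound : ℕ → ℕ
  | 0 => 62454
  | 1 => 24908
  | 2 => 7768
  | _ + 3 => 1911

theorem eBound_spec (j : ℕ) : ((100000 : ℕ) : ℝ) * eSol j ≤ eBound j := by
  have h := eSol_le supSol_mem supSol_super
  rcases j with _ | _ | _ | j
  · have := h 0
    simp only [supSol, eBound] at this ⊢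
    push_cast
    linarith
  · have := h 1
    simp only [supSol, eBound] at this ⊢
    push_cast
    linarith
  · have := h 2
    simp only [supSol, eBound] at this ⊢
    push_cast
    linarith
  · have h3 := h 3
    have hm : ∀ i, eSol (i + 3) ≤ eSol 3 := by
      intro i
      induction i with
      | zero => exact le_rfl
      | succ i ih => exact (eSol_spec.1.lt_prev (i + 3)).le.trans ih
    have := hm j
    simp only [supSol, eBound] at h3 ⊢
    push_cast
    linarith

theorem eSol_zero_ge : (62453 / 100000 : ℝ) ≤ eSol 0 := by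
  have := le_eSol subSol_mem subSol_sub 0
  simpa only [subSol] using this

end Pool.Agent.HighLow
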