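import Pool.Agent.Lib.MP_a09a4b_an.Family

/-!
# Any family with constant payoff is the explicit one
-/

namespace Pool.Agent.HighLow

open scoped ENNReal

variable {lam : ℤ → ℝ} {v : ℝ≥0∞}

/-- The normalised rule in state `k`, on `[0,1]`. -/
noncomputable abbrev unitRule (lam : ℤ → ℝ) (k : ℤ) : Rule := alpernFrom lam (k, 0, 1)

theorem unitRule_nil (lam : ℤ → ℝ) (k : ℤ) : unitRule lam k [] = gpos lam k := by
  rw [unitRule, alpernFrom_nil, alpernGuess_eq]
  ring

theorem unitRule_tail_true (lam : ℤ → ℝ) (k : ℤ) :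
    Rule.tail (unitRule lam k) true =
      (unitRule lam (k + 1)).scale (gpos lam k) (1 - gpos lam k) := by
  rw [unitRule, alpernFrom_tail, alpernStep_true, alpernFrom_scale']
  congr 1 <;> ring

theorem unitRule_tail_false (lam : ℤ → ℝ) (k : ℤ) :
    Rule.tail (unitRule lam k) false = (unitRule lam (k - 1)).scale 0 (gpos lam k) := by
  rw [unitRule, alpernFrom_tail, alpernStep_false, alpernFrom_scale']
  congr 1
  ring

theorem unitRule_cons_true (lam : ℤ → ℝ) (k : ℤ) (w : List Bool) :
    unitRule lam k (true :: w) = gpos lam k + (1 - gpos lam k) * unitRule lam (k + 1) w := by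
  have := congrFun (unitRule_tail_true lam k) w
  exact this

theorem unitRule_cons_false (lam : ℤ → ℝ) (k : ℤ) (w : List Bool) :
    unitRule lam k (false :: w) = gpos lam k * unitRule lam (k - 1) w := by
  have := congrFun (unitRule_tail_false lam k) w
  rw [show unitRule lam k (false :: w) = Rule.tail (unitRule lam k) false w from rfl, this]
  simp [Rule.scale]

theorem unitRule_mem (hlam : ∀ k, lam k ∈ Set.Ioo (0 : ℝ) 1) (k : ℤ) (w : List Bool) :
    0 < unitRule lam k w ∧ unitRule lam k w < 1 :=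
  alpernFrom_mem hlam w k 0 1 one_pos

/-- Going up: the payoff to the right of the guess. -/
theorem payoff_unit_right (hlam : ∀ k, lam k ∈ Set.Ioo (0 : ℝ) 1) (k : ℤ) {y : ℝ} (hy : 0 < y) :
    payoff (unitRule lam k) (gpos lam k + (1 - gpos lam k) * y) =
      ENNReal.ofReal ((1 - gpos lam k) * y) +
        ENNReal.ofReal (1 - gpos lam k) * payoff (unitRule lam (k + 1)) y := by
  obtain ⟨h1, h2⟩ := gpos_mem hlam k
  have h3 : 0 < 1 - gpos lam k := by linarith
  have h4 : 0 < (1 - gpos lam k) * y := mul_pos h3 hy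
  rw [payoff_of_lt (by rw [unitRule_nil]; linarith), unitRule_tail_true, payoff_scale _ h3,
    unitRule_nil, add_sub_cancel_left]

/-- Going down: the payoff to the left of the guess. -/
theorem payoff_unit_left (hlam : ∀ k, lam k ∈ Set.Ioo (0 : ℝ) 1) (k : ℤ) {y : ℝ} (hy : y < 1) :
    payoff (unitRule lam k) (gpos lam k * y) =
      ENNReal.ofReal (gpos lam k * (1 - y)) +
        ENNReal.ofReal (gpos lam k) * payoff (unitRule lam (k - 1)) y := by
  obtain ⟨h1, h2⟩ := gpos_mem hlam k
  have h4 : gpos lam k * y < gpos lam k := by nlinarith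
  have h5 := payoff_scale 0 h1 (unitRule lam (k - 1)) y
  rw [zero_add] at h5
  rw [payoff_of_gt (by rw [unitRule_nil]; exact h4), unitRule_tail_false, h5, unitRule_nil]
  congr 2
  ring

theorem notMem_right (hlam : ∀ k, lam k ∈ Set.Ioo (0 : ℝ) 1) {k : ℤ} {y : ℝ} (hy : 0 < y)
    (hr : y ∉ Set.range (unitRule lam (k + 1))) :
    gpos lam k + (1 - gpos lam k) * y ∉ Set.range (unitRule lam k) := by
  obtain ⟨h1, h2⟩ := gpos_mem hlam k
  have h3 : 0 < 1 - gpos lam k := by linarith
  have h4 : 0 < (1 - gpos lam k) * y := mul_pos h3 hy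
  rintro ⟨w, hw⟩
  cases w with
  | nil => rw [unitRule_nil] at hw; linarith
  | cons x w =>
    cases x with
    | true =>
      rw [unitRule_cons_true] at hw
      apply hr
      refine ⟨w, ?_⟩
      exact mul_left_cancel₀ h3.ne' (add_left_cancel hw)
    | false =>
      rw [unitRule_cons_false] at hw
      have := mul_lt_mul_of_pos_left (unitRule_mem hlam (k - 1) w).2 h1
      linarith

theorem notMem_left (hlam : ∀ k, lam k ∈ Set.Ioo (0 : ℝ) 1) {k : ℤ} {y : ℝ} (hy : y < 1)
    (hr : y ∉ Set.range (unitRule lam (k - 1))) :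
    gpos lam k * y ∉ Set.range (unitRule lam k) := by
  obtain ⟨h1, h2⟩ := gpos_mem hlam k
  have h3 : 0 < 1 - gpos lam k := by linarith
  have h4 : gpos lam k * y < gpos lam k := by nlinarith
  rintro ⟨w, hw⟩
  cases w with
  | nil => rw [unitRule_nil] at hw; linarith
  | cons x w =>
    cases x with
    | false =>
      rw [unitRule_cons_false] at hw
      apply hr
      exact ⟨w, mul_left_cancel₀ h1.ne' hw⟩
    | true =>
      rw [unitRule_cons_true] at hw
      have := mul_pos h3 (unitRule_mem hlam (k + 1) w).1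
      linarith

/-- Points outside the guesses are dense. -/
theorem exists_between_notMem (lam : ℤ → ℝ) (k : ℤ) {a b : ℝ} (hab : a < b) :
    ∃ x, a < x ∧ x < b ∧ x ∉ Set.range (unitRule lam k) := by
  have hd : Dense (Set.range (unitRule lam k))ᶜ :=
    (Set.countable_range (unitRule lam k)).dense_compl ℝ
  obtain ⟨x, hx, hx1, hx2⟩ := hd.exists_between hab
  exact ⟨x, hx1, hx2, hx⟩

/-! ### The common value is finite -/

/-- The point reached by the alternating answers `too low, too high, too low, ...`. -/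
noncomputable def altPoint (lam : ℤ → ℝ) : ℝ :=
  gpos lam 0 / (1 - (1 - gpos lam 0) * gpos lam 1)

theorem altPoint_spec (hlam : ∀ k, lam k ∈ Set.Ioo (0 : ℝ) 1) :
    0 < altPoint lam ∧ altPoint lam < 1 ∧ 0 < (1 - gpos lam 0) * gpos lam 1 ∧
      (1 - gpos lam 0) * gpos lam 1 < 1 ∧
      altPoint lam = gpos lam 0 + (1 - gpos lam 0) * (gpos lam 1 * altPoint lam) := by
  obtain ⟨h1, h2⟩ := gpos_mem hlam 0
  obtain ⟨h3, h4⟩ := gpos_mem hlam 1
  have h5 : 0 < 1 - gpos lam 0 := by linarith
  have h6 : 0 < (1 - gpos lam 0) * gpos lam 1 := mul_pos h5 h3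
  have h7 : (1 - gpos lam 0) * gpos lam 1 < 1 - gpos lam 0 := by nlinarith
  have h8 : 0 < 1 - (1 - gpos lam 0) * gpos lam 1 := by linarith
  refine ⟨div_pos h1 h8, ?_, h6, by linarith, ?_⟩
  · unfold altPoint
    rw [div_lt_one h8]
    linarith
  · unfold altPoint
    field_simp
    ring

theorem altPoint_notMem (hlam : ∀ k, lam k ∈ Set.Ioo (0 : ℝ) 1) (n : ℕ) :
    ∀ w : List Bool, w.length < n → unitRule lam 0 w ≠ altPoint lam := by
  obtain ⟨p1, p2, p3, p4, p5⟩ := altPoint_spec hlam
  obtain ⟨h1, h2⟩ := gpos_mem hlam 0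
  obtain ⟨h3, h4⟩ := gpos_mem hlam 1
  have h5 : 0 < 1 - gpos lam 0 := by linarith
  have q1 : 0 < gpos lam 1 * altPoint lam := mul_pos h3 p1
  have q2 : gpos lam 1 * altPoint lam < gpos lam 1 := by nlinarith
  have q3 : 0 < (1 - gpos lam 0) * (gpos lam 1 * altPoint lam) := mul_pos h5 q1
  induction n with
  | zero => intro w hw; exact absurd hw (Nat.not_lt_zero _)
  | succ n ih =>
    intro w hw heq
    rcases w with _ | ⟨x, w⟩
    · rw [unitRule_nil] at heq
      linarith
    · cases x with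
      | false =>
        rw [unitRule_cons_false] at heq
        have := mul_lt_mul_of_pos_left (unitRule_mem hlam (0 - 1) w).2 h1
        linarith
      | true =>
        rw [unitRule_cons_true] at heq
        have heq2 : unitRule lam (0 + 1) w = gpos lam 1 * altPoint lam := by
          rw [p5] at heq
          exact mul_left_cancel₀ h5.ne' (add_left_cancel heq)
        rw [zero_add] at heq2
        rcases w with _ | ⟨x, w⟩
        · rw [unitRule_nil] at heq2
          linarith
        · cases x with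
          | true =>
            rw [unitRule_cons_true] at heq2
            have := mul_pos (sub_pos.2 h4) (unitRule_mem hlam (1 + 1) w).1
            linarith
          | false =>
            rw [unitRule_cons_false, sub_self] at heq2
            refine ih w ?_ (mul_left_cancel₀ h3.ne' heq2)
            simp only [List.length_cons] at hw
            omega

theorem pay_altPoint_le (hlam : ∀ k, lam k ∈ Set.Ioo (0 : ℝ) 1) (n : ℕ) :
    ∃ M : ℝ, 0 ≤ M ∧ ∀ m ≤ n, pay (unitRule lam 0) (altPoint lam) m ≤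
      ENNReal.ofReal (2 / (1 - (1 - gpos lam 0) * gpos lam 1)) := by
  obtain ⟨p1, p2, p3, p4, p5⟩ := altPoint_spec hlam
  obtain ⟨h1, h2⟩ := gpos_mem hlam 0
  obtain ⟨h3, h4⟩ := gpos_mem hlam 1
  have h5 : 0 < 1 - gpos lam 0 := by linarith
  have q1 : 0 < gpos lam 1 * altPoint lam := mul_pos h3 p1
  have q2 : gpos lam 1 * altPoint lam < gpos lam 1 := by nlinarith
  have q3 : 0 < (1 - gpos lam 0) * (gpos lam 1 * altPoint lam) := mul_pos h5 q1
  have q4 : (1 - gpos lam 0) * (gpos lam 1 * altPoint lam) ≤ 1 := by nlinarith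
  set q := (1 - gpos lam 0) * gpos lam 1 with hq
  have hden : 0 < 1 - q := by linarith
  have hB : 0 ≤ 2 / (1 - q) := (div_pos two_pos hden).le
  refine ⟨0, le_rfl, ?_⟩
  have hnil0 : unitRule lam 0 [] < altPoint lam := by
    rw [unitRule_nil]
    linarith
  have hstep1 : ∀ m, pay (unitRule lam 0) (altPoint lam) (m + 1) ≤
      1 + ENNReal.ofReal (1 - gpos lam 0) * pay (unitRule lam 1) (gpos lam 1 * altPoint lam) m := by
    intro m
    have e1 := pay_scale (gpos lam 0) h5 m (unitRule lam 1) (gpos lam 1 * altPoint lam)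
    rw [← p5] at e1
    rw [pay_of_lt hnil0, unitRule_tail_true, zero_add, e1]
    refine add_le_add ?_ le_rfl
    rw [← ENNReal.ofReal_one]
    apply ENNReal.ofReal_le_ofReal
    rw [unitRule_nil]
    linarith
  have hnil1 : gpos lam 1 * altPoint lam < unitRule lam 1 [] := by
    rw [unitRule_nil]
    exact q2
  have hstep2 : ∀ m, pay (unitRule lam 1) (gpos lam 1 * altPoint lam) (m + 1) ≤
      1 + ENNReal.ofReal (gpos lam 1) * pay (unitRule lam 0) (altPoint lam) m := by
    intro m
    have e1 := pay_scale 0 h3 m (unitRule lam 0) (altPoint lam)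
    rw [zero_add] at e1
    rw [pay_of_gt hnil1, unitRule_tail_false, sub_self, e1]
    refine add_le_add ?_ le_rfl
    rw [← ENNReal.ofReal_one]
    apply ENNReal.ofReal_le_ofReal
    rw [unitRule_nil]
    linarith
  have h2B : (1 : ℝ) ≤ 2 / (1 - q) := by
    rw [le_div_iff₀ hden]
    linarith
  have hall : ∀ m, pay (unitRule lam 0) (altPoint lam) m ≤ ENNReal.ofReal (2 / (1 - q)) ∧
      pay (unitRule lam 0) (altPoint lam) (m + 1) ≤ ENNReal.ofReal (2 / (1 - q)) := by
    intro m
    induction m with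
    | zero =>
      rw [pay_zero]
      refine ⟨zero_le, (hstep1 0).trans ?_⟩
      rw [pay_zero, mul_zero, add_zero, ← ENNReal.ofReal_one]
      exact ENNReal.ofReal_le_ofReal h2B
    | succ m ih =>
      refine ⟨ih.2, (hstep1 (m + 1)).trans ?_⟩
      calc 1 + ENNReal.ofReal (1 - gpos lam 0) *
            pay (unitRule lam 1) (gpos lam 1 * altPoint lam) (m + 1)
          ≤ 1 + ENNReal.ofReal (1 - gpos lam 0) *
              (1 + ENNReal.ofReal (gpos lam 1) * ENNReal.ofReal (2 / (1 - q))) := by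
            gcongr
            exact (hstep2 m).trans (add_le_add le_rfl (mul_le_mul' le_rfl ih.1))
        _ = ENNReal.ofReal (1 + (1 - gpos lam 0) * (1 + gpos lam 1 * (2 / (1 - q)))) := by
            rw [← ENNReal.ofReal_one, ← ENNReal.ofReal_mul h3.le,
              ← ENNReal.ofReal_add zero_le_one (by positivity), ← ENNReal.ofReal_mul h5.le,
              ← ENNReal.ofReal_add zero_le_one (by positivity)]
        _ ≤ ENNReal.ofReal (2 / (1 - q)) := by
            apply ENNReal.ofReal_le_ofReal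
            have e2 : (1 - gpos lam 0) * (1 + gpos lam 1 * (2 / (1 - q))) =
                (1 - gpos lam 0) + q * (2 / (1 - q)) := by
              rw [hq]
              ring
            have e3 : 2 / (1 - q) = 2 + q * (2 / (1 - q)) := by
              field_simp
              ring
            rw [e2]
            linarith
  intro m _
  exact (hall m).1

theorem payoff_altPoint_ne_top (hlam : ∀ k, lam k ∈ Set.Ioo (0 : ℝ) 1) :
    payoff (unitRule lam 0) (altPoint lam) ≠ ⊤ := by
  have : payoff (unitRule lam 0) (altPoint lam) ≤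
      ENNReal.ofReal (2 / (1 - (1 - gpos lam 0) * gpos lam 1)) := by
    apply payoff_le
    intro n
    obtain ⟨M, _, hM⟩ := pay_altPoint_le hlam n
    exact hM n le_rfl
  exact ne_top_of_le_ne_top ENNReal.ofReal_ne_top this

theorem value_ne_top (hA : IsAlpernFamily lam v) : v ≠ ⊤ := by
  obtain ⟨hlam, hconst⟩ := hA
  obtain ⟨p1, p2, _⟩ := altPoint_spec hlam
  have := hconst (altPoint lam) ⟨p1.le, p2.le⟩ (by
    rintro ⟨w, hw⟩
    exact altPoint_notMem hlam (w.length + 1) w (Nat.lt_succ_self _) hw)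
  rw [← this]
  exact payoff_altPoint_ne_top hlam

/-! ### The remaining cost is affine in every state -/

/-- The remaining cost in state `k` is `C - k x` off the guesses. -/
def Aff (lam : ℤ → ℝ) (k : ℤ) (C : ℝ) : Prop :=
  ∀ x, 0 < x → x < 1 → x ∉ Set.range (unitRule lam k) →
    0 ≤ C - k * x ∧ payoff (unitRule lam k) x = ENNReal.ofReal (C - k * x)

theorem Aff.unique {k : ℤ} {C C' : ℝ} (h1 : Aff lam k C) (h2 : Aff lam k C') : C = C' := by
  obtain ⟨x, hx0, hx1, hx⟩ := exists_between_notMem lam k one_pos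
  obtain ⟨a1, a2⟩ := h1 x hx0 hx1 hx
  obtain ⟨b1, b2⟩ := h2 x hx0 hx1 hx
  rw [a2] at b2
  have := (ENNReal.ofReal_eq_ofReal_iff a1 b1).1 b2
  linarith

theorem Aff.up (hlam : ∀ k, lam k ∈ Set.Ioo (0 : ℝ) 1) {k : ℤ} {C : ℝ} (hA : Aff lam k C) :
    Aff lam (k + 1) ((C - k * gpos lam k) / (1 - gpos lam k)) := by
  intro y hy0 hy1 hy
  obtain ⟨h1, h2⟩ := gpos_mem hlam k
  have h3 : 0 < 1 - gpos lam k := by linarith
  have hx1 : 0 < gpos lam k + (1 - gpos lam k) * y := by positivity
  have hx2 : gpos lam k + (1 - gpos lam k) * y < 1 := by nlinarith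
  obtain ⟨a1, a2⟩ := hA _ hx1 hx2 (notMem_right hlam hy0 hy)
  rw [payoff_unit_right hlam k hy0] at a2
  have hle : ENNReal.ofReal ((1 - gpos lam k) * y) ≤
      ENNReal.ofReal (C - k * (gpos lam k + (1 - gpos lam k) * y)) := by
    rw [← a2]
    exact le_self_add
  rw [ENNReal.ofReal_le_ofReal_iff a1] at hle
  have hsplit : ENNReal.ofReal (C - k * (gpos lam k + (1 - gpos lam k) * y)) =
      ENNReal.ofReal ((1 - gpos lam k) * y) + ENNReal.ofReal (1 - gpos lam k) *
        ENNReal.ofReal ((C - k * gpos lam k) / (1 - gpos lam k) - ((k + 1 : ℤ) : ℝ) * y) := by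
    rw [← ENNReal.ofReal_mul h3.le, ← ENNReal.ofReal_add (by positivity)]
    · congr 1
      push_cast
      field_simp
      ring
    · have : (1 - gpos lam k) * ((C - k * gpos lam k) / (1 - gpos lam k) - ((k + 1 : ℤ) : ℝ) * y) =
          C - k * (gpos lam k + (1 - gpos lam k) * y) - (1 - gpos lam k) * y := by
        push_cast
        field_simp
        ring
      rw [this]
      linarith
  rw [hsplit] at a2
  have hc := (ENNReal.add_right_inj ENNReal.ofReal_ne_top).1 a2
  have hpos : ENNReal.ofReal (1 - gpos lam k) ≠ 0 := by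
    rw [Ne, ENNReal.ofReal_eq_zero]
    linarith
  have hc2 := (ENNReal.mul_right_inj hpos ENNReal.ofReal_ne_top).1 hc
  refine ⟨?_, hc2⟩
  have : (C - k * gpos lam k) / (1 - gpos lam k) - ((k + 1 : ℤ) : ℝ) * y =
      (C - k * (gpos lam k + (1 - gpos lam k) * y) - (1 - gpos lam k) * y) /
        (1 - gpos lam k) := by
    push_cast
    field_simp
    ring
  rw [this]
  exact div_nonneg (by linarith) h3.le

theorem Aff.down (hlam : ∀ k, lam k ∈ Set.Ioo (0 : ℝ) 1) {k : ℤ} {C : ℝ} (hA : Aff lam k C) :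
    Aff lam (k - 1) (C / gpos lam k - 1) := by
  intro y hy0 hy1 hy
  obtain ⟨h1, h2⟩ := gpos_mem hlam k
  have hx1 : 0 < gpos lam k * y := by positivity
  have hx2 : gpos lam k * y < 1 := by nlinarith
  obtain ⟨a1, a2⟩ := hA _ hx1 hx2 (notMem_left hlam hy1 hy)
  rw [payoff_unit_left hlam k hy1] at a2
  have hle : ENNReal.ofReal (gpos lam k * (1 - y)) ≤
      ENNReal.ofReal (C - k * (gpos lam k * y)) := by
    rw [← a2]
    exact le_self_add
  rw [ENNReal.ofReal_le_ofReal_iff a1] at hle
  have hid : gpos lam k * (C / gpos lam k - 1 - ((k - 1 : ℤ) : ℝ) * y) =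
      C - k * (gpos lam k * y) - gpos lam k * (1 - y) := by
    push_cast
    field_simp
    ring
  have hsplit : ENNReal.ofReal (C - k * (gpos lam k * y)) =
      ENNReal.ofReal (gpos lam k * (1 - y)) + ENNReal.ofReal (gpos lam k) *
        ENNReal.ofReal (C / gpos lam k - 1 - ((k - 1 : ℤ) : ℝ) * y) := by
    have hy' : 0 < 1 - y := by linarith
    rw [← ENNReal.ofReal_mul h1.le, ← ENNReal.ofReal_add (by positivity)]
    · congr 1
      rw [hid]
      ring
    · rw [hid]
      linarith
  rw [hsplit] at a2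
  have hc := (ENNReal.add_right_inj ENNReal.ofReal_ne_top).1 a2
  have hpos : ENNReal.ofReal (gpos lam k) ≠ 0 := by
    rw [Ne, ENNReal.ofReal_eq_zero]
    linarith
  have hc2 := (ENNReal.mul_right_inj hpos ENNReal.ofReal_ne_top).1 hc
  refine ⟨?_, hc2⟩
  by_contra hcon
  push Not at hcon
  have := mul_neg_of_pos_of_neg h1 hcon
  rw [hid] at this
  linarith

theorem Aff.exists (hA : IsAlpernFamily lam v) (k : ℤ) : ∃ C, Aff lam k C := by
  have hlam := hA.1
  have h0 : ∃ C, Aff lam 0 C := by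
    refine ⟨v.toReal, ?_⟩
    intro x hx0 hx1 hx
    refine ⟨by simp, ?_⟩
    rw [Int.cast_zero, zero_mul, sub_zero, ENNReal.ofReal_toReal (value_ne_top hA)]
    exact hA.2 x ⟨hx0.le, hx1.le⟩ hx
  induction k using Int.induction_on with
  | zero => exact h0
  | succ i ih =>
    obtain ⟨C, hC⟩ := ih
    exact ⟨_, hC.up hlam⟩
  | pred i ih =>
    obtain ⟨C, hC⟩ := ih
    exact ⟨_, hC.down hlam⟩

theorem Aff.nonneg {k : ℤ} {C : ℝ} (hA : Aff lam k C) : 0 ≤ C ∧ (k : ℝ) ≤ C := by
  constructor
  · by_contra hcon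
    push Not at hcon
    have hε : 0 < min 1 (-C / (|(k : ℝ)| + 1)) := by
      apply lt_min one_pos
      have : 0 ≤ |(k : ℝ)| := abs_nonneg _
      exact div_pos (by linarith) (by linarith)
    obtain ⟨x, hx0, hx1, hx⟩ := exists_between_notMem lam k hε
    have hxa : x < 1 := lt_of_lt_of_le hx1 (min_le_left _ _)
    have hxb : x < -C / (|(k : ℝ)| + 1) := lt_of_lt_of_le hx1 (min_le_right _ _)
    have h1 := (hA x hx0 hxa hx).1
    have h2 : 0 ≤ |(k : ℝ)| := abs_nonneg _
    rw [lt_div_iff₀ (by linarith)] at hxb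
    have h3 : -(|(k : ℝ)|) ≤ k := neg_abs_le _
    nlinarith
  · by_contra hcon
    push Not at hcon
    have hε : max 0 (1 - (k - C) / (|(k : ℝ)| + 1)) < 1 := by
      apply max_lt one_pos
      have : 0 ≤ |(k : ℝ)| := abs_nonneg _
      have : 0 < ((k : ℝ) - C) / (|(k : ℝ)| + 1) := div_pos (by linarith) (by linarith)
      linarith
    obtain ⟨x, hx0, hx1, hx⟩ := exists_between_notMem lam k hε
    have hxa : 0 < x := lt_of_le_of_lt (le_max_left _ _) hx0
    have hxb : 1 - (k - C) / (|(k : ℝ)| + 1) < x := lt_of_le_of_lt (le_max_right _ _) hx0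
    have h1 := (hA x hxa hx1 hx).1
    have h2 : 0 ≤ |(k : ℝ)| := abs_nonneg _
    have hxc : 1 - x < (k - C) / (|(k : ℝ)| + 1) := by linarith
    rw [lt_div_iff₀ (by linarith)] at hxc
    have h3 : (k : ℝ) ≤ |(k : ℝ)| := le_abs_self _
    nlinarith

theorem sys_of_isAlpernFamily (hA : IsAlpernFamily lam v) :
    ∃ c : ℤ → ℝ, Sys lam c ∧ v = ENNReal.ofReal (c 0) := by
  choose c hc using Aff.exists hA
  have hlam := hA.1
  refine ⟨c, ⟨hlam, ?_, ?_, fun k => (hc k).nonneg.1, fun k => (hc k).nonneg.2⟩, ?_⟩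
  · intro k
    obtain ⟨h1, h2⟩ := gpos_mem hlam k
    have := ((hc k).down hlam).unique (hc (k - 1))
    rw [← this]
    field_simp
    ring
  · intro k
    obtain ⟨h1, h2⟩ := gpos_mem hlam k
    have h3 : 0 < 1 - gpos lam k := by linarith
    have := ((hc k).up hlam).unique (hc (k + 1))
    rw [← this]
    field_simp
    ring
  · obtain ⟨x, hx0, hx1, hx⟩ := exists_between_notMem lam 0 one_pos
    have h1 := (hc 0 x hx0 hx1 hx).2
    have h2 := hA.2 x ⟨hx0.le, hx1.le⟩ hx
    rw [show alpernRule lam = unitRule lam 0 from rfl] at h2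
    rw [h2] at h1
    rw [h1]
    simp

/-! ### The system has only one solution -/

theorem Sys.pos {c : ℤ → ℝ} (hs : Sys lam c) (k : ℤ) : 0 < c k := by
  rw [hs.left k]
  have := hs.nonneg (k - 1)
  exact mul_pos (gpos_mem hs.lam_mem k).1 (by linarith)

theorem Sys.gt {c : ℤ → ℝ} (hs : Sys lam c) (k : ℤ) : (k : ℝ) < c k := by
  have h1 := hs.right k
  have h2 := hs.ge (k + 1)
  push_cast at h2
  have h3 := (gpos_mem hs.lam_mem k).2
  have : 0 < (1 - gpos lam k) * (c (k + 1) - k) := mul_pos (by linarith) (by linarith)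
  linarith

theorem Sys.rel {c : ℤ → ℝ} (hs : Sys lam c) (k : ℤ) :
    c k * (c (k + 1) - k) + (c k - k) * (1 + c (k - 1)) =
      (1 + c (k - 1)) * (c (k + 1) - k) := by
  have h1 := hs.left k
  have h2 := hs.right k
  set g := gpos lam k
  have h3 : (c k - k) * (1 + c (k - 1)) = (1 - g) * (c (k + 1) - k) * (1 + c (k - 1)) := by
    rw [h2]
  have h4 : c k * (c (k + 1) - k) = g * (1 + c (k - 1)) * (c (k + 1) - k) := by
    nth_rewrite 1 [h1]
    rfl
  rw [h3, h4]
  ring

theorem Sys.rec_up {c : ℤ → ℝ} (hs : Sys lam c) : Rec (fun j : ℕ => c j - j) := by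
  constructor
  · intro j
    have := hs.gt j
    push_cast at this
    simp only
    linarith
  · intro j
    have := hs.rel (j + 1)
    have e1 : c ((j : ℤ) + 1 - 1) = c j := by rw [add_sub_cancel_right]
    have e2 : c ((j : ℤ) + 1 + 1) = c ((j + 2 : ℕ) : ℤ) := by
      congr 1
    have e3 : c ((j : ℤ) + 1) = c ((j + 1 : ℕ) : ℤ) := by
      congr 1
    rw [e1, e2, e3] at this
    push_cast at this ⊢
    linarith

theorem Sys.rec_down {c : ℤ → ℝ} (hs : Sys lam c) : Rec (fun j : ℕ => c (-(j : ℤ))) := by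
  constructor
  · intro j
    exact hs.pos _
  · intro j
    have := hs.rel (-((j : ℤ) + 1))
    have e1 : c (-((j : ℤ) + 1) - 1) = c (-((j + 2 : ℕ) : ℤ)) := by
      congr 1
    have e2 : c (-((j : ℤ) + 1) + 1) = c (-(j : ℤ)) := by
      congr 1
      ring
    have e3 : c (-((j : ℤ) + 1)) = c (-((j + 1 : ℕ) : ℤ)) := by
      congr 1
    rw [e1, e2, e3] at this
    push_cast at this ⊢
    linarith

theorem Sys.eq_sol {c : ℤ → ℝ} (hs : Sys lam c) : c = cSol ∧ lam = lamSol := by
  have hu := hs.rec_up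
  have hd := hs.rec_down
  have h0 : (fun j : ℕ => c j - j) = (fun j : ℕ => c (-(j : ℤ))) := by
    apply Rec.eq_of_zero_eq hu hd
    simp
  have hb : 1 + (fun j : ℕ => c (-(j : ℤ))) 1 = 2 * (fun j : ℕ => c (-(j : ℤ))) 0 := by
    have h1 := hs.rel 0
    have h2 := congrFun h0 1
    simp only [zero_add, zero_sub, Int.cast_zero, sub_zero] at h1
    simp only [Nat.cast_one, Nat.cast_zero, neg_zero] at h2 ⊢
    have h3 : c 1 = 1 + c (-1) := by linarith
    rw [h3] at h1
    have h4 : 0 < 1 + c (-1) := by linarith [hs.pos (-1)]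
    have h5 : (1 + c (-1)) * (2 * c 0) = (1 + c (-1)) * (1 + c (-1)) := by linarith
    have h6 := mul_left_cancel₀ h4.ne' h5
    linarith
  have he := Rec.unique hd eSol_spec.1 hb eSol_spec.2
  have hc : c = cSol := by
    funext k
    rcases le_or_gt 0 k with hk | hk
    · obtain ⟨j, rfl⟩ := Int.eq_ofNat_of_zero_le hk
      have h1 := congrFun h0 j
      have h2 := congrFun he j
      rw [cSol_nat]
      linarith
    · obtain ⟨j, rfl⟩ : ∃ j : ℕ, k = -(j : ℤ) := by
        obtain ⟨n, hn⟩ := Int.eq_ofNat_of_zero_le (by omega : 0 ≤ -k)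
        exact ⟨n, by omega⟩
      rw [cSol_neg]
      exact congrFun he j
  refine ⟨hc, ?_⟩
  funext k
  have h1 := hs.left k
  have h2 : 0 < 1 + c (k - 1) := by linarith [hs.pos (k - 1)]
  unfold lamSol
  rw [← hc]
  have h3 : c k / (1 + c (k - 1)) = gpos lam k := by
    rw [div_eq_iff h2.ne']
    exact h1
  rw [h3]
  simp [gpos]

theorem isAlpernFamily_unique (hA : IsAlpernFamily lam v) :
    lam = lamSol ∧ v = ENNReal.ofReal (eSol 0) := by
  obtain ⟨c, hs, hv⟩ := sys_of_isAlpernFamily hA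
  obtain ⟨h1, h2⟩ := hs.eq_sol
  refine ⟨h2, ?_⟩
  rw [hv, h1]
  congr 1
  simpa using cSol_neg 0

end Pool.Agent.HighLow
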